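import Pool.Agent.H223.EM.Defs
import Pool.Agent.H223.EM.MDefs

set_option autoImplicit false

/-!
Eighth moment lower bound with a polynomial weight: definitions.

The definitions are those of `Pool.Agent.H223.EM` with the weight `P(x) = 1 - 9x/2 + 16x²/3`
in the coefficients of the Dirichlet polynomial `A`.
-/

namespace Pool.Agent.TH158.E8

open Finset Filter Topology MeasureTheory Complex
open Pool.Agent.H306R2 Pool.Agent.H306R2.SM Pool.Agent.H223.EM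

noncomputable section

/-- `x` moved into `[0, 1/2]` -/
def clip (x : ℝ) : ℝ := max 0 (min x (1 / 2))

/-- the weight `1 - 9x/2 + 16x²/3` on `[0, 1/2]` -/
def PP (x : ℝ) : ℝ := 1 - 9 / 2 * clip x + 16 / 3 * clip x ^ 2

/-- weight with cutoff -/
def pt (ε x : ℝ) : ℝ := PP x * et ε x

/-- `G(x,y)`: the average over `b = x β`, `β ~ Beta(6,3)`, of
`∫_0^{1/2-b} z (1-(x-b)-y-z) P(b+z) dz` -/
def GG (x y : ℝ) : ℝ :=
  (31 / 1920 - 37 / 432 * x + 103 / 540 * x ^ 2 - 203 / 990 * x ^ 3 + 161 / 1980 * x ^ 4 +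
    56 / 6435 * x ^ 5) +
  (-1 / 48 + 23 / 216 * x - 7 / 30 * x ^ 2 + 14 / 55 * x ^ 3 - 56 / 495 * x ^ 4) * y

/-- `F(x) = ∫_x^{1/2} (z-x)³/6 P(z) dz` -/
def FF (x : ℝ) : ℝ :=
  (1 / 2 - x) ^ 4 / 288 - (1 / 2 - x) ^ 5 / 144 + 2 * (1 / 2 - x) ^ 6 / 135

/-- coefficient function of `C1` -/
def f1 (ε : ℝ) (x y : ℝ) : ℝ := GG x y * et ε x * et ε y

/-- coefficient function of `C2` -/
def f2 (ε : ℝ) (x y : ℝ) : ℝ := FF x * et ε x * et ε y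

/-- coefficients of `A` -/
def aa (ε T : ℝ) (n : ℕ) : ℝ := d2 n * pt ε (Real.log n / Real.log T)

/-- coefficients of `C1` -/
def c1 (ε T : ℝ) (b : ℕ × ℕ) : ℝ :=
  Real.log T ^ 3 * ps b.1 * f1 ε (Real.log b.1 / Real.log T) (Real.log b.2 / Real.log T) /
    Real.sqrt ((b.1 : ℝ) * b.2)

/-- coefficients of `C2` -/
def c2 (ε T : ℝ) (b : ℕ × ℕ) : ℝ :=
  Real.log T ^ 4 * kp * De b.1 * De b.2 *
    f2 ε (Real.log b.1 / Real.log T) (Real.log b.2 / Real.log T) / Real.sqrt ((b.1 : ℝ) * b.2)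

/-- the Dirichlet polynomial `A` -/
def Ap (ε T t : ℝ) : ℂ :=
  ∑ n ∈ Icc 1 (NN ε T), ((aa ε T n / Real.sqrt n : ℝ) : ℂ) * ef (-(Real.log n)) t

/-- `conj B = X C1 + X^2 C2` -/
def Bc (ε T t : ℝ) : ℂ :=
  Xf (cl t) * Cp (SS' ε T) (c1 ε T) t + Xf (cl t) ^ 2 * Cp (SS' ε T) (c2 ε T) t

/-- continuous integrals -/
def IW1n (ε : ℝ) : ℝ := ∫ u : Fin 2 → ℝ, Gd ![9, 1] u * f1 ε (u 0) (u 1) ^ 2
def IW1c (ε : ℝ) : ℝ := ∫ u : Fin 4 → ℝ, Gd ![3, 6, 1, 2] u *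
  (f1 ε (u 0 + u 1) (u 2) * pt ε (u 1 + u 3) * (1 - u 0 - u 2 - u 3))
def IW2n (ε : ℝ) : ℝ := ∫ u : Fin 2 → ℝ, Gd ![4, 4] u * f2 ε (u 0) (u 1) ^ 2
def IW2c (ε : ℝ) : ℝ := ∫ u : Fin 3 → ℝ, Gd ![4, 4, 4] u *
  (f2 ε (u 0) (u 1) * pt ε (u 0 + u 2))
def IN (ε : ℝ) : ℝ := ∫ u : Fin 4 → ℝ, Gd ![4, 4, 4, 4] u *
  (pt ε (u 0 + u 1) * pt ε (u 2 + u 3) * pt ε (u 0 + u 2) * pt ε (u 1 + u 3))

/-! ### Basic facts on the weight -/

lemma clip_nonneg (x : ℝ) : 0 ≤ clip x := le_max_left _ _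

lemma clip_le (x : ℝ) : clip x ≤ 1 / 2 := max_le (by norm_num) (min_le_right _ _)

lemma clip_eq {x : ℝ} (h0 : 0 ≤ x) (h1 : x ≤ 1 / 2) : clip x = x := by
  unfold clip
  rw [min_eq_left h1, max_eq_right h0]

lemma clip_cont : Continuous clip := by
  unfold clip
  fun_prop

lemma PP_nonneg (x : ℝ) : 0 ≤ PP x := by
  unfold PP
  nlinarith [sq_nonneg (clip x - 27 / 64)]

lemma PP_le_one (x : ℝ) : PP x ≤ 1 := by
  unfold PP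
  nlinarith [clip_nonneg x, clip_le x, mul_nonneg (clip_nonneg x) (sub_nonneg.mpr (clip_le x))]

lemma PP_eq {x : ℝ} (h0 : 0 ≤ x) (h1 : x ≤ 1 / 2) : PP x = 1 - 9 / 2 * x + 16 / 3 * x ^ 2 := by
  unfold PP
  rw [clip_eq h0 h1]

lemma PP_cont : Continuous PP := by
  unfold PP
  have := clip_cont
  fun_prop

lemma et_nonneg (ε x : ℝ) : 0 ≤ et ε x := sc_nonneg _ _ _

lemma et_le_one (ε x : ℝ) : et ε x ≤ 1 := sc_le_one _ _ _

lemma et_cont (ε : ℝ) : Continuous (et ε) := sc_cont _ _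

lemma et_zero {ε x : ℝ} (hε : 0 < ε) (hx : 1 / 2 - ε ≤ x) : et ε x = 0 :=
  sc_eq_zero hε (by linarith)

lemma pt_nonneg (ε x : ℝ) : 0 ≤ pt ε x := mul_nonneg (PP_nonneg x) (et_nonneg _ _)

lemma pt_le_one (ε x : ℝ) : pt ε x ≤ 1 := mul_le_one₀ (PP_le_one x) (et_nonneg _ _) (et_le_one _ _)

lemma pt_cont (ε : ℝ) : Continuous (pt ε) := PP_cont.mul (et_cont ε)

lemma pt_zero {ε x : ℝ} (hε : 0 < ε) (hx : 1 / 2 - ε ≤ x) : pt ε x = 0 := by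
  unfold pt
  rw [et_zero hε hx, mul_zero]

lemma GG_cont : Continuous (fun p : ℝ × ℝ => GG p.1 p.2) := by
  unfold GG
  fun_prop

lemma FF_cont : Continuous FF := by
  unfold FF
  fun_prop

lemma FF_bound {x : ℝ} (h0 : 0 ≤ x) (h1 : x ≤ 1 / 2) : |FF x| ≤ 1 := by
  unfold FF
  have h2 : 0 ≤ 1 / 2 - x := by linarith
  have h3 : 1 / 2 - x ≤ 1 := by linarith
  have a4 : (1 / 2 - x) ^ 4 ≤ 1 := pow_le_one₀ h2 h3
  have a5 : (1 / 2 - x) ^ 5 ≤ 1 := pow_le_one₀ h2 h3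
  have a6 : (1 / 2 - x) ^ 6 ≤ 1 := pow_le_one₀ h2 h3
  have b4 : 0 ≤ (1 / 2 - x) ^ 4 := by positivity
  have b5 : 0 ≤ (1 / 2 - x) ^ 5 := by positivity
  have b6 : 0 ≤ (1 / 2 - x) ^ 6 := by positivity
  rw [abs_le]
  constructor <;> linarith

end

end Pool.Agent.TH158.E8
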