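import Pool.Agent.TH158.E8.Defs
import Pool.Agent.H306R2.SM.Asm2

set_option autoImplicit false

/-!
Eighth moment lower bound, task MB2: the cross term of `C2`.
-/

namespace Pool.Agent.TH158.E8.MB2

open Finset Filter Topology MeasureTheory Complex
open Pool.Agent.H306R2 Pool.Agent.H306R2.SM Pool.Agent.H223.EM

noncomputable section

/-- polylogarithms are small -/
lemma polylog_small (C a : ℝ) (ha : 0 < a) (A : ℕ) :
    ∀ᶠ T : ℝ in atTop, C * (1 + Real.log T) ^ A ≤ T ^ a := by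
  have h := (isLittleO_log_rpow_atTop (r := a / (2 * (A + 1))) (by positivity)).bound
    (c := 1 / 2) (by norm_num)
  have h2 : ∀ᶠ T : ℝ in atTop, |C| ≤ T ^ (a / 2) :=
    (tendsto_rpow_atTop (by positivity)).eventually_ge_atTop _
  have h3 : ∀ᶠ T : ℝ in atTop, 2 ≤ T ^ (a / (2 * (A + 1))) :=
    (tendsto_rpow_atTop (by positivity)).eventually_ge_atTop _
  filter_upwards [h, h2, h3, eventually_gt_atTop 1] with T h h2 h3 hT
  have hL : 0 < Real.log T := Real.log_pos hT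
  have hT0 : 0 < T := by linarith
  rw [Real.norm_of_nonneg hL.le, Real.norm_of_nonneg (by positivity)] at h
  have h4 : 1 + Real.log T ≤ T ^ (a / (2 * (A + 1))) := by linarith
  calc C * (1 + Real.log T) ^ A ≤ |C| * (1 + Real.log T) ^ A :=
        mul_le_mul_of_nonneg_right (le_abs_self C) (by positivity)
    _ ≤ T ^ (a / 2) * (T ^ (a / (2 * (A + 1)))) ^ A :=
        mul_le_mul h2 (pow_le_pow_left₀ (by positivity) h4 _) (by positivity) (by positivity)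
    _ = T ^ (a / 2 + a / (2 * (A + 1)) * A) := by
        rw [← Real.rpow_natCast, ← Real.rpow_mul hT0.le, ← Real.rpow_add hT0]
    _ ≤ T ^ a := by
        apply Real.rpow_le_rpow_of_exponent_le hT.le
        have : a / (2 * (A + 1)) * A ≤ a / 2 := by
          rw [div_mul_eq_mul_div, div_le_div_iff₀ (by positivity) (by positivity)]
          nlinarith
        linarith

lemma harm_le {T : ℝ} (hT : 1 ≤ T) : ∑ l ∈ Icc 1 ⌊T⌋₊, 1 / (l : ℝ) ≤ 1 + Real.log T := by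
  have h := harmonic_le_one_add_log ⌊T⌋₊
  have h1 : (harmonic ⌊T⌋₊ : ℝ) = ∑ l ∈ Icc 1 ⌊T⌋₊, 1 / (l : ℝ) := by
    rw [harmonic_eq_sum_Icc]
    push_cast
    refine sum_congr rfl fun i _ => ?_
    rw [one_div]
  rw [← h1]
  refine h.trans ?_
  have h2 : (0:ℝ) < ⌊T⌋₊ := by
    have : 1 ≤ ⌊T⌋₊ := (Nat.one_le_floor_iff T).mpr hT
    exact_mod_cast this
  have := Real.log_le_log h2 (Nat.floor_le (by linarith))
  linarith

lemma sum_inv_sqrt (m : ℕ) : ∑ b ∈ Icc 1 m, 1 / Real.sqrt b ≤ 2 * Real.sqrt m := by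
  induction m with
  | zero => simp
  | succ m ih =>
    rw [Finset.sum_Icc_succ_top (by omega)]
    have h0 : (0:ℝ) ≤ m := Nat.cast_nonneg m
    have hs1 : 0 < Real.sqrt ((m:ℝ) + 1) := Real.sqrt_pos.2 (by linarith)
    have hs0 : 0 ≤ Real.sqrt (m:ℝ) := Real.sqrt_nonneg _
    have e1 : Real.sqrt ((m:ℝ) + 1) ^ 2 = m + 1 := Real.sq_sqrt (by linarith)
    have e0 : Real.sqrt (m:ℝ) ^ 2 = m := Real.sq_sqrt h0
    push_cast
    have hle : Real.sqrt (m:ℝ) ≤ Real.sqrt ((m:ℝ) + 1) := Real.sqrt_le_sqrt (by linarith)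
    have h1 : 1 / Real.sqrt ((m:ℝ) + 1) ≤ 2 * (Real.sqrt ((m:ℝ) + 1) - Real.sqrt (m:ℝ)) := by
      rw [div_le_iff₀ hs1]
      nlinarith
    linarith

lemma d2_nonneg (n : ℕ) : 0 ≤ d2 n := Nat.cast_nonneg _

lemma sum_d2 {Z : ℝ} (hZ : 1 ≤ Z) :
    ∑ n ∈ Icc 1 ⌊Z⌋₊, d2 n / Real.sqrt n ≤ 2 * Real.sqrt Z * (1 + Real.log Z) := by
  set N := ⌊Z⌋₊ with hN
  have hNZ : (N:ℝ) ≤ Z := Nat.floor_le (by linarith)
  have h1 : ∀ n ∈ Icc 1 N, d2 n / Real.sqrt n = ∑ a ∈ Icc 1 N, if a ∣ n then 1 / Real.sqrt n else 0 := by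
    intro n hn
    rw [← sum_filter, sum_const, nsmul_eq_mul, mul_one_div]
    congr 1
    unfold d2
    congr 2
    rw [mem_Icc] at hn
    ext a
    rw [Nat.mem_divisors, mem_filter, mem_Icc]
    constructor
    · rintro ⟨h, _⟩
      exact ⟨⟨Nat.pos_of_dvd_of_pos h (by omega), (Nat.le_of_dvd (by omega) h).trans hn.2⟩, h⟩
    · rintro ⟨_, h⟩
      exact ⟨h, by omega⟩
  rw [sum_congr rfl h1, sum_comm]
  have h2 : ∀ a ∈ Icc 1 N, (∑ n ∈ Icc 1 N, if a ∣ n then 1 / Real.sqrt n else 0) ≤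
      2 * Real.sqrt Z * (1 / (a:ℝ)) := by
    intro a ha
    rw [mem_Icc] at ha
    have ha0 : (0:ℝ) < a := by exact_mod_cast ha.1
    rw [← sum_filter]
    have e1 : (Icc 1 N).filter (fun n => a ∣ n) = (Icc 1 (N / a)).image (fun b => a * b) := by
      ext n
      rw [mem_filter, mem_Icc, mem_image]
      constructor
      · rintro ⟨⟨hn1, hn2⟩, b, rfl⟩
        refine ⟨b, ?_, rfl⟩
        rw [mem_Icc]
        refine ⟨Nat.pos_of_ne_zero (by rintro rfl; simp at hn1), ?_⟩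
        rw [Nat.le_div_iff_mul_le ha.1, mul_comm]
        exact hn2
      · rintro ⟨b, hb, rfl⟩
        rw [mem_Icc] at hb
        refine ⟨⟨Nat.mul_pos ha.1 hb.1, ?_⟩, dvd_mul_right _ _⟩
        rw [mul_comm]
        exact (Nat.le_div_iff_mul_le ha.1).1 hb.2
    rw [e1, sum_image (fun x _ y _ h => Nat.eq_of_mul_eq_mul_left ha.1 h)]
    have e2 : ∀ b ∈ Icc 1 (N / a), 1 / Real.sqrt ((a * b : ℕ) : ℝ) = 1 / Real.sqrt a * (1 / Real.sqrt b) := by
      intro b _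
      push_cast
      rw [Real.sqrt_mul ha0.le, one_div_mul_one_div]
    rw [sum_congr rfl e2, ← mul_sum]
    have hs : 0 < Real.sqrt (a:ℝ) := Real.sqrt_pos.2 ha0
    calc 1 / Real.sqrt a * ∑ b ∈ Icc 1 (N / a), 1 / Real.sqrt b
        ≤ 1 / Real.sqrt a * (2 * Real.sqrt ((N / a : ℕ) : ℝ)) :=
          mul_le_mul_of_nonneg_left (sum_inv_sqrt _) (by positivity)
      _ ≤ 1 / Real.sqrt a * (2 * Real.sqrt (Z / a)) := by
          refine mul_le_mul_of_nonneg_left ?_ (by positivity)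
          refine mul_le_mul_of_nonneg_left (Real.sqrt_le_sqrt ?_) (by norm_num)
          exact Nat.cast_div_le.trans (div_le_div_of_nonneg_right hNZ ha0.le)
      _ = 2 * Real.sqrt Z * (1 / (a:ℝ)) := by
          rw [Real.sqrt_div (by linarith)]
          have : Real.sqrt (a:ℝ) * Real.sqrt (a:ℝ) = a := Real.mul_self_sqrt ha0.le
          field_simp
          rw [sq, this]
  calc ∑ a ∈ Icc 1 N, (∑ n ∈ Icc 1 N, if a ∣ n then 1 / Real.sqrt n else 0)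
      ≤ ∑ a ∈ Icc 1 N, 2 * Real.sqrt Z * (1 / (a:ℝ)) := sum_le_sum h2
    _ = 2 * Real.sqrt Z * ∑ a ∈ Icc 1 N, 1 / (a:ℝ) := by rw [← mul_sum]
    _ ≤ 2 * Real.sqrt Z * (1 + Real.log Z) :=
        mul_le_mul_of_nonneg_left (harm_le hZ) (by positivity)

lemma Del_nonneg (p a : ℕ) (hp : 1 ≤ p) : 0 ≤ Del p a ∧ Del p a ≤ a + 1 := by
  unfold Del
  have hp1 : (1:ℝ) ≤ p := by exact_mod_cast hp
  have h1 : 1 / (p:ℝ) ≤ 1 := by
    rw [div_le_one (by linarith)]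
    exact hp1
  have h0 : 0 ≤ 1 / (p:ℝ) := by positivity
  have ha : (0:ℝ) ≤ a := Nat.cast_nonneg a
  constructor
  · have : 0 ≤ (a : ℝ) * (1 - 1 / (p : ℝ)) / (1 + 1 / (p : ℝ)) := by
      refine div_nonneg (mul_nonneg ha (by linarith)) (by linarith)
    linarith
  · have : (a : ℝ) * (1 - 1 / (p : ℝ)) / (1 + 1 / (p : ℝ)) ≤ a := by
      rw [div_le_iff₀ (by linarith)]
      nlinarith [mul_nonneg ha h0]
    linarith

lemma De_bound (h : ℕ) (h0 : h ≠ 0) : 0 ≤ De h ∧ De h ≤ d2 h := by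
  unfold De d2
  rw [Nat.card_divisors h0]
  unfold Finsupp.prod
  rw [Nat.support_factorization]
  constructor
  · refine prod_nonneg fun p hp => (Del_nonneg p _ ?_).1
    exact (Nat.prime_of_mem_primeFactors hp).one_lt.le
  · push_cast
    refine prod_le_prod (fun p hp => (Del_nonneg p _ ?_).1) (fun p hp => (Del_nonneg p _ ?_).2)
    · exact (Nat.prime_of_mem_primeFactors hp).one_lt.le
    · exact (Nat.prime_of_mem_primeFactors hp).one_lt.le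

lemma et_nonneg (ε x : ℝ) : 0 ≤ et ε x := sc_nonneg _ _ _

lemma et_le_one (ε x : ℝ) : et ε x ≤ 1 := sc_le_one _ _ _

lemma f2_abs (ε x y : ℝ) (hx0 : 0 ≤ x) (hx : x ≤ 1 / 2) : |f2 ε x y| ≤ 1 := by
  unfold f2
  rw [abs_mul, abs_mul, abs_of_nonneg (et_nonneg ε x), abs_of_nonneg (et_nonneg ε y)]
  have h1 : |FF x| ≤ 1 := FF_bound hx0 hx
  calc |FF x| * et ε x * et ε y ≤ 1 * 1 * 1 :=
        mul_le_mul (mul_le_mul h1 (et_le_one _ _) (et_nonneg _ _) (by norm_num)) (et_le_one _ _)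
          (et_nonneg _ _) (by norm_num)
    _ = 1 := by norm_num

lemma log_scale {ε T : ℝ} (hT : 1 < T) {h : ℕ} (h1 : 1 ≤ h) (h2 : h ≤ ⌊T ^ (1 / 2 - ε)⌋₊) :
    0 ≤ Real.log h / Real.log T ∧ Real.log h / Real.log T ≤ 1 / 2 - ε := by
  have hL : 0 < Real.log T := Real.log_pos hT
  have hT0 : 0 < T := by linarith
  have hh : (1:ℝ) ≤ h := by exact_mod_cast h1
  have hh2 : (h:ℝ) ≤ T ^ (1 / 2 - ε) := (Nat.le_floor_iff (by positivity)).1 h2
  refine ⟨div_nonneg (Real.log_nonneg hh) hL.le, ?_⟩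
  rw [div_le_iff₀ hL]
  have := Real.log_le_log (by linarith) hh2
  rwa [Real.log_rpow hT0] at this

lemma aa_sum {ε T : ℝ} (hε : 0 < ε) (hε1 : ε < 1 / 8) (hT : 1 < T) :
    ∑ n ∈ Icc 1 (NN ε T), |aa ε T n / Real.sqrt n| ≤ 2 * T ^ (1 / 4 : ℝ) * (1 + Real.log T) := by
  have hT0 : 0 < T := by linarith
  have hL : 0 < Real.log T := Real.log_pos hT
  have hZ : 1 ≤ T ^ (1 / 2 - ε) := Real.one_le_rpow hT.le (by linarith)
  have h1 : ∀ n ∈ Icc 1 (NN ε T), |aa ε T n / Real.sqrt n| ≤ d2 n / Real.sqrt n := by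
    intro n _
    rw [abs_div, abs_of_nonneg (Real.sqrt_nonneg _)]
    refine div_le_div_of_nonneg_right ?_ (Real.sqrt_nonneg _)
    unfold aa
    rw [abs_mul, abs_of_nonneg (d2_nonneg n), abs_of_nonneg (pt_nonneg _ _)]
    calc d2 n * pt ε (Real.log n / Real.log T) ≤ d2 n * 1 :=
          mul_le_mul_of_nonneg_left (pt_le_one _ _) (d2_nonneg n)
      _ = d2 n := mul_one _
  refine (sum_le_sum h1).trans ((sum_d2 hZ).trans ?_)
  have e1 : Real.sqrt (T ^ (1 / 2 - ε)) ≤ T ^ (1 / 4 : ℝ) := by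
    rw [Real.sqrt_eq_rpow, ← Real.rpow_mul hT0.le]
    exact Real.rpow_le_rpow_of_exponent_le hT.le (by linarith)
  have e2 : Real.log (T ^ (1 / 2 - ε)) ≤ Real.log T := by
    rw [Real.log_rpow hT0]
    nlinarith
  have e3 : 0 ≤ Real.log (T ^ (1 / 2 - ε)) := Real.log_nonneg hZ
  refine mul_le_mul (mul_le_mul_of_nonneg_left e1 (by norm_num)) (by linarith) (by linarith) (by positivity)

lemma De_sum {ε T : ℝ} (hε : 0 < ε) (hε1 : ε < 1 / 8) (hT : 1 < T) :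
    ∑ n ∈ Icc 1 ⌊T ^ (1 / 2 - ε)⌋₊, De n / Real.sqrt n ≤ 2 * T ^ (1 / 4 : ℝ) * (1 + Real.log T) := by
  have hT0 : 0 < T := by linarith
  have hL : 0 < Real.log T := Real.log_pos hT
  have hZ : 1 ≤ T ^ (1 / 2 - ε) := Real.one_le_rpow hT.le (by linarith)
  have h1 : ∀ n ∈ Icc 1 ⌊T ^ (1 / 2 - ε)⌋₊, De n / Real.sqrt n ≤ d2 n / Real.sqrt n := by
    intro n hn
    rw [mem_Icc] at hn
    exact div_le_div_of_nonneg_right (De_bound n (by omega)).2 (Real.sqrt_nonneg _)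
  refine (sum_le_sum h1).trans ((sum_d2 hZ).trans ?_)
  have e1 : Real.sqrt (T ^ (1 / 2 - ε)) ≤ T ^ (1 / 4 : ℝ) := by
    rw [Real.sqrt_eq_rpow, ← Real.rpow_mul hT0.le]
    exact Real.rpow_le_rpow_of_exponent_le hT.le (by linarith)
  have e2 : Real.log (T ^ (1 / 2 - ε)) ≤ Real.log T := by
    rw [Real.log_rpow hT0]
    nlinarith
  have e3 : 0 ≤ Real.log (T ^ (1 / 2 - ε)) := Real.log_nonneg hZ
  refine mul_le_mul (mul_le_mul_of_nonneg_left e1 (by norm_num)) (by linarith) (by linarith) (by positivity)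

lemma c2_sum {ε T : ℝ} (hε : 0 < ε) (hε1 : ε < 1 / 8) (hT : 1 < T) :
    ∑ b ∈ SS' ε T, |c2 ε T b| ≤ Real.log T ^ 4 * |kp| * (2 * T ^ (1 / 4 : ℝ) * (1 + Real.log T)) ^ 2 := by
  have hT0 : 0 < T := by linarith
  have hL : 0 < Real.log T := Real.log_pos hT
  set N := ⌊T ^ (1 / 2 - ε)⌋₊ with hN
  have h1 : ∀ b ∈ SS' ε T, |c2 ε T b| ≤ Real.log T ^ 4 * |kp| *
      ((De b.1 / Real.sqrt b.1) * (De b.2 / Real.sqrt b.2)) := by
    intro b hb
    unfold SS' at hb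
    rw [mem_filter, mem_product, mem_Icc, mem_Icc] at hb
    obtain ⟨⟨⟨hb1, hb2⟩, hb3, hb4⟩, -⟩ := hb
    have d1 := De_bound b.1 (by omega)
    have d2' := De_bound b.2 (by omega)
    have hs := log_scale (ε := ε) hT hb1 hb2
    have hf := f2_abs ε (Real.log b.1 / Real.log T) (Real.log b.2 / Real.log T) hs.1 (by linarith [hs.2])
    unfold c2
    rw [abs_div, abs_of_nonneg (Real.sqrt_nonneg _), Real.sqrt_mul (Nat.cast_nonneg _), abs_mul, abs_mul,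
      abs_mul, abs_mul, abs_of_nonneg (by positivity : (0:ℝ) ≤ Real.log T ^ 4), abs_of_nonneg d1.1,
      abs_of_nonneg d2'.1]
    have e1 : Real.log T ^ 4 * |kp| * ((De b.1 / Real.sqrt b.1) * (De b.2 / Real.sqrt b.2)) =
        (Real.log T ^ 4 * |kp| * De b.1 * De b.2 * 1) / (Real.sqrt b.1 * Real.sqrt b.2) := by
      rw [mul_one, div_mul_div_comm, mul_div_assoc']
      ring
    rw [e1]
    refine div_le_div_of_nonneg_right ?_ (by positivity)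
    refine mul_le_mul_of_nonneg_left hf ?_
    have := d1.1
    have := d2'.1
    positivity
  refine (sum_le_sum h1).trans ?_
  rw [← mul_sum]
  refine mul_le_mul_of_nonneg_left ?_ (by positivity)
  have h2 : ∑ b ∈ SS' ε T, (De b.1 / Real.sqrt b.1) * (De b.2 / Real.sqrt b.2) ≤
      ∑ b ∈ (Icc 1 N) ×ˢ (Icc 1 N), (De b.1 / Real.sqrt b.1) * (De b.2 / Real.sqrt b.2) := by
    refine sum_le_sum_of_subset_of_nonneg (filter_subset _ _) ?_
    intro b hb _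
    rw [mem_product, mem_Icc, mem_Icc] at hb
    exact mul_nonneg (div_nonneg (De_bound _ (by omega)).1 (Real.sqrt_nonneg _))
      (div_nonneg (De_bound _ (by omega)).1 (Real.sqrt_nonneg _))
  refine h2.trans ?_
  rw [sum_product]
  have h3 : ∑ x ∈ Icc 1 N, ∑ y ∈ Icc 1 N, (De (x, y).1 / Real.sqrt (x, y).1) * (De (x, y).2 / Real.sqrt (x, y).2) =
      (∑ x ∈ Icc 1 N, De x / Real.sqrt x) ^ 2 := by
    rw [sq, sum_mul_sum]
  rw [h3]
  refine pow_le_pow_left₀ ?_ (De_sum hε hε1 hT) 2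
  refine sum_nonneg fun n hn => ?_
  rw [mem_Icc] at hn
  exact div_nonneg (De_bound _ (by omega)).1 (Real.sqrt_nonneg _)

/-- arithmetic of the reduced fraction `l n / h` -/
lemma frac {h l n : ℕ} (hh : 1 ≤ h) (hl : 1 ≤ l) (hn : 1 ≤ n) (hc : Nat.Coprime h l) :
    1 ≤ l * (n / Nat.gcd h n) ∧ 1 ≤ h / Nat.gcd h n ∧
    Nat.Coprime (l * (n / Nat.gcd h n)) (h / Nat.gcd h n) ∧
    l * (n / Nat.gcd h n) ≤ l * n ∧ h / Nat.gcd h n ≤ h ∧
    (((l * (n / Nat.gcd h n) : ℕ) : ℝ) / ((h / Nat.gcd h n : ℕ) : ℝ) = (l : ℝ) * n / h) ∧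
    (h / Nat.gcd h n = 1 ↔ h ∣ n) ∧ (h ∣ n → n / Nat.gcd h n = n / h) := by
  have hg : 0 < Nat.gcd h n := Nat.gcd_pos_of_pos_left _ hh
  have hgh : Nat.gcd h n ∣ h := Nat.gcd_dvd_left _ _
  have hgn : Nat.gcd h n ∣ n := Nat.gcd_dvd_right _ _
  have hn1 : 1 ≤ n / Nat.gcd h n := Nat.div_pos (Nat.le_of_dvd hn hgn) hg
  have hh1 : 1 ≤ h / Nat.gcd h n := Nat.div_pos (Nat.le_of_dvd hh hgh) hg
  refine ⟨Nat.mul_pos hl hn1, hh1, ?_, ?_, Nat.div_le_self _ _, ?_, ?_, ?_⟩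
  · refine Nat.Coprime.mul_left ?_ ?_
    · exact (Nat.Coprime.coprime_dvd_left (Nat.div_dvd_of_dvd hgh) hc).symm
    · exact (Nat.coprime_div_gcd_div_gcd hg).symm
  · exact Nat.mul_le_mul_left _ (Nat.div_le_self _ _)
  · have hg0 : (Nat.gcd h n : ℝ) ≠ 0 := by exact_mod_cast hg.ne'
    have hh0 : (h : ℝ) ≠ 0 := by exact_mod_cast (by omega : h ≠ 0)
    rw [Nat.cast_mul, Nat.cast_div hgn hg0, Nat.cast_div hgh hg0]
    field_simp
  · constructor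
    · intro h1
      have : h = Nat.gcd h n := by
        have := Nat.div_mul_cancel hgh
        rw [h1, one_mul] at this
        exact this.symm
      exact Nat.gcd_eq_left_iff_dvd.1 this.symm
    · intro h1
      rw [Nat.gcd_eq_left h1]
      exact Nat.div_self hh
  · intro h1
    rw [Nat.gcd_eq_left h1]

/-- MB2. cross term of `C2` (from MB1; `Xf ζ = conj ζ`) -/
theorem cross2_eval
    (B2_part : ∀ (ε : ℝ), 0 < ε → ε < 1 →
      ∀ᶠ T : ℝ in atTop, ∀ k : ℕ, kr' T k →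
        ∀ P Q : ℕ, 1 ≤ P → 1 ≤ Q → Nat.Coprime P Q → (P : ℝ) ≤ T ^ (1 - ε) → (Q : ℝ) ≤ T →
          ‖(∫ t in Set.Ioi (0 : ℝ), (om k (k / T) t : ℂ) * riemannZeta (cl t) ^ 2 *
              ef (Real.log ((P : ℝ) / Q)) t) - (if Q = 1 then ((d2 P / Real.sqrt P : ℝ) : ℂ) else 0)‖ ≤
            T ^ (-1 : ℝ))
    (ε : ℝ) (hε : 0 < ε) (hε1 : ε < 1 / 8) : ∀ᶠ T : ℝ in atTop, ∀ k : ℕ, kr' T k →
    ‖(∫ t in Set.Ioi (0 : ℝ), (om k (k / T) t : ℂ) * (riemannZeta (cl t) ^ 2 * Xf (cl t) ^ 2) *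
        Ap ε T t * Cp (SS' ε T) (c2 ε T) t) -
      ((∑ b ∈ SS' ε T, c2 ε T b * ∑ n ∈ Icc 1 (NN ε T),
        if b.1 ∣ n then aa ε T n * d2 (b.2 * (n / b.1)) / Real.sqrt ((n : ℝ) * (b.2 * (n / b.1) : ℕ))
          else 0 : ℝ) : ℂ)‖ ≤ 1 := by
  filter_upwards [B2_part ε hε (by linarith), polylog_small (8 * |kp|) (1 / 4) (by norm_num) 7,
    eventually_gt_atTop (Real.exp 1)] with T hB hpl hT k hk
  have hT1 : 1 < T := lt_trans (by
    have := Real.add_one_le_exp (1:ℝ)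
    linarith) hT
  have hT0 : 0 < T := by linarith
  have hL1 : 1 < Real.log T := by
    rw [Real.lt_log_iff_exp_lt hT0]
    exact hT
  have hL : 0 < Real.log T := by linarith
  have hk1 : (1:ℝ) ≤ k := by
    refine le_trans ?_ hk.1
    nlinarith
  have hδ : 0 < (k:ℝ) / T := div_pos (by linarith) hT0
  set f : ℝ → ℂ := fun t => (starRingEnd ℂ) (riemannZeta (cl t)) ^ 2 with hf
  have hfPG : PG f := (PG.zeta.conj).pow 2
  -- the inner integrals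
  set J : ℕ × ℕ → ℕ → ℂ := fun b n => ∫ t in Set.Ioi (0 : ℝ), (om k (k / T) t : ℂ) * f t *
    ef (-(Real.log ((b.2 : ℝ) * n / b.1))) t with hJ
  have hint : (∫ t in Set.Ioi (0 : ℝ), (om k (k / T) t : ℂ) * (riemannZeta (cl t) ^ 2 * Xf (cl t) ^ 2) *
        Ap ε T t * Cp (SS' ε T) (c2 ε T) t) =
      ∑ b ∈ SS' ε T, (c2 ε T b : ℂ) * ∑ n ∈ Icc 1 (NN ε T), ((aa ε T n / Real.sqrt n : ℝ) : ℂ) * J b n := by
    have e1 : ∀ t, (om k (k / T) t : ℂ) * (riemannZeta (cl t) ^ 2 * Xf (cl t) ^ 2) *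
        Ap ε T t * Cp (SS' ε T) (c2 ε T) t = (om k (k / T) t : ℂ) *
        ((f t * DP (Icc 1 (NN ε T)) (fun n => aa ε T n / Real.sqrt n) (fun n => Real.log n) t) *
          ∑ b ∈ SS' ε T, (c2 ε T b : ℂ) * ef (Real.log ((b.1 : ℝ) / b.2)) t) := by
      intro t
      have e2 : riemannZeta (cl t) ^ 2 * Xf (cl t) ^ 2 = f t := by
        rw [hf]
        simp only
        rw [← Xf_fe t]
        ring
      rw [e2]
      unfold Ap Cp DP
      ring
    rw [integral_congr_ae (Eventually.of_forall fun t => e1 t)]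
    rw [int_sum k hδ (hfPG.mul (DP_PG _ _ _)) (SS' ε T) (c2 ε T) (fun b => Real.log ((b.1 : ℝ) / b.2))]
    refine sum_congr rfl fun b hb => ?_
    congr 1
    have h1 : ∫ t in Set.Ioi (0:ℝ), (om k (k / T) t : ℂ) * (f t *
        DP (Icc 1 (NN ε T)) (fun n => aa ε T n / Real.sqrt n) (fun n => Real.log n) t) *
        ef (Real.log ((b.1 : ℝ) / b.2)) t =
      ∫ t in Set.Ioi (0:ℝ), (om k (k / T) t : ℂ) * ((f t * ef (Real.log ((b.1 : ℝ) / b.2)) t) *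
        DP (Icc 1 (NN ε T)) (fun n => aa ε T n / Real.sqrt n) (fun n => Real.log n) t) := by
      refine integral_congr_ae (Eventually.of_forall fun t => ?_)
      simp only
      ring
    rw [h1, int_DP k hδ (hfPG.mul (PG.ef _))]
    refine sum_congr rfl fun n hn => ?_
    congr 1
    rw [hJ]
    refine integral_congr_ae (Eventually.of_forall fun t => ?_)
    simp only
    have e3 : -(Real.log ((b.2 : ℝ) * n / b.1)) = Real.log ((b.1 : ℝ) / b.2) + -(Real.log n) := by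
      unfold SS' at hb
      rw [mem_filter, mem_product, mem_Icc, mem_Icc] at hb
      rw [mem_Icc] at hn
      have g1 : (b.1 : ℝ) ≠ 0 := by
        have := hb.1.1.1
        exact_mod_cast (by omega : b.1 ≠ 0)
      have g2 : (b.2 : ℝ) ≠ 0 := by
        have := hb.1.2.1
        exact_mod_cast (by omega : b.2 ≠ 0)
      have g3 : (n : ℝ) ≠ 0 := by exact_mod_cast (by omega : n ≠ 0)
      rw [Real.log_div (mul_ne_zero g2 g3) g1, Real.log_mul g2 g3, Real.log_div g1 g2]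
      ring
    rw [e3, ← ef_mul]
    ring
  -- the values of the inner integrals
  have hJv : ∀ b ∈ SS' ε T, ∀ n ∈ Icc 1 (NN ε T),
      ‖J b n - (if b.1 ∣ n then ((d2 (b.2 * (n / b.1)) / Real.sqrt (b.2 * (n / b.1) : ℕ) : ℝ) : ℂ) else 0)‖ ≤
        T ^ (-1 : ℝ) := by
    intro b hb n hn
    unfold SS' at hb
    rw [mem_filter, mem_product, mem_Icc, mem_Icc] at hb
    obtain ⟨⟨⟨hb1, hb2⟩, hb3, hb4⟩, hcop⟩ := hb
    rw [mem_Icc] at hn
    obtain ⟨F1, F2, F3, F4, F5, F6, F7, F8⟩ := frac hb1 hb3 hn.1 hcop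
    have hZ : (0:ℝ) ≤ T ^ (1 / 2 - ε) := by positivity
    have q1 : (b.1 : ℝ) ≤ T ^ (1 / 2 - ε) := (Nat.le_floor_iff hZ).1 hb2
    have q2 : (b.2 : ℝ) ≤ T ^ (1 / 2 - ε) := (Nat.le_floor_iff hZ).1 hb4
    have q3 : (n : ℝ) ≤ T ^ (1 / 2 - ε) := (Nat.le_floor_iff hZ).1 hn.2
    have hP : ((b.2 * (n / Nat.gcd b.1 n) : ℕ) : ℝ) ≤ T ^ (1 - ε) := by
      calc ((b.2 * (n / Nat.gcd b.1 n) : ℕ) : ℝ) ≤ ((b.2 * n : ℕ) : ℝ) := by exact_mod_cast F4
        _ = (b.2 : ℝ) * n := by push_cast; ring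
        _ ≤ T ^ (1 / 2 - ε) * T ^ (1 / 2 - ε) := mul_le_mul q2 q3 (Nat.cast_nonneg _) hZ
        _ = T ^ ((1 / 2 - ε) + (1 / 2 - ε)) := by rw [Real.rpow_add hT0]
        _ ≤ T ^ (1 - ε) := Real.rpow_le_rpow_of_exponent_le hT1.le (by linarith)
    have hQ : ((b.1 / Nat.gcd b.1 n : ℕ) : ℝ) ≤ T := by
      calc ((b.1 / Nat.gcd b.1 n : ℕ) : ℝ) ≤ (b.1 : ℝ) := by exact_mod_cast F5
        _ ≤ T ^ (1 / 2 - ε) := q1
        _ ≤ T ^ (1 : ℝ) := Real.rpow_le_rpow_of_exponent_le hT1.le (by linarith)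
        _ = T := Real.rpow_one T
    have h1 := hB k hk _ _ F1 F2 F3 hP hQ
    rw [F6] at h1
    have hconj : J b n = (starRingEnd ℂ) (∫ t in Set.Ioi (0 : ℝ), (om k (k / T) t : ℂ) *
        riemannZeta (cl t) ^ 2 * ef (Real.log ((b.2 : ℝ) * n / b.1)) t) := by
      rw [hJ, ← integral_conj]
      refine integral_congr_ae (Eventually.of_forall fun t => ?_)
      simp only [map_mul, map_pow, Complex.conj_ofReal, ef_conj, hf]
    have hval : (if b.1 ∣ n then ((d2 (b.2 * (n / b.1)) / Real.sqrt (b.2 * (n / b.1) : ℕ) : ℝ) : ℂ) else 0) =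
        (starRingEnd ℂ) (if b.1 / Nat.gcd b.1 n = 1 then
          ((d2 (b.2 * (n / Nat.gcd b.1 n)) / Real.sqrt ((b.2 * (n / Nat.gcd b.1 n) : ℕ) : ℝ) : ℝ) : ℂ) else 0) := by
      by_cases hd : b.1 ∣ n
      · rw [if_pos hd, if_pos (F7.2 hd), Complex.conj_ofReal, F8 hd]
      · rw [if_neg hd, if_neg (fun h => hd (F7.1 h)), map_zero]
    rw [hconj, hval, ← map_sub, RCLike.norm_conj]
    exact h1
  -- conclusion
  have hmain : ((∑ b ∈ SS' ε T, c2 ε T b * ∑ n ∈ Icc 1 (NN ε T),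
        if b.1 ∣ n then aa ε T n * d2 (b.2 * (n / b.1)) / Real.sqrt ((n : ℝ) * (b.2 * (n / b.1) : ℕ))
          else 0 : ℝ) : ℂ) =
      ∑ b ∈ SS' ε T, (c2 ε T b : ℂ) * ∑ n ∈ Icc 1 (NN ε T), ((aa ε T n / Real.sqrt n : ℝ) : ℂ) *
        (if b.1 ∣ n then ((d2 (b.2 * (n / b.1)) / Real.sqrt (b.2 * (n / b.1) : ℕ) : ℝ) : ℂ) else 0) := by
    rw [Complex.ofReal_sum]
    refine sum_congr rfl fun b _ => ?_
    rw [Complex.ofReal_mul, Complex.ofReal_sum]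
    congr 1
    refine sum_congr rfl fun n _ => ?_
    split_ifs
    · rw [← Complex.ofReal_mul, Real.sqrt_mul (Nat.cast_nonneg _)]
      congr 1
      rw [div_mul_div_comm]
    · simp
  rw [hint, hmain, ← sum_sub_distrib]
  have hfin : ∀ b ∈ SS' ε T, ‖(c2 ε T b : ℂ) * ∑ n ∈ Icc 1 (NN ε T), ((aa ε T n / Real.sqrt n : ℝ) : ℂ) * J b n -
      (c2 ε T b : ℂ) * ∑ n ∈ Icc 1 (NN ε T), ((aa ε T n / Real.sqrt n : ℝ) : ℂ) *
        (if b.1 ∣ n then ((d2 (b.2 * (n / b.1)) / Real.sqrt (b.2 * (n / b.1) : ℕ) : ℝ) : ℂ) else 0)‖ ≤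
      |c2 ε T b| * ((∑ n ∈ Icc 1 (NN ε T), |aa ε T n / Real.sqrt n|) * T ^ (-1 : ℝ)) := by
    intro b hb
    rw [← mul_sub, norm_mul, Complex.norm_real, Real.norm_eq_abs]
    refine mul_le_mul_of_nonneg_left ?_ (abs_nonneg _)
    rw [← sum_sub_distrib, sum_mul]
    refine (norm_sum_le _ _).trans (sum_le_sum fun n hn => ?_)
    rw [← mul_sub, norm_mul, Complex.norm_real, Real.norm_eq_abs]
    exact mul_le_mul_of_nonneg_left (hJv b hb n hn) (abs_nonneg _)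
  refine (norm_sum_le _ _).trans ((sum_le_sum hfin).trans ?_)
  rw [← sum_mul]
  have hTi : 0 < T ^ (-1 : ℝ) := Real.rpow_pos_of_pos hT0 _
  have hT4 : 0 < T ^ (1 / 4 : ℝ) := Real.rpow_pos_of_pos hT0 _
  have e4 : (T ^ (1 / 4 : ℝ)) ^ 3 * T ^ (1 / 4 : ℝ) = T := by
    rw [← pow_succ, ← Real.rpow_natCast, ← Real.rpow_mul hT0.le]
    norm_num
  calc (∑ b ∈ SS' ε T, |c2 ε T b|) * ((∑ n ∈ Icc 1 (NN ε T), |aa ε T n / Real.sqrt n|) * T ^ (-1 : ℝ))
      ≤ (Real.log T ^ 4 * |kp| * (2 * T ^ (1 / 4 : ℝ) * (1 + Real.log T)) ^ 2) *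
          ((2 * T ^ (1 / 4 : ℝ) * (1 + Real.log T)) * T ^ (-1 : ℝ)) := by
        refine mul_le_mul (c2_sum hε hε1 hT1)
          (mul_le_mul_of_nonneg_right (aa_sum hε hε1 hT1) hTi.le) ?_ (by positivity)
        exact mul_nonneg (sum_nonneg fun _ _ => abs_nonneg _) hTi.le
    _ ≤ ((1 + Real.log T) ^ 4 * |kp| * (2 * T ^ (1 / 4 : ℝ) * (1 + Real.log T)) ^ 2) *
          ((2 * T ^ (1 / 4 : ℝ) * (1 + Real.log T)) * T ^ (-1 : ℝ)) := by
        refine mul_le_mul_of_nonneg_right ?_ (by positivity)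
        refine mul_le_mul_of_nonneg_right ?_ (by positivity)
        refine mul_le_mul_of_nonneg_right ?_ (abs_nonneg _)
        exact pow_le_pow_left₀ hL.le (by linarith) 4
    _ = ((8 * |kp|) * (1 + Real.log T) ^ 7) * ((T ^ (1 / 4 : ℝ)) ^ 3 * T ^ (-1 : ℝ)) := by ring
    _ ≤ T ^ (1 / 4 : ℝ) * ((T ^ (1 / 4 : ℝ)) ^ 3 * T ^ (-1 : ℝ)) :=
        mul_le_mul_of_nonneg_right hpl (by positivity)
    _ = ((T ^ (1 / 4 : ℝ)) ^ 3 * T ^ (1 / 4 : ℝ)) * T ^ (-1 : ℝ) := by ring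
    _ = 1 := by
        rw [e4, Real.rpow_neg_one, mul_inv_cancel₀ hT0.ne']

end

end Pool.Agent.TH158.E8.MB2
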