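import Pool.Agent.TH158.E8.MF1
import Pool.Agent.H768R2.SM_T2
import Pool.Agent.H768R2.SM_T2b
import Pool.Agent.H497R2.SM_T3
import Pool.Agent.H306R2.SM.Asm4

set_option autoImplicit false

/-!
Eighth moment lower bound: the norm of `B`.
-/

namespace Pool.Agent.TH158.E8.MB3

open Finset Filter Topology MeasureTheory Complex
open Pool.Agent.H306R2 Pool.Agent.H223.EM Pool.Agent.TH158.E8.MF1
open Pool.Agent.H306R2.SM (om Xf cl ef Yf)

noncomputable section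

/-- `|B|^2` expanded -/
lemma Bc_sq (ε T t : ℝ) : ‖Bc ε T t‖ ^ 2 =
    ‖Cp (SS' ε T) (c1 ε T) t‖ ^ 2 + ‖Cp (SS' ε T) (c2 ε T) t‖ ^ 2 +
      2 * ((starRingEnd ℂ) (Cp (SS' ε T) (c1 ε T) t) * (Xf (cl t) * Cp (SS' ε T) (c2 ε T) t)).re := by
  have hX : ‖Xf (cl t)‖ = 1 := Pool.Agent.H768R2.SM_T0c.Xf_line t
  set X := Xf (cl t)
  set C := Cp (SS' ε T) (c1 ε T) t
  set D := Cp (SS' ε T) (c2 ε T) t
  have e : Bc ε T t = X * (C + X * D) := by
    simp only [Bc]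
    ring
  rw [e, norm_mul, hX, one_mul, ← Complex.normSq_eq_norm_sq, Complex.normSq_add,
    Complex.normSq_eq_norm_sq, Complex.normSq_eq_norm_sq, norm_mul, hX, one_mul]
  congr 2
  have : (C * (starRingEnd ℂ) (X * D)).re = ((starRingEnd ℂ) (C * (starRingEnd ℂ) (X * D))).re := by
    rw [Complex.conj_re]
  rw [this, map_mul, Complex.conj_conj]

lemma ef_conj (θ t : ℝ) : (starRingEnd ℂ) (ef θ t) = ef (-θ) t := by
  unfold ef
  rw [← Complex.exp_conj]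
  congr 1
  simp

lemma ef_mul (θ θ' t : ℝ) : ef θ t * ef θ' t = ef (θ + θ') t := by
  unfold ef
  rw [← Complex.exp_add]
  congr 1
  push_cast
  ring

/-- the cross term -/
lemma cross_eq (ε T : ℝ) (k : ℕ) {δ : ℝ} (hδ : 0 < δ) :
    ∫ t in Set.Ioi (0 : ℝ), (om k δ t : ℂ) *
      ((starRingEnd ℂ) (Cp (SS' ε T) (c1 ε T) t) * (Xf (cl t) * Cp (SS' ε T) (c2 ε T) t)) =
    ∑ a ∈ SS' ε T, ∑ b ∈ SS' ε T, ((c1 ε T a * c2 ε T b : ℝ) : ℂ) *
      ∫ t in Set.Ioi (0 : ℝ), (om k δ t : ℂ) * Xf (cl t) ^ 1 *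
        ef (-(Real.log ((a.1 : ℝ) / a.2) - Real.log ((b.1 : ℝ) / b.2))) t := by
  have hi : ∀ a ∈ SS' ε T, ∀ b ∈ SS' ε T, IntegrableOn (fun t : ℝ =>
      ((c1 ε T a * c2 ε T b : ℝ) : ℂ) * ((om k δ t : ℂ) * Xf (cl t) ^ 1 *
        ef (-(Real.log ((a.1 : ℝ) / a.2) - Real.log ((b.1 : ℝ) / b.2))) t)) (Set.Ioi 0) := by
    intro a _ b _
    refine Integrable.const_mul ?_ _
    refine ((PG.X.pow 1).mul (PG.ef (-(Real.log ((a.1 : ℝ) / a.2) -
      Real.log ((b.1 : ℝ) / b.2))))).int k hδ |>.congr (Eventually.of_forall fun t => ?_)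
    simp only
    ring
  simp_rw [← integral_const_mul]
  rw [show (∑ a ∈ SS' ε T, ∑ b ∈ SS' ε T, ∫ t in Set.Ioi (0 : ℝ),
      ((c1 ε T a * c2 ε T b : ℝ) : ℂ) * ((om k δ t : ℂ) * Xf (cl t) ^ 1 *
        ef (-(Real.log ((a.1 : ℝ) / a.2) - Real.log ((b.1 : ℝ) / b.2))) t)) =
      ∑ a ∈ SS' ε T, ∫ t in Set.Ioi (0 : ℝ), ∑ b ∈ SS' ε T,
      ((c1 ε T a * c2 ε T b : ℝ) : ℂ) * ((om k δ t : ℂ) * Xf (cl t) ^ 1 *
        ef (-(Real.log ((a.1 : ℝ) / a.2) - Real.log ((b.1 : ℝ) / b.2))) t) from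
    sum_congr rfl fun a ha => (integral_finsetSum _ fun b hb => hi a ha b hb).symm]
  rw [← integral_finsetSum _ fun a ha => integrable_finsetSum _ fun b hb => hi a ha b hb]
  refine integral_congr_ae (Eventually.of_forall fun t => ?_)
  simp only [Cp]
  rw [map_sum, sum_mul, mul_sum]
  refine sum_congr rfl fun a _ => ?_
  rw [mul_sum, mul_sum, mul_sum]
  refine sum_congr rfl fun b _ => ?_
  rw [map_mul, Complex.conj_ofReal, ef_conj]
  have : ef (-(Real.log ((a.1 : ℝ) / a.2) - Real.log ((b.1 : ℝ) / b.2))) t =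
      ef (-Real.log ((a.1 : ℝ) / a.2)) t * ef (Real.log ((b.1 : ℝ) / b.2)) t := by
    rw [ef_mul]; congr 1; ring
  rw [this]
  push_cast
  ring

/-- diagonal bound -/
lemma diag_le {ε T : ℝ} (hT : 1 < T) (c : ℕ × ℕ → ℝ) (k : ℕ) (hδ : 0 < (k : ℝ) / T)
    (hsp : ((k / T) / (1 / (2 * T ^ (1 - 2 * ε)))) ^ (k + 1) ≤ T ^ (-5 : ℝ)) :
    ∫ t in Set.Ioi (0 : ℝ), om k (k / T) t * ‖Cp (SS' ε T) c t‖ ^ 2 ≤
      (∑ b ∈ SS' ε T, c b ^ 2) + (∑ b ∈ SS' ε T, |c b|) ^ 2 * T ^ (-5 : ℝ) := by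
  have hT0 : 0 < T := by linarith
  have hG : 0 < 1 / (2 * T ^ (1 - 2 * ε)) := by positivity
  have hpr : ∀ a ∈ SS' ε T, (a.1 : ℝ) * a.2 ≤ T ^ (1 - 2 * ε) := by
    intro a ha
    have A := SS_adm hT0 a ha
    obtain ⟨A1, A2, A3, A4, A5⟩ := A
    calc (a.1 : ℝ) * a.2 ≤ T ^ (1 / 2 - ε) * T ^ (1 / 2 - ε) :=
          mul_le_mul A4 A5 (by positivity) (by positivity)
      _ = T ^ (1 - 2 * ε) := by rw [← Real.rpow_add hT0]; congr 1; ring
  have hsep : ∀ a ∈ SS' ε T, ∀ b ∈ SS' ε T, a ≠ b →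
      1 / (2 * T ^ (1 - 2 * ε)) ≤
        |(-Real.log ((a.1 : ℝ) / a.2)) - (-Real.log ((b.1 : ℝ) / b.2))| := by
    intro a ha b hb hab
    obtain ⟨A1, A2, A3, A4, A5⟩ := SS_adm hT0 a ha
    obtain ⟨B1, B2, B3, B4, B5⟩ := SS_adm hT0 b hb
    have := Pool.Agent.H768R2.SM_T2b.rat_sep (T ^ (1 - 2 * ε)) a.1 a.2 b.1 b.2 A1 A2 B1 B2 A3 B3
      (by simpa using hab) (hpr a ha) (hpr b hb)
    rw [show (-Real.log ((a.1 : ℝ) / a.2)) - (-Real.log ((b.1 : ℝ) / b.2)) =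
      -(Real.log ((a.1 : ℝ) / a.2) - Real.log ((b.1 : ℝ) / b.2)) by ring, abs_neg]
    exact this
  have h := Pool.Agent.H768R2.SM_T2.norm_diag (SS' ε T) (fun b => ((c b : ℝ) : ℂ))
    (fun b => -Real.log ((b.1 : ℝ) / b.2)) (1 / (2 * T ^ (1 - 2 * ε))) hG hsep k (k / T) hδ
  have h' := (abs_le.mp h).2
  have hnn : 0 ≤ (∑ i ∈ SS' ε T, ‖((c i : ℝ) : ℂ)‖) ^ 2 := by positivity
  have h'' := mul_le_mul_of_nonneg_left hsp hnn
  simp only [Complex.norm_real, Real.norm_eq_abs, sq_abs, neg_neg] at h' h''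
  unfold Cp
  linarith

/-- number of elements of the index set -/
lemma card_le {ε T : ℝ} (hT : 1 < T) (hε : 0 < ε) : ((SS' ε T).card : ℝ) ≤ T := by
  have hT0 : 0 < T := by linarith
  have h1 : (SS' ε T).card ≤ ⌊T ^ (1 / 2 - ε)⌋₊ * ⌊T ^ (1 / 2 - ε)⌋₊ := by
    unfold SS'
    refine (card_filter_le _ _).trans ?_
    rw [card_product, Nat.card_Icc]
    simp
  have h2 : ((⌊T ^ (1 / 2 - ε)⌋₊ : ℕ) : ℝ) ≤ T ^ (1 / 2 - ε) := Nat.floor_le (by positivity)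
  calc ((SS' ε T).card : ℝ) ≤ ((⌊T ^ (1 / 2 - ε)⌋₊ * ⌊T ^ (1 / 2 - ε)⌋₊ : ℕ) : ℝ) := by
        exact_mod_cast h1
    _ ≤ T ^ (1 / 2 - ε) * T ^ (1 / 2 - ε) := by
        push_cast
        exact mul_le_mul h2 h2 (by positivity) (by positivity)
    _ = T ^ (1 - 2 * ε) := by rw [← Real.rpow_add hT0]; congr 1; ring
    _ ≤ T ^ (1 : ℝ) := Real.rpow_le_rpow_of_exponent_le hT.le (by linarith)
    _ = T := Real.rpow_one T

lemma sum_abs_sq {ε T : ℝ} (hT : 1 < T) (hε : 0 < ε) (c : ℕ × ℕ → ℝ)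
    (h : ∑ b ∈ SS' ε T, c b ^ 2 ≤ T) : (∑ b ∈ SS' ε T, |c b|) ^ 2 ≤ T ^ 2 := by
  have h1 := sq_sum_le_card_mul_sum_sq (s := SS' ε T) (f := fun b => |c b|)
  simp only [sq_abs] at h1
  have h2 := card_le (ε := ε) hT hε
  calc (∑ b ∈ SS' ε T, |c b|) ^ 2 ≤ ((SS' ε T).card : ℝ) * ∑ b ∈ SS' ε T, c b ^ 2 := h1
    _ ≤ T * T := mul_le_mul h2 h (sum_nonneg fun _ _ => sq_nonneg _) (by linarith)
    _ = T ^ 2 := by ring

/-- polynomial growth from the asymptotics -/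
lemma small_of {f : ℝ → ℝ} {c : ℝ} (h : Tendsto (fun T : ℝ => f T / Real.log T ^ 16) atTop (𝓝 c)) :
    ∀ᶠ T : ℝ in atTop, f T ≤ T := by
  have h1 := h.eventually_lt_const (lt_add_one c)
  have h2 := polylog_small (|c| + 1) 1 one_pos 16
  filter_upwards [h1, h2, eventually_gt_atTop 1] with T h1 h2 hT
  have hL : 0 < Real.log T := Real.log_pos hT
  rw [div_lt_iff₀ (by positivity)] at h1
  rw [Real.rpow_one] at h2
  refine h1.le.trans (le_trans ?_ h2)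
  have h3 : Real.log T ^ 16 ≤ (1 + Real.log T) ^ 16 :=
    pow_le_pow_left₀ hL.le (by linarith) 16
  calc (c + 1) * Real.log T ^ 16 ≤ (|c| + 1) * Real.log T ^ 16 :=
        mul_le_mul_of_nonneg_right (by linarith [le_abs_self c]) (by positivity)
    _ ≤ _ := mul_le_mul_of_nonneg_left h3 (by positivity)

theorem B_norm_of (hS1 : S_MS1) (hS2 : S_MS2) : S_MB3 := by
  intro ε hε hε1
  have hsp := Pool.Agent.H306R2.SM.small_pow (2 * ε) (by positivity)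
  have o1 := Pool.Agent.H497R2.SMT3.osc ε hε (by linarith) 1 le_rfl (by norm_num)
  filter_upwards [hsp, o1, small_of (hS1 ε hε hε1), small_of (hS2 ε hε hε1),
    eventually_gt_atTop (Real.exp 1), eventually_gt_atTop 2] with T hsp o1 hs1 hs2 hTe hT2 k hk
  have hT : 1 < T := by linarith
  have hT0 : 0 < T := by linarith
  obtain ⟨hk1, hδ⟩ := kr_pos hTe hk
  have hsp := hsp k hk
  have o1 := o1 k hk.1 hk.2
  have d1 := diag_le (ε := ε) hT (c1 ε T) k hδ hsp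
  have d2 := diag_le (ε := ε) hT (c2 ε T) k hδ hsp
  have a1 := sum_abs_sq hT hε (c1 ε T) hs1
  have a2 := sum_abs_sq hT hε (c2 ε T) hs2
  set A1 := ∑ b ∈ SS' ε T, |c1 ε T b| with hA1
  set A2 := ∑ b ∈ SS' ε T, |c2 ε T b| with hA2
  have hA1n : 0 ≤ A1 := sum_nonneg fun _ _ => abs_nonneg _
  have hA2n : 0 ≤ A2 := sum_nonneg fun _ _ => abs_nonneg _
  have hA1T : A1 ≤ T := by nlinarith
  have hA2T : A2 ≤ T := by nlinarith
  -- the cross term
  have hc : ‖∫ t in Set.Ioi (0 : ℝ), (om k (k / T) t : ℂ) *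
      ((starRingEnd ℂ) (Cp (SS' ε T) (c1 ε T) t) * (Xf (cl t) * Cp (SS' ε T) (c2 ε T) t))‖ ≤
      A1 * A2 * T ^ (-5 : ℝ) := by
    rw [cross_eq ε T k hδ]
    calc ‖∑ a ∈ SS' ε T, ∑ b ∈ SS' ε T, ((c1 ε T a * c2 ε T b : ℝ) : ℂ) *
          ∫ t in Set.Ioi (0 : ℝ), (om k (k / T) t : ℂ) * Xf (cl t) ^ 1 *
            ef (-(Real.log ((a.1 : ℝ) / a.2) - Real.log ((b.1 : ℝ) / b.2))) t‖ ≤
        ∑ a ∈ SS' ε T, ∑ b ∈ SS' ε T, |c1 ε T a| * |c2 ε T b| * T ^ (-5 : ℝ) := by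
          refine (norm_sum_le _ _).trans (sum_le_sum fun a ha => ?_)
          refine (norm_sum_le _ _).trans (sum_le_sum fun b hb => ?_)
          rw [norm_mul, Complex.norm_real, Real.norm_eq_abs, abs_mul]
          refine mul_le_mul_of_nonneg_left ?_ (by positivity)
          obtain ⟨p1, p2, p3, p4, p5⟩ := SS_adm hT0 a ha
          obtain ⟨q1, q2, q3, q4, q5⟩ := SS_adm hT0 b hb
          have p10 : (0:ℝ) < a.1 := by exact_mod_cast p1
          have p20 : (0:ℝ) < a.2 := by exact_mod_cast p2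
          have q10 : (0:ℝ) < b.1 := by exact_mod_cast q1
          have q20 : (0:ℝ) < b.2 := by exact_mod_cast q2
          have p21 : (1:ℝ) ≤ a.2 := by exact_mod_cast p2
          have q11 : (1:ℝ) ≤ b.1 := by exact_mod_cast q1
          have := o1 (((a.1 : ℝ) / a.2) / ((b.1 : ℝ) / b.2)) (by positivity) (by
            calc ((a.1 : ℝ) / a.2) / ((b.1 : ℝ) / b.2) = ((a.1 : ℝ) * b.2) / (a.2 * b.1) := by
                  field_simp
              _ ≤ ((a.1 : ℝ) * b.2) / 1 := by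
                  apply div_le_div_of_nonneg_left (by positivity) one_pos
                  nlinarith
              _ ≤ T ^ (1 / 2 - ε) * T ^ (1 / 2 - ε) := by
                  rw [div_one]
                  exact mul_le_mul p4 q5 (by positivity) (by positivity)
              _ = T ^ (1 - 2 * ε) := by rw [← Real.rpow_add hT0]; congr 1; ring
              _ ≤ T ^ (((1 : ℕ) : ℝ) - ε) :=
                  Real.rpow_le_rpow_of_exponent_le hT.le (by push_cast; linarith))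
          rw [Real.log_div (by positivity) (by positivity)] at this
          exact this
      _ = A1 * A2 * T ^ (-5 : ℝ) := by
          rw [hA1, hA2, sum_mul_sum, sum_mul]
          refine sum_congr rfl fun a _ => ?_
          rw [sum_mul]
  -- integrability
  have i1 : IntegrableOn (fun t : ℝ => om k (k / T) t * ‖Cp (SS' ε T) (c1 ε T) t‖ ^ 2)
      (Set.Ioi 0) := by
    have := ((PG_Cp (SS' ε T) (c1 ε T)).pow 2).int k hδ
    refine (this.norm.congr ?_)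
    refine (ae_restrict_iff' measurableSet_Ioi).mpr (Eventually.of_forall fun t ht => ?_)
    have ht0 : (0:ℝ) ≤ t := le_of_lt ht
    simp only
    rw [norm_mul, Complex.norm_real, Real.norm_of_nonneg (Pool.Agent.TH158.E8.MF1.om_nonneg k hδ ht0),
      norm_pow]
  have i2 : IntegrableOn (fun t : ℝ => om k (k / T) t * ‖Cp (SS' ε T) (c2 ε T) t‖ ^ 2)
      (Set.Ioi 0) := by
    have := ((PG_Cp (SS' ε T) (c2 ε T)).pow 2).int k hδ
    refine (this.norm.congr ?_)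
    refine (ae_restrict_iff' measurableSet_Ioi).mpr (Eventually.of_forall fun t ht => ?_)
    have ht0 : (0:ℝ) ≤ t := le_of_lt ht
    simp only
    rw [norm_mul, Complex.norm_real, Real.norm_of_nonneg (Pool.Agent.TH158.E8.MF1.om_nonneg k hδ ht0),
      norm_pow]
  have hconj : PG (fun t => (starRingEnd ℂ) (Cp (SS' ε T) (c1 ε T) t)) := by
    obtain ⟨hc, C, A, hC, hA⟩ := PG_Cp (SS' ε T) (c1 ε T)
    refine ⟨Complex.continuous_conj.comp hc, C, A, hC, fun t ht => ?_⟩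
    rw [Complex.norm_conj]
    exact hA t ht
  have i3 : IntegrableOn (fun t : ℝ => (om k (k / T) t : ℂ) *
      ((starRingEnd ℂ) (Cp (SS' ε T) (c1 ε T) t) * (Xf (cl t) * Cp (SS' ε T) (c2 ε T) t)))
      (Set.Ioi 0) :=
    (hconj.mul (PG.X.mul (PG_Cp (SS' ε T) (c2 ε T)))).int k hδ
  have i3r := i3.re
  have e3 : ∫ t in Set.Ioi (0 : ℝ), ((om k (k / T) t : ℂ) *
      ((starRingEnd ℂ) (Cp (SS' ε T) (c1 ε T) t) * (Xf (cl t) * Cp (SS' ε T) (c2 ε T) t))).re =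
      (∫ t in Set.Ioi (0 : ℝ), (om k (k / T) t : ℂ) *
      ((starRingEnd ℂ) (Cp (SS' ε T) (c1 ε T) t) * (Xf (cl t) * Cp (SS' ε T) (c2 ε T) t))).re :=
    integral_re i3
  have eB : ∫ t in Set.Ioi (0 : ℝ), om k (k / T) t * ‖Bc ε T t‖ ^ 2 =
      (∫ t in Set.Ioi (0 : ℝ), om k (k / T) t * ‖Cp (SS' ε T) (c1 ε T) t‖ ^ 2) +
      (∫ t in Set.Ioi (0 : ℝ), om k (k / T) t * ‖Cp (SS' ε T) (c2 ε T) t‖ ^ 2) +
      2 * ∫ t in Set.Ioi (0 : ℝ), ((om k (k / T) t : ℂ) *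
      ((starRingEnd ℂ) (Cp (SS' ε T) (c1 ε T) t) * (Xf (cl t) * Cp (SS' ε T) (c2 ε T) t))).re := by
    have i12 : IntegrableOn (fun t : ℝ => om k (k / T) t * ‖Cp (SS' ε T) (c1 ε T) t‖ ^ 2 +
        om k (k / T) t * ‖Cp (SS' ε T) (c2 ε T) t‖ ^ 2) (Set.Ioi 0) := i1.add i2
    have i3' : IntegrableOn (fun t : ℝ => 2 * ((om k (k / T) t : ℂ) *
        ((starRingEnd ℂ) (Cp (SS' ε T) (c1 ε T) t) * (Xf (cl t) * Cp (SS' ε T) (c2 ε T) t))).re)
        (Set.Ioi 0) := i3r.const_mul 2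
    rw [← integral_const_mul, ← integral_add i1 i2, ← integral_add i12 i3']
    refine integral_congr_ae (Eventually.of_forall fun t => ?_)
    simp only
    rw [Bc_sq, Complex.re_ofReal_mul]
    ring
  rw [eB, e3]
  have hre := (Complex.re_le_norm (∫ t in Set.Ioi (0 : ℝ), (om k (k / T) t : ℂ) *
      ((starRingEnd ℂ) (Cp (SS' ε T) (c1 ε T) t) * (Xf (cl t) * Cp (SS' ε T) (c2 ε T) t)))).trans hc
  have hT5 : T ^ (-5 : ℝ) ≤ 1 / (4 * T ^ 2) := by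
    rw [show (-5 : ℝ) = -((5 : ℕ) : ℝ) by norm_num, Real.rpow_neg hT0.le, Real.rpow_natCast,
      ← one_div]
    apply one_div_le_one_div_of_le (by positivity)
    have : 4 ≤ T ^ 3 := by
      have := pow_le_pow_left₀ (by norm_num : (0:ℝ) ≤ 2) hT2.le 3
      linarith
    calc 4 * T ^ 2 ≤ T ^ 3 * T ^ 2 := mul_le_mul_of_nonneg_right this (by positivity)
      _ = T ^ 5 := by ring
  have hT50 : 0 ≤ T ^ (-5 : ℝ) := by positivity
  have hfin : A1 ^ 2 * T ^ (-5 : ℝ) + A2 ^ 2 * T ^ (-5 : ℝ) + 2 * (A1 * A2 * T ^ (-5 : ℝ)) ≤ 1 := by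
    have h1 : A1 ^ 2 * T ^ (-5 : ℝ) + A2 ^ 2 * T ^ (-5 : ℝ) + 2 * (A1 * A2 * T ^ (-5 : ℝ)) =
        (A1 + A2) ^ 2 * T ^ (-5 : ℝ) := by ring
    rw [h1]
    calc (A1 + A2) ^ 2 * T ^ (-5 : ℝ) ≤ (T + T) ^ 2 * (1 / (4 * T ^ 2)) :=
          mul_le_mul (pow_le_pow_left₀ (by positivity) (by linarith) 2) hT5 hT50 (by positivity)
      _ = 1 := by field_simp; ring
  linarith

end

end Pool.Agent.TH158.E8.MB3
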