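import Pool.Agent.TH158.E8.Defs
import Pool.Agent.H768R2.SM_T0c
import Pool.Agent.H306R2.ZetaGrowth

set_option autoImplicit false

/-!
Eighth moment lower bound, task MF1: the smoothed moment, from the statements of
TW, MS1, MS2, MS3, MS4, MS5, MB2, MB3 and MH.
-/

namespace Pool.Agent.TH158.E8.MF1

open Finset Filter Topology MeasureTheory Complex
open Pool.Agent.H306R2 Pool.Agent.H306R2.SM Pool.Agent.H223.EM

noncomputable section

/-! ### statements used -/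

/-- T11 -/
def S_TW : Prop := ∀ (ε : ℝ), 0 < ε → ε < 1 / 4 → ∃ e : ℝ, 0 < e ∧ ∀ᶠ T : ℝ in atTop,
    ∀ k : ℕ, kr' T k → ∀ N : ℕ, (N : ℝ) ≤ T ^ (1 / 2 - ε) →
    ∀ a : ℕ → ℝ, (∀ n, |a n| ≤ d2 n) → ∀ S : Finset (ℕ × ℕ), (∀ b ∈ S, Adm ε T b) →
    ∀ c : ℕ × ℕ → ℝ,
    ‖(∫ t in Set.Ioi (0 : ℝ), (om k (k / T) t : ℂ) * (riemannZeta (cl t) ^ 2 * Xf (cl t)) *
        (∑ n ∈ Icc 1 N, ((a n / Real.sqrt n : ℝ) : ℂ) * ef (-(Real.log n)) t) *
        (∑ b ∈ S, (c b : ℂ) * ef (Real.log ((b.1 : ℝ) / b.2)) t)) -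
      ((∑ b ∈ S, c b * ∑ n ∈ Icc 1 N, a n / Real.sqrt n * Mt k (Yf k T) b.1 b.2 n : ℝ) : ℂ)‖ ≤
    T ^ (-e) * (1 + ∫ t in Set.Ioi (0 : ℝ), om k (k / T) t * ‖riemannZeta (cl t)‖ ^ 8) *
      (1 + ∑ b ∈ S, c b ^ 2)

/-- MS1 -/
def S_MS1 : Prop := ∀ (ε : ℝ), 0 < ε → ε < 1 / 8 →
    Tendsto (fun T : ℝ => (∑ b ∈ SS' ε T, c1 ε T b ^ 2) / Real.log T ^ 16) atTop
      (𝓝 (aF 4 * IW1n ε))

/-- MS2 -/
def S_MS2 : Prop := ∀ (ε : ℝ), 0 < ε → ε < 1 / 8 →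
    Tendsto (fun T : ℝ => (∑ b ∈ SS' ε T, c2 ε T b ^ 2) / Real.log T ^ 16) atTop
      (𝓝 (aF 4 * IW2n ε))

/-- MS3 -/
def S_MS3 : Prop := ∀ (ε : ℝ), 0 < ε → ε < 1 / 8 → ∀ (c : ℝ), c < aF 4 * IW1c ε →
    ∀ᶠ T : ℝ in atTop, ∀ k : ℕ, kr' T k → c * Real.log T ^ 16 ≤
      ∑ b ∈ SS' ε T, c1 ε T b * ∑ n ∈ Icc 1 (NN ε T), aa ε T n / Real.sqrt n *
        Mt k (Yf k T) b.1 b.2 n

/-- MS4 -/
def S_MS4 : Prop := ∀ (ε : ℝ), 0 < ε → ε < 1 / 8 →
    Tendsto (fun T : ℝ => (∑ b ∈ SS' ε T, c2 ε T b * ∑ n ∈ Icc 1 (NN ε T),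
        if b.1 ∣ n then aa ε T n * d2 (b.2 * (n / b.1)) / Real.sqrt ((n : ℝ) * (b.2 * (n / b.1) : ℕ))
          else 0) / Real.log T ^ 16) atTop
      (𝓝 (aF 4 * IW2c ε))

/-- MS5 -/
def S_MS5 : Prop := ∀ (ε : ℝ), 0 < ε → ε < 1 / 8 → ∀ (c : ℝ), aF 4 * IN ε < c →
    ∀ᶠ T : ℝ in atTop, ∀ k : ℕ, kr' T k →
      ∫ t in Set.Ioi (0 : ℝ), om k (k / T) t * ‖Ap ε T t‖ ^ 4 ≤ c * Real.log T ^ 16

/-- MB2 -/
def S_MB2 : Prop := ∀ (ε : ℝ), 0 < ε → ε < 1 / 8 → ∀ᶠ T : ℝ in atTop, ∀ k : ℕ, kr' T k →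
    ‖(∫ t in Set.Ioi (0 : ℝ), (om k (k / T) t : ℂ) * (riemannZeta (cl t) ^ 2 * Xf (cl t) ^ 2) *
        Ap ε T t * Cp (SS' ε T) (c2 ε T) t) -
      ((∑ b ∈ SS' ε T, c2 ε T b * ∑ n ∈ Icc 1 (NN ε T),
        if b.1 ∣ n then aa ε T n * d2 (b.2 * (n / b.1)) / Real.sqrt ((n : ℝ) * (b.2 * (n / b.1) : ℕ))
          else 0 : ℝ) : ℂ)‖ ≤ 1

/-- MB3 -/
def S_MB3 : Prop := ∀ (ε : ℝ), 0 < ε → ε < 1 / 8 → ∀ᶠ T : ℝ in atTop, ∀ k : ℕ, kr' T k →
    ∫ t in Set.Ioi (0 : ℝ), om k (k / T) t * ‖Bc ε T t‖ ^ 2 ≤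
      (∑ b ∈ SS' ε T, c1 ε T b ^ 2) + (∑ b ∈ SS' ε T, c2 ε T b ^ 2) + 1

/-- MH -/
def S_MH : Prop := ∀ (ε : ℝ) (T : ℝ), 1 < T → ∀ (k : ℕ), 1 ≤ k →
    ‖∫ t in Set.Ioi (0 : ℝ), (om k (k / T) t : ℂ) * riemannZeta (cl t) ^ 2 * Ap ε T t * Bc ε T t‖ ^ 4 ≤
      M8 k T * (∫ t in Set.Ioi (0 : ℝ), om k (k / T) t * ‖Ap ε T t‖ ^ 4) *
        (∫ t in Set.Ioi (0 : ℝ), om k (k / T) t * ‖Bc ε T t‖ ^ 2) ^ 2

/-! ### integrability (copied from the sixth moment project, `H306R2/SM/Asm1`) -/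

lemma om_nonneg (k : ℕ) {δ t : ℝ} (hδ : 0 < δ) (ht : 0 ≤ t) : 0 ≤ om k δ t := by
  unfold om; positivity

lemma om_cont (k : ℕ) (δ : ℝ) : Continuous (om k δ) := by
  unfold om; fun_prop

lemma om_poly (k A : ℕ) {δ : ℝ} (hδ : 0 < δ) :
    IntegrableOn (fun t : ℝ => om k δ t * (1 + t) ^ A) (Set.Ioi 0) := by
  have h1 : ∀ j : ℕ, IntegrableOn (fun t : ℝ => t ^ (k + j) * Real.exp (-(δ * t))) (Set.Ioi 0) := by
    intro j
    have := Real.GammaIntegral_convergent (s := (k + j : ℕ) + 1) (by positivity)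
    have h2 := (integrableOn_Ioi_comp_mul_left_iff (fun x : ℝ => Real.exp (-x) * x ^ (((k + j : ℕ):ℝ) + 1 - 1)) 0 hδ).mpr
      (by simpa using this)
    have h3 : IntegrableOn (fun x => (δ ^ (k + j))⁻¹ *
        (Real.exp (-(δ * x)) * (δ * x) ^ (((k + j : ℕ) : ℝ) + 1 - 1))) (Set.Ioi 0) :=
      h2.const_mul ((δ ^ (k + j))⁻¹)
    refine h3.congr_fun (fun t ht => ?_) measurableSet_Ioi
    have ht0 : 0 < t := ht
    simp only [add_sub_cancel_right]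
    rw [Real.rpow_natCast, mul_pow]
    field_simp
  have h4 : (fun t : ℝ => om k δ t * (1 + t) ^ A) = fun t : ℝ =>
      ∑ j ∈ range (A + 1), (δ ^ (k + 1) / (k.factorial : ℝ) * (A.choose j : ℝ)) *
        (t ^ (k + j) * Real.exp (-(δ * t))) := by
    funext t
    rw [add_comm 1 t, add_pow, mul_sum]
    refine sum_congr rfl fun j _ => ?_
    unfold om
    rw [pow_add]
    ring
  rw [h4]
  exact integrable_finsetSum _ fun j _ => (h1 j).const_mul _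

lemma om_int (k : ℕ) {δ : ℝ} (hδ : 0 < δ) {f : ℝ → ℂ} (hf : Continuous f)
    (hb : ∃ C : ℝ, ∃ A : ℕ, ∀ t : ℝ, 0 ≤ t → ‖f t‖ ≤ C * (1 + t) ^ A) :
    IntegrableOn (fun t : ℝ => (om k δ t : ℂ) * f t) (Set.Ioi 0) := by
  obtain ⟨C, A, h⟩ := hb
  refine Integrable.mono' ((om_poly k A hδ).const_mul C) ?_ ?_
  · exact ((continuous_ofReal.comp (om_cont k δ)).mul hf).aestronglyMeasurable
  · refine (ae_restrict_iff' measurableSet_Ioi).mpr (Eventually.of_forall fun t ht => ?_)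
    have ht0 : (0:ℝ) ≤ t := le_of_lt ht
    rw [norm_mul, Complex.norm_real, Real.norm_of_nonneg (om_nonneg k hδ ht0)]
    calc om k δ t * ‖f t‖ ≤ om k δ t * (C * (1 + t) ^ A) :=
          mul_le_mul_of_nonneg_left (h t ht0) (om_nonneg k hδ ht0)
      _ = C * (om k δ t * (1 + t) ^ A) := by ring

lemma ef_norm (θ t : ℝ) : ‖ef θ t‖ = 1 := by
  unfold ef
  rw [Complex.norm_exp_ofReal_mul_I]

lemma ef_cont (θ : ℝ) : Continuous (ef θ) := by
  unfold ef; fun_prop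

/-- polynomial boundedness class -/
def PG (f : ℝ → ℂ) : Prop := Continuous f ∧ ∃ C : ℝ, ∃ A : ℕ, 0 ≤ C ∧ ∀ t : ℝ, 0 ≤ t → ‖f t‖ ≤ C * (1 + t) ^ A

lemma PG.mul {f g : ℝ → ℂ} (hf : PG f) (hg : PG g) : PG (fun t => f t * g t) := by
  obtain ⟨hfc, C, A, hC, hA⟩ := hf
  obtain ⟨hgc, D, B, hD, hB⟩ := hg
  refine ⟨hfc.mul hgc, C * D, A + B, mul_nonneg hC hD, fun t ht => ?_⟩
  rw [norm_mul, pow_add]
  calc ‖f t‖ * ‖g t‖ ≤ (C * (1 + t) ^ A) * (D * (1 + t) ^ B) :=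
        mul_le_mul (hA t ht) (hB t ht) (norm_nonneg _) (by positivity)
    _ = _ := by ring

lemma PG.add {f g : ℝ → ℂ} (hf : PG f) (hg : PG g) : PG (fun t => f t + g t) := by
  obtain ⟨hfc, C, A, hC, hA⟩ := hf
  obtain ⟨hgc, D, B, hD, hB⟩ := hg
  refine ⟨hfc.add hgc, C + D, A + B, add_nonneg hC hD, fun t ht => ?_⟩
  have h1 : (1:ℝ) ≤ 1 + t := by linarith
  have e1 : (1 + t) ^ A ≤ (1 + t) ^ (A + B) := pow_le_pow_right₀ h1 (Nat.le_add_right _ _)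
  have e2 : (1 + t) ^ B ≤ (1 + t) ^ (A + B) := pow_le_pow_right₀ h1 (Nat.le_add_left _ _)
  calc ‖f t + g t‖ ≤ ‖f t‖ + ‖g t‖ := norm_add_le _ _
    _ ≤ C * (1 + t) ^ (A + B) + D * (1 + t) ^ (A + B) :=
        add_le_add ((hA t ht).trans (mul_le_mul_of_nonneg_left e1 hC))
          ((hB t ht).trans (mul_le_mul_of_nonneg_left e2 hD))
    _ = _ := by ring

lemma PG.const (c : ℂ) : PG (fun _ => c) :=
  ⟨continuous_const, ‖c‖, 0, norm_nonneg _, fun t _ => by simp⟩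

lemma PG.ef (θ : ℝ) : PG (ef θ) :=
  ⟨ef_cont θ, 1, 0, zero_le_one, fun t _ => by simp [ef_norm]⟩

lemma PG.X : PG (fun t => Xf (cl t)) :=
  ⟨Pool.Agent.H768R2.SM_T0c.Xf_continuous, 1, 0, zero_le_one,
    fun t _ => by simp [Pool.Agent.H768R2.SM_T0c.Xf_line]⟩

lemma PG.pow {f : ℝ → ℂ} (hf : PG f) (n : ℕ) : PG (fun t => f t ^ n) := by
  induction n with
  | zero => simpa using PG.const 1
  | succ n ih => simpa [pow_succ] using ih.mul hf

lemma PG.sum {ι : Type} (s : Finset ι) {f : ι → ℝ → ℂ} (hf : ∀ i ∈ s, PG (f i)) :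
    PG (fun t => ∑ i ∈ s, f i t) := by
  classical
  induction s using Finset.induction_on with
  | empty => simpa using PG.const 0
  | insert a s ha ih =>
    have := (hf a (mem_insert_self _ _)).add (ih fun i hi => hf i (mem_insert_of_mem hi))
    refine cast (congrArg PG ?_) this
    funext t
    rw [sum_insert ha]

lemma zeta_cont : Continuous (fun t : ℝ => riemannZeta (cl t)) := by
  rw [continuous_iff_continuousAt]
  intro t
  have hcl : Continuous cl := by unfold cl; fun_prop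
  have h1 : cl t ≠ 1 := by
    intro h
    have := congrArg Complex.re h
    simp [cl] at this
  have h2 := (differentiableAt_riemannZeta h1).continuousAt
  exact ContinuousAt.comp (f := cl) h2 hcl.continuousAt

lemma zeta_cl_bound (t : ℝ) (_ht : 0 ≤ t) : ‖riemannZeta (cl t)‖ ≤ 24 * (1 + t) ^ 2 := by
  have h := zeta_norm_le (s := cl t) (by simp [cl]) (by
    have h1 : |(cl t - 1).re| ≤ ‖cl t - 1‖ := Complex.abs_re_le_norm _
    have h2 : |(cl t - 1).re| = 1 / 2 := by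
      simp only [cl, Complex.sub_re, Complex.add_re, Complex.mul_re, Complex.ofReal_re,
        Complex.I_re, mul_zero, Complex.ofReal_im, Complex.I_im, mul_one, sub_self, add_zero,
        Complex.one_re]
      norm_num
    linarith)
  have h3 : ‖cl t‖ ≤ 1 / 2 + t := by
    unfold cl
    refine (norm_add_le _ _).trans ?_
    rw [norm_mul, Complex.norm_real, Complex.norm_I, mul_one, Real.norm_of_nonneg _ht]
    norm_num
  refine h.trans ?_
  have h4 : (‖cl t‖ + 1) ^ 2 ≤ (2 * (1 + t)) ^ 2 := by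
    apply pow_le_pow_left₀ (by positivity)
    linarith
  nlinarith

lemma PG.zeta : PG (fun t => riemannZeta (cl t)) :=
  ⟨zeta_cont, 24, 2, by norm_num, fun t ht => zeta_cl_bound t ht⟩

lemma PG.int {f : ℝ → ℂ} (hf : PG f) (k : ℕ) {δ : ℝ} (hδ : 0 < δ) :
    IntegrableOn (fun t : ℝ => (om k δ t : ℂ) * f t) (Set.Ioi 0) := by
  obtain ⟨hfc, C, A, hC, hA⟩ := hf
  exact om_int k hδ hfc ⟨C, A, hA⟩

/-- polylogarithms are small -/
lemma polylog_small (C a : ℝ) (ha : 0 < a) (A : ℕ) :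
    ∀ᶠ T : ℝ in atTop, C * (1 + Real.log T) ^ A ≤ T ^ a := by
  have h := (isLittleO_log_rpow_atTop (r := a / (2 * (A + 1))) (by positivity)).bound
    (c := 1 / 2) (by norm_num)
  have h2 : ∀ᶠ T : ℝ in atTop, |C| ≤ T ^ (a / 2) :=
    (tendsto_rpow_atTop (by positivity)).eventually_ge_atTop _
  have h3 : ∀ᶠ T : ℝ in atTop, 2 ≤ T ^ (a / (2 * (A + 1))) :=
    (tendsto_rpow_atTop (by positivity)).eventually_ge_atTop _
  filter_upwards [h, h2, h3, eventually_gt_atTop 1] with T h h2 h3 hT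
  have hL : 0 < Real.log T := Real.log_pos hT
  have hT0 : 0 < T := by linarith
  rw [Real.norm_of_nonneg hL.le, Real.norm_of_nonneg (by positivity)] at h
  have h4 : 1 + Real.log T ≤ T ^ (a / (2 * (A + 1))) := by linarith
  calc C * (1 + Real.log T) ^ A ≤ |C| * (1 + Real.log T) ^ A :=
        mul_le_mul_of_nonneg_right (le_abs_self C) (by positivity)
    _ ≤ T ^ (a / 2) * (T ^ (a / (2 * (A + 1)))) ^ A :=
        mul_le_mul h2 (pow_le_pow_left₀ (by positivity) h4 _) (by positivity) (by positivity)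
    _ = T ^ (a / 2 + a / (2 * (A + 1)) * A) := by
        rw [← Real.rpow_natCast, ← Real.rpow_mul hT0.le, ← Real.rpow_add hT0]
    _ ≤ T ^ a := by
        apply Real.rpow_le_rpow_of_exponent_le hT.le
        have : a / (2 * (A + 1)) * A ≤ a / 2 := by
          rw [div_mul_eq_mul_div, div_le_div_iff₀ (by positivity) (by positivity)]
          nlinarith
        linarith

lemma PG_Ap (ε T : ℝ) : PG (Ap ε T) :=
  PG.sum _ fun _ _ => (PG.const _).mul (PG.ef _)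

lemma PG_Cp (S : Finset (ℕ × ℕ)) (c : ℕ × ℕ → ℝ) : PG (Cp S c) :=
  PG.sum _ fun _ _ => (PG.const _).mul (PG.ef _)

lemma kr_pos {T : ℝ} (hT : Real.exp 1 < T) {k : ℕ} (hk : kr' T k) : 1 ≤ k ∧ 0 < (k:ℝ) / T := by
  have h1 : 1 < Real.log T := by
    rw [Real.lt_log_iff_exp_lt (by linarith [Real.exp_pos 1])]; exact hT
  have h2 : (1:ℝ) < k := by nlinarith [hk.1]
  have hT0 : 0 < T := lt_trans (Real.exp_pos 1) hT
  refine ⟨by exact_mod_cast h2.le, by positivity⟩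

/-- the integral splits into the two cross terms -/
lemma split_int (ε T : ℝ) (k : ℕ) {δ : ℝ} (hδ : 0 < δ) :
    ∫ t in Set.Ioi (0 : ℝ), (om k δ t : ℂ) * riemannZeta (cl t) ^ 2 * Ap ε T t * Bc ε T t =
      (∫ t in Set.Ioi (0 : ℝ), (om k δ t : ℂ) * (riemannZeta (cl t) ^ 2 * Xf (cl t)) *
        Ap ε T t * Cp (SS' ε T) (c1 ε T) t) +
      ∫ t in Set.Ioi (0 : ℝ), (om k δ t : ℂ) * (riemannZeta (cl t) ^ 2 * Xf (cl t) ^ 2) *
        Ap ε T t * Cp (SS' ε T) (c2 ε T) t := by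
  have i1 : IntegrableOn (fun t : ℝ => (om k δ t : ℂ) * (riemannZeta (cl t) ^ 2 * Xf (cl t)) *
        Ap ε T t * Cp (SS' ε T) (c1 ε T) t) (Set.Ioi 0) := by
    refine ((((PG.zeta.pow 2).mul PG.X).mul (PG_Ap ε T)).mul
      (PG_Cp (SS' ε T) (c1 ε T))).int k hδ |>.congr (Eventually.of_forall fun t => ?_)
    simp only
    ring
  have i2 : IntegrableOn (fun t : ℝ => (om k δ t : ℂ) * (riemannZeta (cl t) ^ 2 * Xf (cl t) ^ 2) *
        Ap ε T t * Cp (SS' ε T) (c2 ε T) t) (Set.Ioi 0) := by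
    refine ((((PG.zeta.pow 2).mul (PG.X.pow 2)).mul (PG_Ap ε T)).mul
      (PG_Cp (SS' ε T) (c2 ε T))).int k hδ |>.congr (Eventually.of_forall fun t => ?_)
    simp only
    ring
  rw [← integral_add i1 i2]
  refine integral_congr_ae (Eventually.of_forall fun t => ?_)
  simp only [Bc]
  ring

lemma aa_le (ε T : ℝ) (n : ℕ) : |aa ε T n| ≤ d2 n := by
  unfold aa
  have h0 : (0 : ℝ) ≤ d2 n := by unfold d2; positivity
  rw [abs_mul, abs_of_nonneg h0, abs_of_nonneg (pt_nonneg _ _)]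
  exact mul_le_of_le_one_right h0 (pt_le_one _ _)

lemma SS_adm {ε T : ℝ} (hT : 0 < T) : ∀ b ∈ SS' ε T, Adm ε T b := by
  intro b hb
  unfold SS' at hb
  rw [mem_filter, mem_product, mem_Icc, mem_Icc] at hb
  obtain ⟨⟨⟨h1, h2⟩, h3, h4⟩, h5⟩ := hb
  exact ⟨h1, h3, h5, (Nat.le_floor_iff (by positivity)).1 h2, (Nat.le_floor_iff (by positivity)).1 h4⟩

/-- MF1, from the inputs -/
theorem main_lower_of (hTW : S_TW) (hS1 : S_MS1) (hS2 : S_MS2) (hS3 : S_MS3) (hS4 : S_MS4)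
    (hS5 : S_MS5) (hB2 : S_MB2) (hB3 : S_MB3) (hH : S_MH)
    (ε : ℝ) (hε : 0 < ε) (hε1 : ε < 1 / 8) (w1c w2c w1n w2n n4 : ℝ)
    (h1 : 0 ≤ w1c + w2c) (hw1c : w1c < aF 4 * IW1c ε) (hw2c : w2c < aF 4 * IW2c ε)
    (hw1n : aF 4 * IW1n ε < w1n) (hw2n : aF 4 * IW2n ε < w2n) (hn : aF 4 * IN ε < n4) :
    ∀ᶠ T : ℝ in atTop, ∀ k : ℕ, kr' T k →
      (w1c + w2c) ^ 4 / (n4 * (w1n + w2n) ^ 2) * Real.log T ^ 16 ≤ M8 k T := by
  obtain ⟨e, he, hTW'⟩ := hTW ε hε (by linarith)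
  obtain ⟨u1, hu1, hu1'⟩ := exists_between hw1c
  obtain ⟨v1, hv1, hv1'⟩ := exists_between hw1n
  set K := (w1c + w2c) ^ 4 / (n4 * (w1n + w2n) ^ 2) with hK
  have q1 := (hS1 ε hε hε1).eventually_lt_const hv1
  have q2 := (hS2 ε hε hε1).eventually_lt_const hw2n
  have q3 := hS3 ε hε hε1 u1 hu1'
  have q4 := (hS4 ε hε hε1).eventually_const_lt hw2c
  have q5 := hS5 ε hε hε1 n4 hn
  have q6 := hB2 ε hε hε1
  have q7 := hB3 ε hε hε1
  have q8 := polylog_small (2 * (1 + |v1|)) (e / 2) (by positivity) 16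
  have q9 := polylog_small |K| (e / 2) (by positivity) 16
  have q10 : ∀ᶠ T : ℝ in atTop, 1 / (w1n - v1) ≤ Real.log T :=
    Real.tendsto_log_atTop.eventually_ge_atTop _
  have q11 : ∀ᶠ T : ℝ in atTop, 2 / (u1 - w1c) ≤ Real.log T :=
    Real.tendsto_log_atTop.eventually_ge_atTop _
  filter_upwards [hTW', q1, q2, q3, q4, q5, q6, q7, q8, q9, q10, q11,
    eventually_gt_atTop (Real.exp 1)] with T hTW' q1 q2 q3 q4 q5 q6 q7 q8 q9 q10 q11 hTe k hk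
  obtain ⟨hk1, hδ⟩ := kr_pos hTe hk
  have hT0 : 0 < T := lt_trans (Real.exp_pos 1) hTe
  have hT1 : 1 < T := lt_of_le_of_lt (Real.one_le_exp zero_le_one) hTe
  have hL1 : 1 < Real.log T := by
    rw [Real.lt_log_iff_exp_lt hT0]; exact hTe
  set L := Real.log T with hLdef
  have hL0 : 0 < L := by linarith
  have hL16 : 0 < L ^ 16 := by positivity
  have hLL : L ≤ L ^ 16 := le_self_pow₀ hL1.le (by norm_num)
  have hM0 : 0 ≤ M8 k T := by
    unfold M8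
    refine setIntegral_nonneg measurableSet_Ioi fun t ht => ?_
    exact mul_nonneg (om_nonneg k hδ (le_of_lt ht)) (by positivity)
  by_cases hbig : T ^ (e / 2) ≤ M8 k T
  · -- the moment is huge
    refine le_trans ?_ hbig
    refine le_trans ?_ q9
    calc K * L ^ 16 ≤ |K| * L ^ 16 := mul_le_mul_of_nonneg_right (le_abs_self K) hL16.le
      _ ≤ |K| * (1 + L) ^ 16 := by
          refine mul_le_mul_of_nonneg_left ?_ (abs_nonneg _)
          exact pow_le_pow_left₀ hL0.le (by linarith) _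
  · push Not at hbig
    have q3 := q3 k hk
    have q5 := q5 k hk
    have q6 := q6 k hk
    have q7 := q7 k hk
    have hN : ((NN ε T : ℕ) : ℝ) ≤ T ^ (1 / 2 - ε) := Nat.floor_le (by positivity)
    have hcr := hTW' k hk (NN ε T) hN (aa ε T) (aa_le ε T) (SS' ε T) (SS_adm hT0) (c1 ε T)
    set S1 := ∑ b ∈ SS' ε T, c1 ε T b ^ 2 with hS1def
    set S2 := ∑ b ∈ SS' ε T, c2 ε T b ^ 2 with hS2def
    have hS1n : 0 ≤ S1 := sum_nonneg fun b _ => sq_nonneg _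
    have hS2n : 0 ≤ S2 := sum_nonneg fun b _ => sq_nonneg _
    rw [div_lt_iff₀ hL16] at q1 q2
    rw [lt_div_iff₀ hL16] at q4
    set S3 := ∑ b ∈ SS' ε T, c1 ε T b * ∑ n ∈ Icc 1 (NN ε T), aa ε T n / Real.sqrt n *
        Mt k (Yf k T) b.1 b.2 n with hS3def
    set S4 := ∑ b ∈ SS' ε T, c2 ε T b * ∑ n ∈ Icc 1 (NN ε T),
        (if b.1 ∣ n then aa ε T n * d2 (b.2 * (n / b.1)) /
          Real.sqrt ((n : ℝ) * (b.2 * (n / b.1) : ℕ)) else 0) with hS4def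
    set X1 := ∫ t in Set.Ioi (0 : ℝ), (om k (k / T) t : ℂ) * (riemannZeta (cl t) ^ 2 * Xf (cl t)) *
        Ap ε T t * Cp (SS' ε T) (c1 ε T) t with hX1
    set X2 := ∫ t in Set.Ioi (0 : ℝ), (om k (k / T) t : ℂ) *
        (riemannZeta (cl t) ^ 2 * Xf (cl t) ^ 2) * Ap ε T t * Cp (SS' ε T) (c2 ε T) t with hX2
    have hcr' : ‖X1 - (S3 : ℂ)‖ ≤ T ^ (-e) * (1 + M8 k T) * (1 + S1) := hcr
    have hsplit := split_int ε T k hδ
    rw [← hX1, ← hX2] at hsplit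
    -- the error term
    have herr : T ^ (-e) * (1 + M8 k T) * (1 + S1) ≤ 1 := by
      have a1 : 1 ≤ T ^ (e / 2) := Real.one_le_rpow hT1.le (by positivity)
      have a2 : 1 + M8 k T ≤ 2 * T ^ (e / 2) := by linarith
      have a3 : 1 + S1 ≤ (1 + |v1|) * (1 + L) ^ 16 := by
        have b1 : v1 * L ^ 16 ≤ |v1| * (1 + L) ^ 16 := by
          calc v1 * L ^ 16 ≤ |v1| * L ^ 16 := mul_le_mul_of_nonneg_right (le_abs_self _) hL16.le
            _ ≤ |v1| * (1 + L) ^ 16 :=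
              mul_le_mul_of_nonneg_left (pow_le_pow_left₀ hL0.le (by linarith) _) (abs_nonneg _)
        have b2 : 1 ≤ (1 + L) ^ 16 := one_le_pow₀ (by linarith)
        calc 1 + S1 ≤ (1 + L) ^ 16 + |v1| * (1 + L) ^ 16 := by linarith
          _ = (1 + |v1|) * (1 + L) ^ 16 := by ring
      have a4 : T ^ (-e) * T ^ (e / 2) * T ^ (e / 2) = 1 := by
        rw [← Real.rpow_add hT0, ← Real.rpow_add hT0]
        ring_nf
        exact Real.rpow_zero T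
      calc T ^ (-e) * (1 + M8 k T) * (1 + S1)
          ≤ T ^ (-e) * (2 * T ^ (e / 2)) * ((1 + |v1|) * (1 + L) ^ 16) := by gcongr
        _ = T ^ (-e) * T ^ (e / 2) * (2 * (1 + |v1|) * (1 + L) ^ 16) := by ring
        _ ≤ T ^ (-e) * T ^ (e / 2) * T ^ (e / 2) :=
            mul_le_mul_of_nonneg_left q8 (by positivity)
        _ = 1 := a4
    -- lower bound of the integral
    have hX : (w1c + w2c) * L ^ 16 ≤ ‖X1 + X2‖ := by
      have b1 : ‖X1 + X2 - ((S3 + S4 : ℝ) : ℂ)‖ ≤ 2 := by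
        have : X1 + X2 - ((S3 + S4 : ℝ) : ℂ) = (X1 - (S3 : ℂ)) + (X2 - (S4 : ℂ)) := by
          push_cast
          ring
        rw [this]
        refine (norm_add_le _ _).trans ?_
        have := hcr'.trans herr
        linarith
      have b2 : |S3 + S4| ≤ ‖X1 + X2‖ + 2 := by
        have b3 : ‖((S3 + S4 : ℝ) : ℂ)‖ ≤ ‖X1 + X2‖ + ‖X1 + X2 - ((S3 + S4 : ℝ) : ℂ)‖ := by
          have := norm_sub_norm_le ((S3 + S4 : ℝ) : ℂ) (X1 + X2)
          rw [norm_sub_rev] at this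
          linarith
        rw [Complex.norm_real, Real.norm_eq_abs] at b3
        linarith
      have b4 : 2 ≤ (u1 - w1c) * L ^ 16 := by
        rw [div_le_iff₀ (by linarith)] at q11
        have : (u1 - w1c) * L ≤ (u1 - w1c) * L ^ 16 :=
          mul_le_mul_of_nonneg_left hLL (by linarith)
        linarith
      have b5 := le_abs_self (S3 + S4)
      have b6 : (u1 - w1c) * L ^ 16 = u1 * L ^ 16 - w1c * L ^ 16 := by ring
      have b7 : (w1c + w2c) * L ^ 16 = w1c * L ^ 16 + w2c * L ^ 16 := by ring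
      rw [b7]
      linarith
    -- upper bound of the norm of `B`
    have hB : (∫ t in Set.Ioi (0 : ℝ), om k (k / T) t * ‖Bc ε T t‖ ^ 2) ≤ (w1n + w2n) * L ^ 16 := by
      have b4 : 1 ≤ (w1n - v1) * L ^ 16 := by
        rw [div_le_iff₀ (by linarith)] at q10
        have : (w1n - v1) * L ≤ (w1n - v1) * L ^ 16 :=
          mul_le_mul_of_nonneg_left hLL (by linarith)
        linarith
      have b6 : (w1n - v1) * L ^ 16 = w1n * L ^ 16 - v1 * L ^ 16 := by ring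
      have b7 : (w1n + w2n) * L ^ 16 = w1n * L ^ 16 + w2n * L ^ 16 := by ring
      rw [b7]
      linarith
    have hB0 : 0 ≤ ∫ t in Set.Ioi (0 : ℝ), om k (k / T) t * ‖Bc ε T t‖ ^ 2 := by
      refine setIntegral_nonneg measurableSet_Ioi fun t ht => ?_
      exact mul_nonneg (om_nonneg k hδ (le_of_lt ht)) (by positivity)
    have hA0 : 0 ≤ ∫ t in Set.Ioi (0 : ℝ), om k (k / T) t * ‖Ap ε T t‖ ^ 4 := by
      refine setIntegral_nonneg measurableSet_Ioi fun t ht => ?_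
      exact mul_nonneg (om_nonneg k hδ (le_of_lt ht)) (by positivity)
    have hHo := hH ε T hT1 k hk1
    rw [hsplit] at hHo
    have hn4 : 0 ≤ n4 := by
      by_contra hneg
      push Not at hneg
      have : n4 * L ^ 16 < 0 := mul_neg_of_neg_of_pos hneg hL16
      linarith
    have hw : 0 ≤ w1n + w2n := by
      by_contra hneg
      push Not at hneg
      have : (w1n + w2n) * L ^ 16 < 0 := mul_neg_of_neg_of_pos hneg hL16
      linarith
    have hmain : ((w1c + w2c) * L ^ 16) ^ 4 ≤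
        M8 k T * (n4 * L ^ 16) * ((w1n + w2n) * L ^ 16) ^ 2 := by
      calc ((w1c + w2c) * L ^ 16) ^ 4 ≤ ‖X1 + X2‖ ^ 4 :=
            pow_le_pow_left₀ (mul_nonneg h1 hL16.le) hX 4
        _ ≤ _ := hHo
        _ ≤ M8 k T * (n4 * L ^ 16) * ((w1n + w2n) * L ^ 16) ^ 2 := by
            gcongr
    rcases eq_or_lt_of_le (mul_nonneg hn4 (sq_nonneg (w1n + w2n))) with h0 | h0
    · rw [hK, ← h0, div_zero, zero_mul]
      exact hM0
    · rw [hK, div_mul_eq_mul_div, div_le_iff₀ h0]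
      have h48 : 0 < L ^ 48 := by positivity
      have : ((w1c + w2c) ^ 4 * L ^ 16) * L ^ 48 ≤ (M8 k T * (n4 * (w1n + w2n) ^ 2)) * L ^ 48 := by
        calc ((w1c + w2c) ^ 4 * L ^ 16) * L ^ 48 = ((w1c + w2c) * L ^ 16) ^ 4 := by ring
          _ ≤ _ := hmain
          _ = _ := by ring
      exact le_of_mul_le_mul_right this h48

end

end Pool.Agent.TH158.E8.MF1
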