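import Mathlib

set_option autoImplicit false

/-! Integrals of polynomials in Horner form. -/

namespace Pool.Agent.TH158.E8

noncomputable section

/-- Horner evaluation -/
def ev : List ℝ → ℝ → ℝ
  | [], _ => 0
  | a :: l, x => a + x * ev l x

/-- integral of the Horner form -/
def iv : List ℝ → ℝ → ℝ → ℝ → ℝ
  | [], _, _, _ => 0
  | a :: l, s, p, c => a * p / s + iv l (s + 1) (p * c) c

lemma ev_cont (l : List ℝ) : Continuous (ev l) := by
  induction l with
  | nil => exact continuous_const
  | cons a l ih =>
    change Continuous fun x => a + x * ev l x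
    exact continuous_const.add (continuous_id.mul ih)

lemma ev_int_aux (l : List ℝ) (c : ℝ) : ∀ n : ℕ,
    ∫ x in (0:ℝ)..c, x ^ n * ev l x = iv l ((n : ℝ) + 1) (c ^ (n + 1)) c := by
  induction l with
  | nil =>
    intro n
    simp [ev, iv]
  | cons a l ih =>
    intro n
    have e : ∀ x : ℝ, x ^ n * ev (a :: l) x = a * x ^ n + x ^ (n + 1) * ev l x := by
      intro x
      simp only [ev]
      ring
    simp only [e]
    rw [intervalIntegral.integral_add, ih (n + 1), intervalIntegral.integral_const_mul, integral_pow]
    · simp only [iv]
      push_cast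
      rw [zero_pow (Nat.succ_ne_zero n), sub_zero, pow_succ c (n + 1)]
      ring
    · exact Continuous.intervalIntegrable (by fun_prop) _ _
    · have := ev_cont l
      exact Continuous.intervalIntegrable (by fun_prop) _ _

lemma ev_int (l : List ℝ) (c : ℝ) : ∫ x in (0:ℝ)..c, ev l x = iv l 1 c c := by
  have h := ev_int_aux l c 0
  simpa using h

end

end Pool.Agent.TH158.E8
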