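import Pool.Agent.TH158.E8.Defs
import Pool.Agent.H306R2.EPLim

set_option autoImplicit false

/-!
Eighth moment lower bound, MS3: main term of the cross term of `C1` (from MI2, karamata).
-/

namespace Pool.Agent.TH158.E8.MS3

open Finset Filter Topology MeasureTheory
open Pool.Agent.H306R2 Pool.Agent.H306R2.SM Pool.Agent.H223.EM

noncomputable section

lemma et_zero {ε x : ℝ} (hε : 0 < ε) (h : 1 / 2 - ε ≤ x) : et ε x = 0 :=
  sc_eq_zero hε (by linarith)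

lemma et_cont (ε : ℝ) : Continuous (et ε) := sc_cont _ _

/-- the test function without the logarithm -/
def p0 (ε : ℝ) (u : Fin 4 → ℝ) : ℝ := f1 ε (u 0 + u 1) (u 2) * pt ε (u 1 + u 3)

lemma p0_cont (ε : ℝ) : Continuous (p0 ε) := by
  have h1 := et_cont ε
  have h2 := pt_cont ε
  unfold p0 f1 GG
  fun_prop

lemma p0_zero {ε : ℝ} (hε : 0 < ε) {u : Fin 4 → ℝ}
    (h : 1 / 2 - ε ≤ u 0 + u 1 ∨ 1 / 2 - ε ≤ u 2 ∨ 1 / 2 - ε ≤ u 1 + u 3) : p0 ε u = 0 := by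
  unfold p0 f1
  rcases h with h | h | h
  · rw [et_zero hε h]; ring
  · rw [et_zero (x := u 2) hε h]; ring
  · rw [pt_zero (x := u 1 + u 3) hε h]; ring

lemma p0_van {ε : ℝ} (hε : 0 < ε) (u : Fin 4 → ℝ) (hu : ∀ i, 0 ≤ u i) (h : ∃ i, 1 / 2 ≤ u i) :
    p0 ε u = 0 := by
  obtain ⟨i, hi⟩ := h
  have h0 := hu 0
  have h1 := hu 1
  have h3 := hu 3
  apply p0_zero hε
  fin_cases i
  · left
    have : 1 / 2 ≤ u 0 := hi
    linarith
  · left
    have : 1 / 2 ≤ u 1 := hi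
    linarith
  · right; left
    have : 1 / 2 ≤ u 2 := hi
    linarith
  · right; right
    have : 1 / 2 ≤ u 3 := hi
    linarith

/-- the coordinates `(h', g, l, n')` of `(h, l, n)` -/
def cF (p : (ℕ × ℕ) × ℕ) : Fin 4 → ℕ :=
  ![p.1.1 / Nat.gcd p.1.1 p.2, Nat.gcd p.1.1 p.2, p.1.2, p.2 / Nat.gcd p.1.1 p.2]

/-- the inverse -/
def cG (b : Fin 4 → ℕ) : (ℕ × ℕ) × ℕ := ((b 0 * b 1, b 2), b 1 * b 3)

lemma cG_cF (p : (ℕ × ℕ) × ℕ) : cG (cF p) = p := by
  obtain ⟨⟨h, l⟩, n⟩ := p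
  unfold cG cF
  simp only [Matrix.cons_val_zero, Matrix.cons_val_one, Matrix.cons_val]
  rw [Nat.div_mul_cancel (Nat.gcd_dvd_left h n), Nat.mul_div_cancel' (Nat.gcd_dvd_right h n)]

lemma gcd_eq {b : Fin 4 → ℕ} (h : Nat.Coprime (b 0) (b 3)) :
    Nat.gcd (b 0 * b 1) (b 1 * b 3) = b 1 := by
  rw [mul_comm (b 0), Nat.gcd_mul_left, h.gcd_eq_one, mul_one]

lemma cF_cG {b : Fin 4 → ℕ} (h : Nat.Coprime (b 0) (b 3)) (h1 : b 1 ≠ 0) : cF (cG b) = b := by
  have h1' : 0 < b 1 := Nat.pos_of_ne_zero h1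
  unfold cF cG
  simp only
  rw [gcd_eq h, Nat.mul_div_cancel _ h1', Nat.mul_div_cancel_left _ h1']
  funext i
  fin_cases i <;> rfl

/-- the terms of the finite sum -/
def tm (ε T : ℝ) (k : ℕ) (p : (ℕ × ℕ) × ℕ) : ℝ :=
  c1 ε T p.1 * (aa ε T p.2 / Real.sqrt p.2 * Mt k (Yf k T) p.1.1 p.1.2 p.2)

lemma tm_eq {ε T : ℝ} {k : ℕ} (hY : 0 < Yf k T) (b : Fin 4 → ℕ)
    (h03 : Nat.Coprime (b 0) (b 3)) (h012 : Nat.Coprime (b 0 * b 1) (b 2)) (hne : ∀ i, b i ≠ 0) :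
    tm ε T k (cG b) = Real.log T ^ 3 * (w4 b * p0 ε (pos (Real.log T) b) *
      (Real.log (Yf k T) + bk k - Real.log (b 0) - Real.log (b 2) - Real.log (b 3))) := by
  have b0 : (0 : ℝ) < b 0 := by exact_mod_cast Nat.pos_of_ne_zero (hne 0)
  have b1 : (0 : ℝ) < b 1 := by exact_mod_cast Nat.pos_of_ne_zero (hne 1)
  have b2 : (0 : ℝ) < b 2 := by exact_mod_cast Nat.pos_of_ne_zero (hne 2)
  have b3 : (0 : ℝ) < b 3 := by exact_mod_cast Nat.pos_of_ne_zero (hne 3)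
  have h1' : 0 < b 1 := Nat.pos_of_ne_zero (hne 1)
  have hw : w4 b = ps (b 0 * b 1) * d2 (b 1 * b 3) /
      ((b 0 : ℝ) * (b 1 : ℝ) * (b 2 : ℝ) * (b 3 : ℝ)) := by
    unfold w4
    rw [if_pos ⟨h03, h012, hne⟩]
  have hhp : hp (b 0 * b 1) (b 1 * b 3) = b 0 := by
    unfold hp
    rw [gcd_eq h03, Nat.mul_div_cancel _ h1']
  have hmp : mp (b 0 * b 1) (b 2) (b 1 * b 3) = b 2 * b 3 := by
    unfold mp
    rw [gcd_eq h03, Nat.mul_div_cancel_left _ h1']
  unfold tm cG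
  simp only
  unfold c1 aa Mt
  simp only
  rw [hhp, hmp, hw]
  push_cast
  have hsq : Real.sqrt ((b 0 : ℝ) * b 1 * b 2) * Real.sqrt ((b 1 : ℝ) * b 3) *
      Real.sqrt ((b 0 : ℝ) * (b 2 * b 3)) = (b 0 : ℝ) * b 1 * b 2 * b 3 := by
    rw [← Real.sqrt_mul (by positivity), ← Real.sqrt_mul (by positivity),
      show (b 0 : ℝ) * b 1 * b 2 * (b 1 * b 3) * (b 0 * (b 2 * b 3)) =
        ((b 0 : ℝ) * b 1 * b 2 * b 3) ^ 2 by ring, Real.sqrt_sq (by positivity)]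
  have hlog : Real.log (Yf k T / ((b 0 : ℝ) * (b 2 * b 3))) =
      Real.log (Yf k T) - Real.log (b 0) - Real.log (b 2) - Real.log (b 3) := by
    rw [Real.log_div hY.ne' (by positivity), Real.log_mul b0.ne' (by positivity),
      Real.log_mul b2.ne' b3.ne']
    ring
  have hl1 : Real.log ((b 0 : ℝ) * b 1) / Real.log T =
      Real.log (b 0) / Real.log T + Real.log (b 1) / Real.log T := by
    rw [Real.log_mul b0.ne' b1.ne', add_div]
  have hl2 : Real.log ((b 1 : ℝ) * b 3) / Real.log T =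
      Real.log (b 1) / Real.log T + Real.log (b 3) / Real.log T := by
    rw [Real.log_mul b1.ne' b3.ne', add_div]
  rw [hlog, hl1, hl2]
  unfold p0 pos
  have hs0 : 0 < Real.sqrt ((b 0 : ℝ) * b 1 * b 2) := by positivity
  have hs1 : 0 < Real.sqrt ((b 1 : ℝ) * b 3) := by positivity
  have hs2 : 0 < Real.sqrt ((b 0 : ℝ) * (b 2 * b 3)) := by positivity
  rw [← hsq]
  field_simp
  ring

lemma not_mem {ε T : ℝ} (hT : 1 < T) (n : ℕ) (hn : 1 ≤ n) (h : n ∉ Icc 1 ⌊T ^ (1 / 2 - ε)⌋₊) :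
    1 / 2 - ε ≤ Real.log n / Real.log T := by
  have hL : 0 < Real.log T := Real.log_pos hT
  have h1 : ¬ n ≤ ⌊T ^ (1 / 2 - ε)⌋₊ := fun hh => h (mem_Icc.mpr ⟨hn, hh⟩)
  rw [Nat.le_floor_iff (by positivity), not_le] at h1
  rw [le_div_iff₀ hL, ← Real.log_rpow (by linarith)]
  exact Real.log_le_log (by positivity) h1.le

/-- the finite sum as a sum over all four-tuples -/
lemma cross_hasSum {ε T : ℝ} (hε : 0 < ε) (hT : 1 < T) {k : ℕ} (hY : 0 < Yf k T) :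
    HasSum (fun b : Fin 4 → ℕ => Real.log T ^ 3 * (w4 b * p0 ε (pos (Real.log T) b) *
      (Real.log (Yf k T) + bk k - Real.log (b 0) - Real.log (b 2) - Real.log (b 3))))
      (∑ b ∈ SS' ε T, c1 ε T b * ∑ n ∈ Icc 1 (NN ε T), aa ε T n / Real.sqrt n *
        Mt k (Yf k T) b.1 b.2 n) := by
  classical
  have hL : 0 < Real.log T := Real.log_pos hT
  have h1 : (∑ b ∈ SS' ε T, c1 ε T b * ∑ n ∈ Icc 1 (NN ε T), aa ε T n / Real.sqrt n *
        Mt k (Yf k T) b.1 b.2 n) = ∑ p ∈ SS' ε T ×ˢ Icc 1 (NN ε T), tm ε T k p := by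
    rw [sum_product]
    refine sum_congr rfl fun b _ => ?_
    rw [mul_sum]
    rfl
  have hprop : ∀ p ∈ SS' ε T ×ˢ Icc 1 (NN ε T), Nat.Coprime (cF p 0) (cF p 3) ∧
      Nat.Coprime (cF p 0 * cF p 1) (cF p 2) ∧ ∀ i, cF p i ≠ 0 := by
    rintro ⟨⟨h, l⟩, n⟩ hp
    rw [mem_product, SS', mem_filter, mem_product, mem_Icc, mem_Icc, mem_Icc] at hp
    obtain ⟨⟨⟨⟨hh, -⟩, hl, -⟩, hcop⟩, hn, -⟩ := hp
    simp only at hh hl hcop hn
    have hg : 0 < Nat.gcd h n := Nat.gcd_pos_of_pos_left _ hh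
    refine ⟨Nat.coprime_div_gcd_div_gcd hg, ?_, ?_⟩
    · change Nat.Coprime (h / Nat.gcd h n * Nat.gcd h n) l
      rw [Nat.div_mul_cancel (Nat.gcd_dvd_left h n)]
      exact hcop
    · intro i
      fin_cases i
      · exact (Nat.div_pos (Nat.le_of_dvd hh (Nat.gcd_dvd_left h n)) hg).ne'
      · exact hg.ne'
      · exact (show 0 < l from hl).ne'
      · exact (Nat.div_pos (Nat.le_of_dvd hn (Nat.gcd_dvd_right h n)) hg).ne'
  have h2 : ∑ p ∈ SS' ε T ×ˢ Icc 1 (NN ε T), tm ε T k p =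
      ∑ b ∈ (SS' ε T ×ˢ Icc 1 (NN ε T)).image cF,
        Real.log T ^ 3 * (w4 b * p0 ε (pos (Real.log T) b) *
      (Real.log (Yf k T) + bk k - Real.log (b 0) - Real.log (b 2) - Real.log (b 3))) := by
    rw [sum_image (fun p _ q _ hpq => by
      have := congrArg cG hpq
      rwa [cG_cF, cG_cF] at this)]
    refine sum_congr rfl fun p hp => ?_
    obtain ⟨a1, a2, a3⟩ := hprop p hp
    rw [← tm_eq hY (cF p) a1 a2 a3, cG_cF]
  rw [h1, h2]
  refine hasSum_sum_of_ne_finset_zero ?_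
  intro b hb
  by_cases hw : Nat.Coprime (b 0) (b 3) ∧ Nat.Coprime (b 0 * b 1) (b 2) ∧ ∀ i, b i ≠ 0
  · obtain ⟨h03, h012, hne⟩ := hw
    have b0 : (0 : ℝ) < b 0 := by exact_mod_cast Nat.pos_of_ne_zero (hne 0)
    have b1 : (0 : ℝ) < b 1 := by exact_mod_cast Nat.pos_of_ne_zero (hne 1)
    have b3 : (0 : ℝ) < b 3 := by exact_mod_cast Nat.pos_of_ne_zero (hne 3)
    have hz : p0 ε (pos (Real.log T) b) = 0 := by
      have hnm : cG b ∉ SS' ε T ×ˢ Icc 1 (NN ε T) := by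
        intro hh
        apply hb
        rw [mem_image]
        exact ⟨cG b, hh, cF_cG h03 (hne 1)⟩
      apply p0_zero hε
      have n01 : 1 ≤ b 0 * b 1 := Nat.mul_pos (Nat.pos_of_ne_zero (hne 0))
        (Nat.pos_of_ne_zero (hne 1))
      have n2 : 1 ≤ b 2 := Nat.pos_of_ne_zero (hne 2)
      have n13 : 1 ≤ b 1 * b 3 := Nat.mul_pos (Nat.pos_of_ne_zero (hne 1))
        (Nat.pos_of_ne_zero (hne 3))
      by_cases m1 : b 0 * b 1 ∈ Icc 1 ⌊T ^ (1 / 2 - ε)⌋₊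
      · by_cases m2 : b 2 ∈ Icc 1 ⌊T ^ (1 / 2 - ε)⌋₊
        · by_cases m3 : b 1 * b 3 ∈ Icc 1 ⌊T ^ (1 / 2 - ε)⌋₊
          · exfalso
            apply hnm
            rw [mem_product, SS', mem_filter, mem_product]
            exact ⟨⟨⟨m1, m2⟩, h012⟩, m3⟩
          · right; right
            have := not_mem hT _ n13 m3
            unfold pos
            rwa [← add_div, ← Real.log_mul b1.ne' b3.ne', ← Nat.cast_mul]
        · right; left
          exact not_mem hT _ n2 m2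
      · left
        have := not_mem hT _ n01 m1
        unfold pos
        rwa [← add_div, ← Real.log_mul b0.ne' b1.ne', ← Nat.cast_mul]
    rw [hz]; ring
  · have : w4 b = 0 := by
      unfold w4
      rw [if_neg hw]
    rw [this]; ring

lemma bk_bound {k : ℕ} (hk : 1 ≤ k) {T : ℝ} (hT : 0 < T) :
    |Real.log (Yf k T) + bk k - Real.log T| ≤ 6 := by
  have hk0 : (0 : ℝ) < k := by exact_mod_cast hk
  have hpi := Real.pi_gt_three
  have hpi4 := Real.pi_lt_d2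
  have h1 : Real.log (Yf k T) = Real.log T - Real.log (2 * Real.pi) - Real.log k := by
    unfold Yf
    rw [Real.log_div hT.ne' (by positivity), Real.log_mul (by positivity) hk0.ne']
    ring
  have h2 : Real.log k ≤ (harmonic k : ℝ) := by
    have := log_add_one_le_harmonic k
    exact (Real.log_le_log hk0 (by push_cast; linarith)).trans this
  have h3 : (harmonic k : ℝ) ≤ 1 + Real.log k := harmonic_le_one_add_log k
  have h4 := Real.one_half_lt_eulerMascheroniConstant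
  have h5 := Real.eulerMascheroniConstant_lt_two_thirds
  have h6 : 0 ≤ Real.log (2 * Real.pi) := Real.log_nonneg (by linarith)
  have h7 : Real.log (2 * Real.pi) ≤ 2 * Real.pi - 1 := Real.log_le_sub_one_of_pos (by positivity)
  unfold bk
  rw [h1, abs_le]
  constructor <;> linarith

/-- MS3, from MI2 -/
theorem sum_cross1 (hw4 : KH 4 w4 ∧ ∀ s : Fin 4 → ℝ, (∀ i, 0 < s i) →
      Tendsto (fun L : ℝ => (∑' b : Fin 4 → ℕ, w4 b * ∏ i, (b i : ℝ) ^ (-(s i / L))) / L ^ (12 : ℝ))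
        atTop (𝓝 (aF 4 * ∏ i, (s i) ^ (-((![3, 6, 1, 2] : Fin 4 → ℝ) i)))))
    (ε : ℝ) (hε : 0 < ε) (hε1 : ε < 1 / 8) (c : ℝ) (hc : c < aF 4 * IW1c ε) :
    ∀ᶠ T : ℝ in atTop, ∀ k : ℕ, kr' T k → c * Real.log T ^ 16 ≤
      ∑ b ∈ SS' ε T, c1 ε T b * ∑ n ∈ Icc 1 (NN ε T), aa ε T n / Real.sqrt n *
        Mt k (Yf k T) b.1 b.2 n := by
  obtain ⟨hKH, hlim⟩ := hw4
  have hA : 0 ≤ aF 4 := (aF_pos (by norm_num)).le
  have hm : ∀ i, 0 < (![3, 6, 1, 2] : Fin 4 → ℝ) i := by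
    intro i
    fin_cases i <;> simp
  set q1 : (Fin 4 → ℝ) → ℝ := fun u => p0 ε u * (1 - u 0 - u 2 - u 3) with hq1
  have hq1c : Continuous q1 := by
    have := p0_cont ε
    rw [hq1]
    fun_prop
  have hq1z : ∀ u : Fin 4 → ℝ, (∀ i, 0 ≤ u i) → (∃ i, 1 / 2 ≤ u i) → q1 u = 0 := by
    intro u hu h
    rw [hq1]
    simp only
    rw [p0_van hε u hu h, zero_mul]
  set q2 : (Fin 4 → ℝ) → ℝ := fun u => |p0 ε u| with hq2
  have hq2c : Continuous q2 := (p0_cont ε).abs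
  have hq2z : ∀ u : Fin 4 → ℝ, (∀ i, 0 ≤ u i) → (∃ i, 1 / 2 ≤ u i) → q2 u = 0 := by
    intro u hu h
    rw [hq2]
    simp only
    rw [p0_van hε u hu h, abs_zero]
  have k1 := karamata hKH 12 (aF 4) hA _ hm hlim q1 hq1c (1 / 2) hq1z (by norm_num)
  have k2 := karamata hKH 12 (aF 4) hA _ hm hlim q2 hq2c (1 / 2) hq2z (by norm_num)
  have hX : aF 4 * (∫ u : Fin 4 → ℝ, Gd ![3, 6, 1, 2] u * q1 u) = aF 4 * IW1c ε := by
    rfl
  rw [hX] at k1
  set X := aF 4 * IW1c ε with hXd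
  set Z := aF 4 * (∫ u : Fin 4 → ℝ, Gd ![3, 6, 1, 2] u * q2 u) with hZd
  set δ := (X - c) / 2 with hδ
  have hδ0 : 0 < δ := by rw [hδ]; linarith
  have e1 := (Real.tendsto_log_atTop).eventually (k1.eventually_const_lt
    (show c + δ < X by rw [hδ]; linarith))
  have e2 := (Real.tendsto_log_atTop).eventually (k2.eventually_lt_const
    (show Z < Z + 1 by linarith))
  have e3 := (Real.tendsto_log_atTop).eventually_ge_atTop (6 * (|Z| + 1) / δ)
  filter_upwards [e1, e2, e3, eventually_gt_atTop (Real.exp 1)] with T h1 h2 h3 hTe k hk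
  have hT : 1 < T := lt_trans (by
    have := Real.add_one_lt_exp (show (1 : ℝ) ≠ 0 by norm_num)
    linarith) hTe
  have hT0 : 0 < T := by linarith
  have hL1 : 1 < Real.log T := by
    rw [Real.lt_log_iff_exp_lt hT0]; exact hTe
  have hL0 : 0 < Real.log T := by linarith
  have hk1 : 1 ≤ k := by
    have : (1 : ℝ) ≤ k := by
      refine le_trans ?_ hk.1
      nlinarith
    exact_mod_cast this
  have hk0 : (0 : ℝ) < k := by exact_mod_cast hk1
  have hY : 0 < Yf k T := by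
    unfold Yf
    have := Real.pi_pos
    positivity
  have hS := cross_hasSum hε hT hY
  set L := Real.log T with hLd
  have hr : ∀ x : ℝ, x / L ^ (12 : ℝ) = x / L ^ 12 := by
    intro x
    rw [show (12 : ℝ) = ((12 : ℕ) : ℝ) by norm_num, Real.rpow_natCast]
  simp only [hr] at h1 h2
  have hL12 : 0 < L ^ 12 := by positivity
  rw [lt_div_iff₀ hL12] at h1
  rw [div_lt_iff₀ hL12] at h2
  have hs1 := tf_summable hKH q1 hq1c (1 / 2) hq1z (by norm_num) hL0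
  have hs2 := tf_summable hKH q2 hq2c (1 / 2) hq2z (by norm_num) hL0
  have hs0 := tf_summable hKH (p0 ε) (p0_cont ε) (1 / 2) (fun u hu h => p0_van hε u hu h)
    (by norm_num) hL0
  have hD := bk_bound hk1 hT0
  rw [← hLd] at hD
  set D := Real.log (Yf k T) + bk k with hDd
  have hterm : ∀ b : Fin 4 → ℕ, L ^ 3 * (w4 b * p0 ε (pos L b) *
      (D - Real.log (b 0) - Real.log (b 2) - Real.log (b 3))) =
      L ^ 4 * (w4 b * q1 (pos L b)) + L ^ 3 * (D - L) * (w4 b * p0 ε (pos L b)) := by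
    intro b
    rw [hq1]
    simp only [pos]
    field_simp
    ring
  have hSe := hS.tsum_eq
  rw [tsum_congr hterm, (hs1.mul_left (L ^ 4)).tsum_add (hs0.mul_left (L ^ 3 * (D - L))),
    tsum_mul_left, tsum_mul_left] at hSe
  rw [← hSe]
  have hb : |∑' b, w4 b * p0 ε (pos L b)| ≤ ∑' b, w4 b * q2 (pos L b) := by
    have hn : ∀ b, ‖w4 b * p0 ε (pos L b)‖ = w4 b * q2 (pos L b) := by
      intro b
      rw [norm_mul, Real.norm_of_nonneg (hKH.hw b)]
      rfl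
    rw [← Real.norm_eq_abs, ← tsum_congr hn]
    exact norm_tsum_le_tsum_norm (hs2.congr fun b => (hn b).symm)
  set S1 := ∑' b, w4 b * q1 (pos L b) with hS1
  set S0 := ∑' b, w4 b * p0 ε (pos L b) with hS0
  set Sa := ∑' b, w4 b * q2 (pos L b) with hSa
  have h4 : -(6 * ((Z + 1) * L ^ 12)) ≤ (D - L) * S0 := by
    have a1 : |(D - L) * S0| ≤ 6 * ((Z + 1) * L ^ 12) := by
      rw [abs_mul]
      exact mul_le_mul hD (hb.trans h2.le) (abs_nonneg _) (by norm_num)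
    linarith [neg_abs_le ((D - L) * S0)]
  have h5 : 6 * (Z + 1) ≤ δ * L := by
    rw [div_le_iff₀ hδ0] at h3
    have := le_abs_self Z
    linarith
  calc c * L ^ 16 = L ^ 4 * ((c + δ) * L ^ 12) - L ^ 15 * (δ * L) := by ring
    _ ≤ L ^ 4 * S1 - L ^ 15 * (6 * (Z + 1)) := by
        have a1 : L ^ 4 * ((c + δ) * L ^ 12) ≤ L ^ 4 * S1 :=
          mul_le_mul_of_nonneg_left h1.le (by positivity)
        have a2 : L ^ 15 * (6 * (Z + 1)) ≤ L ^ 15 * (δ * L) :=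
          mul_le_mul_of_nonneg_left h5 (by positivity)
        linarith
    _ = L ^ 4 * S1 + L ^ 3 * (-(6 * ((Z + 1) * L ^ 12))) := by ring
    _ ≤ L ^ 4 * S1 + L ^ 3 * ((D - L) * S0) := by
        have := mul_le_mul_of_nonneg_left h4 (show 0 ≤ L ^ 3 by positivity)
        linarith
    _ = _ := by ring

end

end Pool.Agent.TH158.E8.MS3
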