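import Pool.Agent.TH158.E8.Defs
import Pool.Agent.H306R2.EPLim

set_option autoImplicit false

/-!
# Eighth moment of zeta, task MS4 (`sum_cross2`)
-/

namespace Pool.Agent.TH158.E8.MS4

open Finset Filter Topology MeasureTheory Complex
open Pool.Agent.H306R2 Pool.Agent.H306R2.SM Pool.Agent.H223.EM

noncomputable section

/-- the test function -/
def ph (ε : ℝ) (u : Fin 3 → ℝ) : ℝ := f2 ε (u 0) (u 1) * pt ε (u 0 + u 2)

lemma et_cont (ε : ℝ) : Continuous (et ε) := sc_cont _ _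

lemma et_zero {ε x : ℝ} (hε : 0 < ε) (h : 1 / 2 - ε ≤ x) : et ε x = 0 := by
  unfold et
  exact sc_eq_zero hε (by linarith)

lemma ph_cont (ε : ℝ) : Continuous (ph ε) := by
  unfold ph f2
  have h := et_cont ε
  refine Continuous.mul (Continuous.mul (Continuous.mul ?_ (h.comp (continuous_apply 0)))
    (h.comp (continuous_apply 1))) ((pt_cont ε).comp ((continuous_apply 0).add (continuous_apply 2)))
  exact FF_cont.comp (continuous_apply 0)

lemma ph_zero {ε : ℝ} (hε : 0 < ε) (u : Fin 3 → ℝ) (h : 1 / 2 - ε ≤ u 0 ∨ 1 / 2 - ε ≤ u 1 ∨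
    1 / 2 - ε ≤ u 0 + u 2) : ph ε u = 0 := by
  unfold ph f2
  rcases h with h | h | h
  · rw [et_zero hε h]; ring
  · rw [et_zero (x := u 1) hε h]; ring
  · rw [pt_zero (x := u 0 + u 2) hε h]; ring

/-- summation set -/
def S3 (ε T : ℝ) : Finset ((ℕ × ℕ) × ℕ) :=
  ((SS' ε T) ×ˢ (Icc 1 (NN ε T))).filter (fun p => p.1.1 ∣ p.2)

def mp3 (p : (ℕ × ℕ) × ℕ) : Fin 3 → ℕ := ![p.1.1, p.1.2, p.2 / p.1.1]

lemma mem_SS' {ε T : ℝ} {b : ℕ × ℕ} (hb : b ∈ SS' ε T) :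
    1 ≤ b.1 ∧ 1 ≤ b.2 ∧ Nat.Coprime b.1 b.2 := by
  unfold SS' at hb
  rw [mem_filter, mem_product, mem_Icc, mem_Icc] at hb
  exact ⟨hb.1.1.1, hb.1.2.1, hb.2⟩

lemma mp3_inj (ε T : ℝ) : Set.InjOn mp3 (S3 ε T : Set ((ℕ × ℕ) × ℕ)) := by
  rintro ⟨⟨h, l⟩, n⟩ hp ⟨⟨h', l'⟩, n'⟩ hp' he
  rw [mem_coe] at hp hp'
  unfold S3 at hp hp'
  rw [mem_filter, mem_product] at hp hp'
  have h0 := congrFun he 0
  have h1 := congrFun he 1
  have h2 := congrFun he 2
  simp only [mp3, Matrix.cons_val_zero, Matrix.cons_val_one, Matrix.cons_val] at h0 h1 h2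
  subst h0
  subst h1
  have hd := hp.2
  have hd' := hp'.2
  simp only at hd hd'
  have : n = n' := by
    rw [← Nat.mul_div_cancel' hd, ← Nat.mul_div_cancel' hd', h2]
  subst this
  rfl

lemma v3_of (b : Fin 3 → ℕ) (hc : Nat.Coprime (b 0) (b 1)) (hb : ∀ i, b i ≠ 0) :
    v3 b = De (b 0) * De (b 1) * d2 (b 0 * b 2) * d2 (b 1 * b 2) /
      ((b 0 : ℝ) * (b 1 : ℝ) * (b 2 : ℝ)) := by
  unfold v3
  rw [if_pos ⟨hc, hb⟩]

/-- terms -/
lemma term_eq {ε T : ℝ} (p : (ℕ × ℕ) × ℕ) (hp : p ∈ S3 ε T) :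
    c2 ε T p.1 * (aa ε T p.2 * d2 (p.1.2 * (p.2 / p.1.1)) /
      Real.sqrt ((p.2 : ℝ) * (p.1.2 * (p.2 / p.1.1) : ℕ))) =
    Real.log T ^ 4 * kp * (v3 (mp3 p) * ph ε (pos (Real.log T) (mp3 p))) := by
  obtain ⟨⟨h, l⟩, n⟩ := p
  unfold S3 at hp
  rw [mem_filter, mem_product] at hp
  obtain ⟨⟨hb, hn⟩, m, hm⟩ := hp
  simp only at hb hn hm
  obtain ⟨hh, hl, hc⟩ := mem_SS' hb
  simp only at hh hl hc
  rw [mem_Icc] at hn
  have hm0 : m ≠ 0 := by
    rintro rfl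
    rw [mul_zero] at hm
    omega
  have hdiv : n / h = m := by rw [hm]; exact Nat.mul_div_cancel_left m hh
  have hmp : mp3 ((h, l), n) = ![h, l, m] := by
    unfold mp3
    simp only [hdiv]
  rw [hmp]
  have hv := v3_of ![h, l, m] hc (by
    intro i
    fin_cases i
    · simpa using (by omega : h ≠ 0)
    · simpa using (by omega : l ≠ 0)
    · simpa using hm0)
  simp only [Matrix.cons_val_zero, Matrix.cons_val_one, Matrix.cons_val] at hv
  rw [hv]
  have hhR : (0 : ℝ) < h := by exact_mod_cast hh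
  have hlR : (0 : ℝ) < l := by exact_mod_cast hl
  have hmR : (0 : ℝ) < m := by exact_mod_cast Nat.pos_of_ne_zero hm0
  simp only [hdiv]
  have e1 : ph ε (pos (Real.log T) ![h, l, m]) =
      f2 ε (Real.log h / Real.log T) (Real.log l / Real.log T) * pt ε (Real.log n / Real.log T) := by
    unfold ph pos
    simp only [Matrix.cons_val_zero, Matrix.cons_val_one, Matrix.cons_val]
    congr 2
    rw [hm]
    push_cast
    rw [Real.log_mul hhR.ne' hmR.ne']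
    ring
  rw [e1]
  unfold c2 aa
  simp only
  have e2 : Real.sqrt ((n : ℝ) * ((l * m : ℕ) : ℝ)) = m * Real.sqrt ((h : ℝ) * l) := by
    rw [hm]
    push_cast
    rw [show (h : ℝ) * m * (l * m) = m ^ 2 * (h * l) by ring, Real.sqrt_mul (by positivity),
      Real.sqrt_sq hmR.le]
  rw [e2, hm]
  have hs : 0 < Real.sqrt ((h : ℝ) * l) := Real.sqrt_pos.mpr (by positivity)
  have hs2 : Real.sqrt ((h : ℝ) * l) * Real.sqrt ((h : ℝ) * l) = h * l :=
    Real.mul_self_sqrt (by positivity)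
  have e3 : (h : ℝ) * l * m = m * (Real.sqrt ((h : ℝ) * l) * Real.sqrt ((h : ℝ) * l)) := by
    rw [hs2]; ring
  rw [e3]
  field_simp

/-- the sum as a `tsum` -/
lemma sum_eq {ε T : ℝ} (hε : 0 < ε) (hT : 1 < T) :
    (∑ b ∈ SS' ε T, c2 ε T b * ∑ n ∈ Icc 1 (NN ε T),
        if b.1 ∣ n then aa ε T n * d2 (b.2 * (n / b.1)) / Real.sqrt ((n : ℝ) * (b.2 * (n / b.1) : ℕ))
          else 0) =
      Real.log T ^ 4 * kp * ∑' b : Fin 3 → ℕ, v3 b * ph ε (pos (Real.log T) b) := by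
  classical
  have hL : 0 < Real.log T := Real.log_pos hT
  -- left side
  have h1 : (∑ b ∈ SS' ε T, c2 ε T b * ∑ n ∈ Icc 1 (NN ε T),
        if b.1 ∣ n then aa ε T n * d2 (b.2 * (n / b.1)) / Real.sqrt ((n : ℝ) * (b.2 * (n / b.1) : ℕ))
          else 0) =
      ∑ p ∈ S3 ε T, c2 ε T p.1 * (aa ε T p.2 * d2 (p.1.2 * (p.2 / p.1.1)) /
        Real.sqrt ((p.2 : ℝ) * (p.1.2 * (p.2 / p.1.1) : ℕ))) := by
    unfold S3
    rw [sum_filter, sum_product]
    refine sum_congr rfl fun b _ => ?_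
    rw [mul_sum]
    refine sum_congr rfl fun n _ => ?_
    split_ifs
    · rfl
    · rw [mul_zero]
  rw [h1, sum_congr rfl (fun p hp => term_eq p hp), ← mul_sum]
  congr 1
  symm
  have h2 : ∑ p ∈ S3 ε T, v3 (mp3 p) * ph ε (pos (Real.log T) (mp3 p)) =
      ∑ b ∈ (S3 ε T).image mp3, v3 b * ph ε (pos (Real.log T) b) := by
    rw [sum_image (mp3_inj ε T)]
  rw [h2]
  refine tsum_eq_sum fun b hb => ?_
  by_cases hw : v3 b = 0
  · rw [hw, zero_mul]
  by_cases hp : ph ε (pos (Real.log T) b) = 0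
  · rw [hp, mul_zero]
  exfalso
  apply hb
  have hc : Nat.Coprime (b 0) (b 1) ∧ ∀ i, b i ≠ 0 := by
    by_contra h
    apply hw
    unfold v3
    rw [if_neg h]
  obtain ⟨hc, hb0⟩ := hc
  have hT0 : 0 < T := by linarith
  -- sizes
  have key : ∀ k : ℕ, k ≠ 0 → Real.log k / Real.log T < 1 / 2 - ε → k ≤ NN ε T := by
    intro k hk hlt
    unfold NN
    rw [Nat.le_floor_iff (by positivity)]
    rw [div_lt_iff₀ hL, ← Real.log_rpow hT0] at hlt
    have hk0 : (0 : ℝ) < k := by exact_mod_cast Nat.pos_of_ne_zero hk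
    exact ((Real.log_lt_log_iff hk0 (by positivity)).mp hlt).le
  have hz : ¬ (1 / 2 - ε ≤ pos (Real.log T) b 0 ∨ 1 / 2 - ε ≤ pos (Real.log T) b 1 ∨
      1 / 2 - ε ≤ pos (Real.log T) b 0 + pos (Real.log T) b 2) := fun h => hp (ph_zero hε _ h)
  push Not at hz
  obtain ⟨hz0, hz1, hz2⟩ := hz
  have k0 := key (b 0) (hb0 0) hz0
  have k1 := key (b 1) (hb0 1) hz1
  have k2 := key (b 0 * b 2) (Nat.mul_ne_zero (hb0 0) (hb0 2)) (by
    have e : Real.log ((b 0 * b 2 : ℕ) : ℝ) / Real.log T =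
        pos (Real.log T) b 0 + pos (Real.log T) b 2 := by
      unfold pos
      push_cast
      rw [Real.log_mul (by exact_mod_cast hb0 0) (by exact_mod_cast hb0 2)]
      ring
    rw [e]
    exact hz2)
  rw [mem_image]
  refine ⟨((b 0, b 1), b 0 * b 2), ?_, ?_⟩
  · unfold S3 SS'
    rw [mem_filter, mem_product, mem_filter, mem_product, mem_Icc, mem_Icc, mem_Icc]
    refine ⟨⟨⟨⟨⟨?_, k0⟩, ⟨?_, k1⟩⟩, hc⟩, ?_, k2⟩, dvd_mul_right _ _⟩
    · exact Nat.one_le_iff_ne_zero.mpr (hb0 0)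
    · exact Nat.one_le_iff_ne_zero.mpr (hb0 1)
    · exact Nat.one_le_iff_ne_zero.mpr (Nat.mul_ne_zero (hb0 0) (hb0 2))
  · unfold mp3
    funext i
    fin_cases i
    · rfl
    · rfl
    · simp only [Fin.reduceFinMk, Matrix.cons_val]
      exact Nat.mul_div_cancel_left _ (Nat.pos_of_ne_zero (hb0 0))

/-- MS4. main term of the cross term of `C2` (from MI4 `hv` and `0 < kp`, the first part of MI3) -/
theorem sum_cross2_of (hkp : 0 < kp)
    (hv : KH 3 v3 ∧ ∀ s : Fin 3 → ℝ, (∀ i, 0 < s i) →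
      Tendsto (fun L : ℝ => (∑' b : Fin 3 → ℕ, v3 b * ∏ i, (b i : ℝ) ^ (-(s i / L))) / L ^ (12 : ℝ))
        atTop (𝓝 (aF 4 / kp * ∏ i, (s i) ^ (-((![4, 4, 4] : Fin 3 → ℝ) i)))))
    (ε : ℝ) (hε : 0 < ε) (_hε1 : ε < 1 / 8) :
    Tendsto (fun T : ℝ => (∑ b ∈ SS' ε T, c2 ε T b * ∑ n ∈ Icc 1 (NN ε T),
        if b.1 ∣ n then aa ε T n * d2 (b.2 * (n / b.1)) / Real.sqrt ((n : ℝ) * (b.2 * (n / b.1) : ℕ))
          else 0) / Real.log T ^ 16) atTop
      (𝓝 (aF 4 * IW2c ε)) := by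
  have haF : 0 < aF 4 := aF_pos (by norm_num)
  have h := karamata hv.1 12 (aF 4 / kp) (by positivity) ![4, 4, 4]
    (by intro i; fin_cases i <;> simp) (fun s hs => hv.2 s hs) (ph ε) (ph_cont ε) (1 / 2)
    (fun u hu hi => by
      apply ph_zero hε
      obtain ⟨i, hi⟩ := hi
      fin_cases i
      · left
        simp only [Fin.zero_eta] at hi
        linarith
      · right; left
        simp only [Fin.mk_one] at hi
        linarith
      · right; right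
        have := hu 0
        simp only [Fin.reduceFinMk] at hi
        linarith) (by norm_num)
  have h2 := (h.comp Real.tendsto_log_atTop).const_mul kp
  have e : kp * (aF 4 / kp * ∫ u : Fin 3 → ℝ, Gd ![4, 4, 4] u * ph ε u) = aF 4 * IW2c ε := by
    unfold IW2c ph
    field_simp
  rw [e] at h2
  refine h2.congr' ?_
  filter_upwards [eventually_gt_atTop 1] with T hT
  have hL : 0 < Real.log T := Real.log_pos hT
  simp only [Function.comp]
  rw [sum_eq hε hT, show (12:ℝ) = ((12:ℕ):ℝ) by norm_num, Real.rpow_natCast]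
  have e16 : Real.log T ^ 16 = Real.log T ^ 4 * Real.log T ^ 12 := by ring
  rw [e16]
  field_simp

end

end Pool.Agent.TH158.E8.MS4
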