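import Pool.Agent.TH158.E8.Defs
import Pool.Agent.H306R2.Karamata2
import Pool.Agent.H306R2.EPLim
import Pool.Agent.H768R2.SM_T2

set_option autoImplicit false

/-!
Eighth moment lower bound, task MS5: the fourth moment of `A`.
-/

namespace Pool.Agent.TH158.E8.MS5

open Finset Filter Topology MeasureTheory Complex
open Pool.Agent.H306R2 Pool.Agent.H306R2.SM Pool.Agent.H223.EM

noncomputable section

/-! ### elementary facts -/

lemma d2_nonneg (n : ℕ) : 0 ≤ d2 n := by unfold d2; positivity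

lemma d2_le (n : ℕ) : d2 n ≤ n := by
  unfold d2
  exact_mod_cast Nat.card_divisors_le_self n

/-- the test function -/
def ph (ε : ℝ) (u : Fin 4 → ℝ) : ℝ :=
  pt ε (u 0 + u 1) * pt ε (u 2 + u 3) * pt ε (u 0 + u 2) * pt ε (u 1 + u 3)

lemma ph_cont (ε : ℝ) : Continuous (ph ε) := by
  unfold ph
  have h : ∀ i j : Fin 4, Continuous fun u : Fin 4 → ℝ => pt ε (u i + u j) := fun i j =>
    (pt_cont ε).comp ((continuous_apply i).add (continuous_apply j))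
  exact (((h 0 1).mul (h 2 3)).mul (h 0 2)).mul (h 1 3)

lemma ph_nonneg (ε : ℝ) (u : Fin 4 → ℝ) : 0 ≤ ph ε u := by
  unfold ph
  have := pt_nonneg ε (u 0 + u 1)
  have := pt_nonneg ε (u 2 + u 3)
  have := pt_nonneg ε (u 0 + u 2)
  have := pt_nonneg ε (u 1 + u 3)
  positivity

lemma ph_zero {ε : ℝ} (hε : 0 < ε) (u : Fin 4 → ℝ) (hu : ∀ i, 0 ≤ u i) (h : ∃ i, 1 / 2 ≤ u i) :
    ph ε u = 0 := by
  obtain ⟨i, hi⟩ := h
  have h0 := hu 0
  have h1 := hu 1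
  have h2 := hu 2
  have h3 := hu 3
  unfold ph
  fin_cases i
  · rw [pt_zero hε (x := u 0 + u 1) (by simp only [Fin.zero_eta] at hi; linarith)]; ring
  · rw [pt_zero hε (x := u 0 + u 1) (by simp only [Fin.mk_one] at hi; linarith)]; ring
  · rw [pt_zero hε (x := u 2 + u 3) (by
      have : 1 / 2 ≤ u 2 := hi
      linarith)]; ring
  · rw [pt_zero hε (x := u 2 + u 3) (by
      have : 1 / 2 ≤ u 3 := hi
      linarith)]; ring

/-- coefficients of `A` with the square root -/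
def gg (ε T : ℝ) (n : ℕ) : ℝ := aa ε T n / Real.sqrt n

lemma aa_nonneg (ε T : ℝ) (n : ℕ) : 0 ≤ aa ε T n := mul_nonneg (d2_nonneg n) (pt_nonneg _ _)

lemma gg_nonneg (ε T : ℝ) (n : ℕ) : 0 ≤ gg ε T n := div_nonneg (aa_nonneg ε T n) (Real.sqrt_nonneg _)

lemma gg_le (ε T : ℝ) (n : ℕ) (hn : 1 ≤ n) : gg ε T n ≤ n := by
  unfold gg aa
  have hn' : (1 : ℝ) ≤ n := by exact_mod_cast hn
  have h1 : 1 ≤ Real.sqrt n := Real.one_le_sqrt.mpr hn'
  rw [div_le_iff₀ (by linarith)]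
  have h2 := d2_le n
  have h3 := pt_le_one ε (Real.log n / Real.log T)
  have h4 := pt_nonneg ε (Real.log n / Real.log T)
  calc d2 n * pt ε (Real.log n / Real.log T) ≤ n * 1 :=
        mul_le_mul h2 h3 h4 (by linarith)
    _ ≤ n * Real.sqrt n := mul_le_mul_of_nonneg_left h1 (by linarith)

/-- pairs with product `m` -/
def Fm (N m : ℕ) : Finset (ℕ × ℕ) := ((Icc 1 N) ×ˢ (Icc 1 N)).filter fun p => p.1 * p.2 = m

/-- coefficients of `A²` -/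
def yy (ε T : ℝ) (N m : ℕ) : ℝ := ∑ p ∈ Fm N m, gg ε T p.1 * gg ε T p.2

lemma yy_nonneg (ε T : ℝ) (N m : ℕ) : 0 ≤ yy ε T N m :=
  sum_nonneg fun p _ => mul_nonneg (gg_nonneg ε T _) (gg_nonneg ε T _)

lemma maps (N : ℕ) : ∀ p ∈ (Icc 1 N) ×ˢ (Icc 1 N), p.1 * p.2 ∈ Icc 1 (N * N) := by
  intro p hp
  rw [mem_product, mem_Icc, mem_Icc] at hp
  rw [mem_Icc]
  exact ⟨Nat.mul_pos hp.1.1 hp.2.1, Nat.mul_le_mul hp.1.2 hp.2.2⟩

lemma sq_eq (ε T t : ℝ) : Ap ε T t ^ 2 =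
    ∑ m ∈ Icc 1 (NN ε T * NN ε T), ((yy ε T (NN ε T) m : ℝ) : ℂ) * ef (-(Real.log m)) t := by
  unfold Ap
  rw [sq, sum_mul_sum, ← sum_product', ← sum_fiberwise_of_maps_to (maps (NN ε T))]
  refine sum_congr rfl fun m _ => ?_
  unfold yy Fm
  push_cast
  rw [sum_mul]
  refine sum_congr rfl fun p hp => ?_
  rw [mem_filter, mem_product, mem_Icc, mem_Icc] at hp
  obtain ⟨⟨⟨h1, -⟩, h2, -⟩, h3⟩ := hp
  have e1 : ef (-(Real.log m)) t = ef (-(Real.log p.1)) t * ef (-(Real.log p.2)) t := by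
    unfold ef
    rw [← Complex.exp_add]
    congr 1
    rw [← h3]
    push_cast
    have hp1 : (p.1 : ℝ) ≠ 0 := by positivity
    have hp2 : (p.2 : ℝ) ≠ 0 := by positivity
    rw [Real.log_mul hp1 hp2]
    push_cast
    ring
  rw [e1]
  unfold gg
  push_cast
  ring

lemma sum_yy (ε T : ℝ) (N : ℕ) : ∑ m ∈ Icc 1 (N * N), yy ε T N m = (∑ n ∈ Icc 1 N, gg ε T n) ^ 2 := by
  rw [sq, sum_mul_sum, ← sum_product', ← sum_fiberwise_of_maps_to (maps N)]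
  rfl

lemma sum_yy_le (ε T : ℝ) (N : ℕ) : ∑ m ∈ Icc 1 (N * N), yy ε T N m ≤ (N : ℝ) ^ 4 := by
  rw [sum_yy]
  have h1 : ∑ n ∈ Icc 1 N, gg ε T n ≤ (N : ℝ) ^ 2 := by
    calc ∑ n ∈ Icc 1 N, gg ε T n ≤ ∑ n ∈ Icc 1 N, (N : ℝ) := by
          refine sum_le_sum fun n hn => ?_
          rw [mem_Icc] at hn
          exact (gg_le ε T n hn.1).trans (by exact_mod_cast hn.2)
      _ = (N : ℝ) ^ 2 := by rw [sum_const, Nat.card_Icc, nsmul_eq_mul]; push_cast; ring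
  have h0 : 0 ≤ ∑ n ∈ Icc 1 N, gg ε T n := sum_nonneg fun n _ => gg_nonneg ε T n
  calc (∑ n ∈ Icc 1 N, gg ε T n) ^ 2 ≤ ((N : ℝ) ^ 2) ^ 2 := pow_le_pow_left₀ h0 h1 2
    _ = _ := by ring

/-! ### parametrisation of `n1 n2 = n3 n4` -/

/-- the parametrisation -/
def iq (x : (ℕ × ℕ) × (ℕ × ℕ)) : Fin 4 → ℕ :=
  ![Nat.gcd x.1.1 x.2.1, x.1.1 / Nat.gcd x.1.1 x.2.1, x.2.1 / Nat.gcd x.1.1 x.2.1,
    x.1.2 / (x.2.1 / Nat.gcd x.1.1 x.2.1)]

/-- quadruples -/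
def QQ (N : ℕ) : Finset ((ℕ × ℕ) × (ℕ × ℕ)) :=
  (((Icc 1 N) ×ˢ (Icc 1 N)) ×ˢ ((Icc 1 N) ×ˢ (Icc 1 N))).filter
    fun x => x.1.1 * x.1.2 = x.2.1 * x.2.2

lemma iq_spec {N : ℕ} {x : (ℕ × ℕ) × (ℕ × ℕ)} (hx : x ∈ QQ N) :
    x.1.1 = iq x 0 * iq x 1 ∧ x.1.2 = iq x 2 * iq x 3 ∧ x.2.1 = iq x 0 * iq x 2 ∧
      x.2.2 = iq x 1 * iq x 3 ∧ Nat.Coprime (iq x 1) (iq x 2) ∧ ∀ i, iq x i ≠ 0 := by
  obtain ⟨⟨n1, n2⟩, ⟨n3, n4⟩⟩ := x
  unfold QQ at hx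
  simp only [mem_filter, mem_product, mem_Icc] at hx
  obtain ⟨⟨⟨⟨h1, -⟩, h2, -⟩, ⟨h3, -⟩, h4, -⟩, h⟩ := hx
  have hg : 0 < Nat.gcd n1 n3 := Nat.gcd_pos_of_pos_left _ h1
  obtain ⟨a, ha⟩ := Nat.gcd_dvd_left n1 n3
  obtain ⟨b, hb⟩ := Nat.gcd_dvd_right n1 n3
  set g := Nat.gcd n1 n3 with hgd
  have e0 : iq ((n1, n2), (n3, n4)) 0 = g := rfl
  have e1 : iq ((n1, n2), (n3, n4)) 1 = a := by
    show n1 / g = a
    rw [ha, Nat.mul_div_cancel_left _ hg]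
  have e2 : iq ((n1, n2), (n3, n4)) 2 = b := by
    show n3 / g = b
    rw [hb, Nat.mul_div_cancel_left _ hg]
  have e3 : iq ((n1, n2), (n3, n4)) 3 = n2 / b := by
    show n2 / (n3 / g) = n2 / b
    rw [show n3 / g = b by rw [hb, Nat.mul_div_cancel_left _ hg]]
  have hcop : Nat.Coprime a b := by
    have h5 := Nat.coprime_div_gcd_div_gcd hg (m := n1) (n := n3)
    rw [← hgd] at h5
    rwa [show n1 / g = a by rw [ha, Nat.mul_div_cancel_left _ hg],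
      show n3 / g = b by rw [hb, Nat.mul_div_cancel_left _ hg]] at h5
  have ha0 : 0 < a := by
    rcases Nat.eq_zero_or_pos a with h0 | h0
    · rw [h0, mul_zero] at ha; omega
    · exact h0
  have hb0 : 0 < b := by
    rcases Nat.eq_zero_or_pos b with h0 | h0
    · rw [h0, mul_zero] at hb; omega
    · exact h0
  have h6 : a * n2 = b * n4 := by
    have h7 : g * (a * n2) = g * (b * n4) := by
      calc g * (a * n2) = n1 * n2 := by rw [ha]; ring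
        _ = n3 * n4 := h
        _ = g * (b * n4) := by rw [hb]; ring
    exact Nat.eq_of_mul_eq_mul_left hg h7
  have h8 : b ∣ n2 := by
    have : b ∣ a * n2 := ⟨n4, h6⟩
    exact hcop.symm.dvd_of_dvd_mul_left this
  obtain ⟨c, hc⟩ := h8
  have e3' : n2 / b = c := by rw [hc, Nat.mul_div_cancel_left _ hb0]
  have h9 : n4 = a * c := by
    have : b * n4 = b * (a * c) := by rw [← h6, hc]; ring
    exact Nat.eq_of_mul_eq_mul_left hb0 this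
  have hc0 : 0 < c := by
    rcases Nat.eq_zero_or_pos c with h0 | h0
    · rw [h0, mul_zero] at hc; omega
    · exact h0
  refine ⟨?_, ?_, ?_, ?_, ?_, ?_⟩
  · rw [e0, e1]; exact ha
  · rw [e2, e3, e3']; exact hc
  · rw [e0, e2]; exact hb
  · rw [e1, e3, e3']; exact h9
  · rw [e1, e2]; exact hcop
  · intro i
    fin_cases i
    · show iq ((n1, n2), (n3, n4)) 0 ≠ 0
      rw [e0]; omega
    · show iq ((n1, n2), (n3, n4)) 1 ≠ 0
      rw [e1]; omega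
    · show iq ((n1, n2), (n3, n4)) 2 ≠ 0
      rw [e2]; omega
    · show iq ((n1, n2), (n3, n4)) 3 ≠ 0
      rw [e3, e3']; omega

lemma iq_inj (N : ℕ) : Set.InjOn iq (QQ N : Set ((ℕ × ℕ) × (ℕ × ℕ))) := by
  intro x hx y hy h
  obtain ⟨a1, a2, a3, a4, -⟩ := iq_spec (Finset.mem_coe.mp hx)
  obtain ⟨b1, b2, b3, b4, -⟩ := iq_spec (Finset.mem_coe.mp hy)
  refine Prod.ext (Prod.ext ?_ ?_) (Prod.ext ?_ ?_)
  · rw [a1, b1, h]
  · rw [a2, b2, h]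
  · rw [a3, b3, h]
  · rw [a4, b4, h]

lemma sum_sq_yy (ε T : ℝ) (N : ℕ) : ∑ m ∈ Icc 1 (N * N), yy ε T N m ^ 2 =
    ∑ x ∈ QQ N, (gg ε T x.1.1 * gg ε T x.1.2) * (gg ε T x.2.1 * gg ε T x.2.2) := by
  have h1 : ∀ m, yy ε T N m ^ 2 = ∑ x ∈ (((Icc 1 N) ×ˢ (Icc 1 N)) ×ˢ ((Icc 1 N) ×ˢ (Icc 1 N))).filter
      (fun x => x.1.1 * x.1.2 = m ∧ x.2.1 * x.2.2 = m),
      (gg ε T x.1.1 * gg ε T x.1.2) * (gg ε T x.2.1 * gg ε T x.2.2) := by
    intro m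
    unfold yy Fm
    rw [sq, sum_mul_sum, ← sum_product']
    refine sum_congr ?_ fun x _ => rfl
    ext x
    simp only [mem_product, mem_filter]
    tauto
  simp_rw [h1]
  have h2 : ∀ x ∈ QQ N, x.1.1 * x.1.2 ∈ Icc 1 (N * N) := by
    intro x hx
    unfold QQ at hx
    rw [mem_filter, mem_product] at hx
    exact maps N _ hx.1.1
  rw [← sum_fiberwise_of_maps_to h2]
  refine sum_congr rfl fun m _ => ?_
  refine sum_congr ?_ fun x _ => rfl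
  ext x
  unfold QQ
  simp only [mem_product, mem_filter]
  constructor
  · rintro ⟨h3, h4, h5⟩
    exact ⟨⟨h3, h4.trans h5.symm⟩, h4⟩
  · rintro ⟨⟨h3, h4⟩, h5⟩
    exact ⟨h3, h5, h4.symm.trans h5⟩

lemma term_eq (ε T : ℝ) {N : ℕ} {x : (ℕ × ℕ) × (ℕ × ℕ)} (hx : x ∈ QQ N) :
    (gg ε T x.1.1 * gg ε T x.1.2) * (gg ε T x.2.1 * gg ε T x.2.2) =
      wN (iq x) * ph ε (pos (Real.log T) (iq x)) := by
  obtain ⟨a1, a2, a3, a4, hc, h0⟩ := iq_spec hx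
  rw [a1, a2, a3, a4]
  generalize iq x = b at *
  have p0 : (0 : ℝ) < b 0 := by exact_mod_cast Nat.pos_of_ne_zero (h0 0)
  have p1 : (0 : ℝ) < b 1 := by exact_mod_cast Nat.pos_of_ne_zero (h0 1)
  have p2 : (0 : ℝ) < b 2 := by exact_mod_cast Nat.pos_of_ne_zero (h0 2)
  have p3 : (0 : ℝ) < b 3 := by exact_mod_cast Nat.pos_of_ne_zero (h0 3)
  have l : ∀ i j : Fin 4, Real.log ((b i * b j : ℕ) : ℝ) / Real.log T =
      pos (Real.log T) b i + pos (Real.log T) b j := by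
    intro i j
    have pi : (0 : ℝ) < b i := by exact_mod_cast Nat.pos_of_ne_zero (h0 i)
    have pj : (0 : ℝ) < b j := by exact_mod_cast Nat.pos_of_ne_zero (h0 j)
    push_cast
    rw [Real.log_mul pi.ne' pj.ne', add_div]
    rfl
  unfold gg aa wN ph
  rw [if_pos ⟨hc, h0⟩, l 0 1, l 2 3, l 0 2, l 1 3]
  have s : Real.sqrt ((b 0 * b 1 : ℕ) : ℝ) * Real.sqrt ((b 2 * b 3 : ℕ) : ℝ) *
      (Real.sqrt ((b 0 * b 2 : ℕ) : ℝ) * Real.sqrt ((b 1 * b 3 : ℕ) : ℝ)) =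
      (b 0 : ℝ) * b 1 * b 2 * b 3 := by
    push_cast
    rw [← Real.sqrt_mul (by positivity), ← Real.sqrt_mul (by positivity),
      ← Real.sqrt_mul (by positivity)]
    rw [show (b 0 : ℝ) * b 1 * (b 2 * b 3) * (b 0 * b 2 * (b 1 * b 3)) =
      ((b 0 : ℝ) * b 1 * b 2 * b 3) ^ 2 by ring]
    exact Real.sqrt_sq (by positivity)
  rw [← s]
  have q1 : Real.sqrt ((b 0 * b 1 : ℕ) : ℝ) ≠ 0 := by
    apply (Real.sqrt_pos.mpr _).ne'; push_cast; positivity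
  have q2 : Real.sqrt ((b 2 * b 3 : ℕ) : ℝ) ≠ 0 := by
    apply (Real.sqrt_pos.mpr _).ne'; push_cast; positivity
  have q3 : Real.sqrt ((b 0 * b 2 : ℕ) : ℝ) ≠ 0 := by
    apply (Real.sqrt_pos.mpr _).ne'; push_cast; positivity
  have q4 : Real.sqrt ((b 1 * b 3 : ℕ) : ℝ) ≠ 0 := by
    apply (Real.sqrt_pos.mpr _).ne'; push_cast; positivity
  field_simp

lemma sum_sq_le (H : KH 4 wN) {ε T : ℝ} (hε : 0 < ε) (hT : 1 < T) (N : ℕ) :
    ∑ m ∈ Icc 1 (N * N), yy ε T N m ^ 2 ≤ ∑' b, wN b * ph ε (pos (Real.log T) b) := by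
  have hL : 0 < Real.log T := Real.log_pos hT
  have hs := tf_summable H (ph ε) (ph_cont ε) (1 / 2) (fun u hu h => ph_zero hε u hu h)
    (by norm_num) hL
  rw [sum_sq_yy, sum_congr rfl fun x hx => term_eq ε T hx]
  rw [← sum_image (g := iq) (f := fun b => wN b * ph ε (pos (Real.log T) b)) (iq_inj N)]
  exact hs.sum_le_tsum _ fun b _ => mul_nonneg (H.hw b) (ph_nonneg ε _)

/-! ### small powers -/

lemma small_pow' (ε : ℝ) (hε : 0 < ε) : ∀ᶠ T : ℝ in atTop, ∀ k : ℕ, kr' T k →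
    ((k / T) / (1 / (2 * T ^ (1 - ε)))) ^ (k + 1) ≤ T ^ (-5 : ℝ) := by
  have h1 : ∀ᶠ T : ℝ in atTop, 8 * Real.log T ^ 2 ≤ T ^ (ε / 2) := by
    have h := (isLittleO_log_rpow_atTop (r := ε / 4) (by positivity)).bound (c := 1 / 3) (by norm_num)
    filter_upwards [h, eventually_gt_atTop 1] with T hT hT1
    have hL : 0 ≤ Real.log T := (Real.log_pos hT1).le
    rw [Real.norm_of_nonneg hL, Real.norm_of_nonneg (by positivity)] at hT
    have e : T ^ (ε / 2) = (T ^ (ε / 4)) ^ 2 := by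
      rw [← Real.rpow_natCast, ← Real.rpow_mul (by linarith)]
      congr 1; push_cast; ring
    rw [e]
    have : (3 * Real.log T) ^ 2 ≤ (T ^ (ε / 4)) ^ 2 := by
      apply pow_le_pow_left₀ (by positivity); linarith
    nlinarith
  have h2 : ∀ᶠ T : ℝ in atTop, 10 / ε ≤ Real.log T ^ 2 :=
    (tendsto_pow_atTop (by norm_num)).comp Real.tendsto_log_atTop |>.eventually_ge_atTop _
  filter_upwards [h1, h2, eventually_gt_atTop 1] with T hT1 hT2 hT k hk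
  have hT0 : 0 < T := by linarith
  have e1 : ((k:ℝ) / T) / (1 / (2 * T ^ (1 - ε))) = 2 * k * T ^ (-ε) := by
    rw [show (1 - ε) = 1 + (-ε) by ring, Real.rpow_add hT0, Real.rpow_one]
    field_simp
  rw [e1]
  have e2 : 2 * (k:ℝ) * T ^ (-ε) ≤ T ^ (-(ε / 2)) := by
    have : 2 * (k:ℝ) ≤ T ^ (ε / 2) := by linarith [hk.2]
    calc 2 * (k:ℝ) * T ^ (-ε) ≤ T ^ (ε / 2) * T ^ (-ε) :=
          mul_le_mul_of_nonneg_right this (by positivity)
      _ = T ^ (-(ε / 2)) := by rw [← Real.rpow_add hT0]; congr 1; ring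
  calc (2 * (k:ℝ) * T ^ (-ε)) ^ (k + 1) ≤ (T ^ (-(ε / 2))) ^ (k + 1) :=
        pow_le_pow_left₀ (by positivity) e2 _
    _ = T ^ (-(ε / 2) * ((k + 1 : ℕ) : ℝ)) := by
        rw [← Real.rpow_natCast, ← Real.rpow_mul hT0.le]
    _ ≤ T ^ (-5 : ℝ) := by
        apply Real.rpow_le_rpow_of_exponent_le hT.le
        have h3 : 10 / ε ≤ (k:ℝ) := hT2.trans hk.1
        rw [div_le_iff₀ hε] at h3
        push_cast
        nlinarith

/-- separation of the logarithms of integers -/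
lemma log_sep {M : ℝ} {a b : ℕ} (ha : 1 ≤ a) (hb : 1 ≤ b) (hab : a ≠ b) (haM : (a : ℝ) ≤ M)
    (hbM : (b : ℝ) ≤ M) : 1 / (2 * M) ≤ |Real.log a - Real.log b| := by
  have hM : 0 < M := lt_of_lt_of_le (by exact_mod_cast ha) haM
  wlog h : a < b generalizing a b
  · rw [abs_sub_comm]
    exact this hb ha hab.symm hbM haM (by omega)
  have ha0 : (0 : ℝ) < a := by exact_mod_cast ha
  have hb0 : (0 : ℝ) < b := by exact_mod_cast hb
  have h1 := Real.one_sub_inv_le_log_of_pos (show (0 : ℝ) < b / a by positivity)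
  rw [Real.log_div hb0.ne' ha0.ne', inv_div] at h1
  have h2 : (a : ℝ) + 1 ≤ b := by exact_mod_cast h
  have h3 : 1 / (b : ℝ) ≤ 1 - a / b := by
    rw [le_sub_iff_add_le, ← add_div, div_le_one hb0]; linarith
  have h4 : 1 / (2 * M) ≤ 1 / (b : ℝ) := one_div_le_one_div_of_le hb0 (by linarith)
  rw [abs_sub_comm]
  exact le_trans (by linarith) (le_abs_self _)

/-- MS5. fourth moment of `A` (from MI5) -/
theorem A_fourth_of (MI5 : KH 4 wN ∧ ∀ s : Fin 4 → ℝ, (∀ i, 0 < s i) →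
    Tendsto (fun L : ℝ => (∑' b : Fin 4 → ℕ, wN b * ∏ i, (b i : ℝ) ^ (-(s i / L))) / L ^ (16 : ℝ))
      atTop (𝓝 (aF 4 * ∏ i, (s i) ^ (-((![4, 4, 4, 4] : Fin 4 → ℝ) i)))))
    (ε : ℝ) (hε : 0 < ε) (hε1 : ε < 1 / 8) (c : ℝ) (hc : aF 4 * IN ε < c) :
    ∀ᶠ T : ℝ in atTop, ∀ k : ℕ, kr' T k →
      ∫ t in Set.Ioi (0 : ℝ), om k (k / T) t * ‖Ap ε T t‖ ^ 4 ≤ c * Real.log T ^ 16 := by
  obtain ⟨H, hlim⟩ := MI5
  have haF : 0 < aF 4 := aF_pos (by norm_num)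
  have hk := karamata H 16 (aF 4) haF.le ![4, 4, 4, 4] (by intro i; fin_cases i <;> simp) hlim
    (ph ε) (ph_cont ε) (1 / 2) (fun u hu h => ph_zero hε u hu h) (by norm_num)
  have hIN : (∫ u : Fin 4 → ℝ, Gd ![4, 4, 4, 4] u * ph ε u) = IN ε := rfl
  rw [hIN] at hk
  have hmid : aF 4 * IN ε < (aF 4 * IN ε + c) / 2 := by linarith
  have h1 := (hk.comp Real.tendsto_log_atTop).eventually (eventually_lt_nhds hmid)
  have h2 : ∀ᶠ T : ℝ in atTop, 2 / (c - aF 4 * IN ε) ≤ Real.log T ^ 16 :=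
    (tendsto_pow_atTop (by norm_num)).comp Real.tendsto_log_atTop |>.eventually_ge_atTop _
  filter_upwards [h1, h2, small_pow' ε hε, eventually_gt_atTop (Real.exp 1)] with T h1 h2 h3 hT k hkr
  have hT1 : 1 < T := lt_trans (by
    have := Real.add_one_lt_exp (show (1 : ℝ) ≠ 0 by norm_num)
    linarith) hT
  have hT0 : 0 < T := by linarith
  have hL : 1 < Real.log T := by
    rw [Real.lt_log_iff_exp_lt hT0]; exact hT
  have hk1 : (1 : ℝ) < k := by nlinarith [hkr.1]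
  have hδ : 0 < (k : ℝ) / T := by positivity
  set N := NN ε T with hN
  have hNT : (N : ℝ) ≤ T ^ (1 / 2 - ε) := by
    rw [hN]; unfold NN; exact Nat.floor_le (by positivity)
  have hNN : ((N * N : ℕ) : ℝ) ≤ T ^ (1 - ε) := by
    push_cast
    calc (N : ℝ) * N ≤ T ^ (1 / 2 - ε) * T ^ (1 / 2 - ε) :=
          mul_le_mul hNT hNT (by positivity) (by positivity)
      _ = T ^ ((1 / 2 - ε) + (1 / 2 - ε)) := (Real.rpow_add hT0 _ _).symm
      _ ≤ T ^ (1 - ε) := Real.rpow_le_rpow_of_exponent_le hT1.le (by linarith)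
  have hG : 0 < 1 / (2 * T ^ (1 - ε)) := by positivity
  have hnd := Pool.Agent.H768R2.SM_T2.norm_diag (Icc 1 (N * N))
    (fun m => ((yy ε T N m : ℝ) : ℂ)) (fun m => Real.log m) (1 / (2 * T ^ (1 - ε))) hG (by
      intro i hi j hj hij
      rw [mem_Icc] at hi hj
      exact log_sep hi.1 hj.1 hij (le_trans (by exact_mod_cast hi.2) hNN)
        (le_trans (by exact_mod_cast hj.2) hNN)) k (k / T) hδ
  have e1 : (∫ t in Set.Ioi (0 : ℝ), om k (k / T) t * ‖Ap ε T t‖ ^ 4) =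
      ∫ t in Set.Ioi (0 : ℝ), om k (k / T) t *
        ‖∑ i ∈ Icc 1 (N * N), ((yy ε T N i : ℝ) : ℂ) * ef (-(Real.log i)) t‖ ^ 2 := by
    refine integral_congr_ae (Eventually.of_forall fun t => ?_)
    simp only
    rw [← sq_eq, norm_pow, ← pow_mul]
  rw [e1]
  have h4 := (abs_le.mp hnd).2
  have e2 : ∑ i ∈ Icc 1 (N * N), ‖((yy ε T N i : ℝ) : ℂ)‖ ^ 2 =
      ∑ m ∈ Icc 1 (N * N), yy ε T N m ^ 2 := by
    refine sum_congr rfl fun m _ => ?_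
    rw [Complex.norm_real, Real.norm_eq_abs, sq_abs]
  have e3 : ∑ i ∈ Icc 1 (N * N), ‖((yy ε T N i : ℝ) : ℂ)‖ = ∑ m ∈ Icc 1 (N * N), yy ε T N m := by
    refine sum_congr rfl fun m _ => ?_
    rw [Complex.norm_real, Real.norm_of_nonneg (yy_nonneg ε T N m)]
  rw [e2, e3] at h4
  have h5 : (∑ m ∈ Icc 1 (N * N), yy ε T N m) ^ 2 ≤ T ^ (4 : ℝ) := by
    have h6 := sum_yy_le ε T N
    have h7 : 0 ≤ ∑ m ∈ Icc 1 (N * N), yy ε T N m := sum_nonneg fun m _ => yy_nonneg ε T N m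
    have h8 : (N : ℝ) ^ 4 ≤ T ^ (2 : ℝ) := by
      calc (N : ℝ) ^ 4 ≤ (T ^ (1 / 2 - ε)) ^ 4 := pow_le_pow_left₀ (by positivity) hNT 4
        _ = T ^ ((1 / 2 - ε) * (4 : ℕ)) := by rw [Real.rpow_mul hT0.le, Real.rpow_natCast]
        _ ≤ T ^ (2 : ℝ) := Real.rpow_le_rpow_of_exponent_le hT1.le (by push_cast; linarith)
    calc (∑ m ∈ Icc 1 (N * N), yy ε T N m) ^ 2 ≤ (T ^ (2 : ℝ)) ^ 2 :=
          pow_le_pow_left₀ h7 (h6.trans h8) 2
      _ = T ^ (4 : ℝ) := by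
          rw [← Real.rpow_natCast, ← Real.rpow_mul hT0.le]; norm_num
  have h9 : (∑ m ∈ Icc 1 (N * N), yy ε T N m) ^ 2 *
      ((k / T) / (1 / (2 * T ^ (1 - ε)))) ^ (k + 1) ≤ 1 := by
    calc _ ≤ T ^ (4 : ℝ) * T ^ (-5 : ℝ) :=
          mul_le_mul h5 (h3 k hkr) (by positivity) (by positivity)
      _ = T ^ (-1 : ℝ) := by rw [← Real.rpow_add hT0]; norm_num
      _ ≤ 1 := Real.rpow_le_one_of_one_le_of_nonpos hT1.le (by norm_num)
  have h10 := sum_sq_le H hε hT1 N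
  simp only [Function.comp] at h1
  have hL16 : (0 : ℝ) < Real.log T ^ (16 : ℝ) := by positivity
  rw [div_lt_iff₀ hL16] at h1
  have e16 : Real.log T ^ (16 : ℝ) = Real.log T ^ 16 := by
    rw [show (16 : ℝ) = ((16 : ℕ) : ℝ) by norm_num, Real.rpow_natCast]
  rw [e16] at h1
  have hcd : 0 < c - aF 4 * IN ε := by linarith
  rw [div_le_iff₀ hcd] at h2
  linarith

end

end Pool.Agent.TH158.E8.MS5
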