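import Mathlib

set_option autoImplicit false

/-! From short windows `[T, T + H]` to all intervals in `[0, T]`. -/

namespace Pool.Agent.TH158.E8

open Filter MeasureTheory Finset Topology

theorem window_all (f : ℝ → ℝ) (hf : Continuous f) (hf0 : ∀ t, 0 ≤ f t) (K : ℕ) (c C : ℝ)
    (hC : 0 ≤ C) (hc : C < c) (α β : ℝ) (hα : 0 ≤ α) (hαβ : α < β) (hβ : β ≤ 1)
    (hw : ∀ᶠ T : ℝ in atTop, ∀ H : ℝ, T / Real.log T ^ β ≤ H → H ≤ T →
      c * H * Real.log T ^ K ≤ ∫ t in T..(T + H), f t) :
    ∀ᶠ T : ℝ in atTop, ∀ U H : ℝ, 0 ≤ U → U + H ≤ T → T / Real.log T ^ α ≤ H →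
      C * H * Real.log T ^ K ≤ ∫ t in U..(U + H), f t := by
  have hc0 : 0 < c := lt_of_le_of_lt hC hc
  -- choice of the parameters
  obtain ⟨η, hη0, hη1, hη⟩ : ∃ η : ℝ, 0 < η ∧ η < 1 / 2 ∧ C < c * (1 - η) ^ (K + 1) := by
    have hcont : Tendsto (fun η : ℝ => c * (1 - η) ^ (K + 1)) (𝓝[>] 0) (𝓝 (c * (1 - 0) ^ (K + 1))) := by
      have : Continuous (fun η : ℝ => c * (1 - η) ^ (K + 1)) := by fun_prop
      exact (this.tendsto 0).mono_left nhdsWithin_le_nhds
    rw [sub_zero, one_pow, mul_one] at hcont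
    have h1 := hcont.eventually_const_lt hc
    have h2 : ∀ᶠ η : ℝ in 𝓝[>] 0, η ∈ Set.Ioo (0 : ℝ) (1 / 2) := Ioo_mem_nhdsGT (by norm_num)
    obtain ⟨η, h1, h2⟩ := (h1.and h2).exists
    exact ⟨η, h2.1, h2.2, h1⟩
  obtain ⟨n, hn⟩ := exists_nat_gt (1 / η)
  have hn0 : (0 : ℝ) < n := lt_trans (by positivity) hn
  set δ : ℝ := 1 / ((n : ℝ) + 1) with hδ
  have hδ0 : 0 < δ := by rw [hδ]; positivity
  have hδ1 : δ ≤ η := by
    rw [hδ, div_le_iff₀ (by positivity)]
    rw [div_lt_iff₀ hη0] at hn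
    nlinarith
  have hnδ : (n : ℝ) * δ = 1 - δ := by
    rw [hδ]
    field_simp
    ring
  obtain ⟨T0, hT0⟩ := eventually_atTop.mp hw
  have ev1 : ∀ᶠ T : ℝ in atTop, Real.log T ^ α ≤ δ * T ^ η := by
    have h := (isLittleO_log_rpow_rpow_atTop α hη0).bound hδ0
    filter_upwards [h, eventually_gt_atTop 1] with T h hT
    have hL : 0 < Real.log T := Real.log_pos hT
    have hT' : 0 < T := by linarith
    rwa [Real.norm_of_nonneg (by positivity), Real.norm_of_nonneg (by positivity)] at h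
  have ev2 : ∀ᶠ T : ℝ in atTop, 2 / δ ≤ Real.log T ^ (β - α) :=
    ((tendsto_rpow_atTop (by linarith)).comp Real.tendsto_log_atTop).eventually_ge_atTop _
  have ev3 : ∀ᶠ T : ℝ in atTop, T0 ≤ T ^ (1 - η) :=
    (tendsto_rpow_atTop (by linarith)).eventually_ge_atTop _
  filter_upwards [ev1, ev2, ev3, eventually_gt_atTop 1] with T e1 e2 e3 hT U H hU hUH hH
  have hTp : 0 < T := by linarith
  have hL : 0 < Real.log T := Real.log_pos hT
  have hLα : 0 < Real.log T ^ α := by positivity
  have hH0 : 0 < H := lt_of_lt_of_le (by positivity) hH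
  -- the step is large
  have hstep : T ^ (1 - η) ≤ δ * H := by
    have h1 : T ≤ H * Real.log T ^ α := by rwa [div_le_iff₀ hLα] at hH
    have h2 : T ≤ H * (δ * T ^ η) := h1.trans (mul_le_mul_of_nonneg_left e1 hH0.le)
    have h3 : T ^ (1 - η) * T ^ η = T := by
      rw [← Real.rpow_add hTp]
      norm_num
    have h4 : 0 < T ^ η := by positivity
    have h5 : T ^ (1 - η) * T ^ η ≤ (δ * H) * T ^ η := by
      rw [h3]
      calc T ≤ H * (δ * T ^ η) := h2
        _ = _ := by ring
    exact le_of_mul_le_mul_right h5 h4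
  have hpiece : ∀ j ∈ Ico 1 (n + 1), c * (δ * H) * ((1 - η) * Real.log T) ^ K ≤
      ∫ t in (U + (j : ℝ) * (δ * H))..(U + ((j + 1 : ℕ) : ℝ) * (δ * H)), f t := by
    intro j hj
    rw [mem_Ico] at hj
    have hj1 : (1 : ℝ) ≤ j := by exact_mod_cast hj.1
    have hjn : (j : ℝ) ≤ n := by exact_mod_cast (Nat.lt_succ_iff.mp hj.2)
    have hδH : 0 < δ * H := by positivity
    set Tj : ℝ := U + (j : ℝ) * (δ * H) with hTj
    have hTj1 : δ * H ≤ Tj := by
      rw [hTj]
      nlinarith
    have hTjT : Tj ≤ T := by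
      have : (j : ℝ) * (δ * H) ≤ H := by
        calc (j : ℝ) * (δ * H) ≤ n * (δ * H) := mul_le_mul_of_nonneg_right hjn hδH.le
          _ = (n * δ) * H := by ring
          _ = (1 - δ) * H := by rw [hnδ]
          _ ≤ 1 * H := mul_le_mul_of_nonneg_right (by linarith) hH0.le
          _ = H := one_mul H
      rw [hTj]
      linarith
    have hTjη : T ^ (1 - η) ≤ Tj := hstep.trans hTj1
    have hTj0 : 0 < Tj := lt_of_lt_of_le (by positivity) hTjη
    have hlog : (1 - η) * Real.log T ≤ Real.log Tj := by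
      rw [← Real.log_rpow hTp]
      exact Real.log_le_log (by positivity) hTjη
    have hlog0 : 0 < (1 - η) * Real.log T := mul_pos (by linarith) hL
    have hcond : Tj / Real.log Tj ^ β ≤ δ * H := by
      have a1 : ((1 - η) * Real.log T) ^ β ≤ Real.log Tj ^ β :=
        Real.rpow_le_rpow hlog0.le hlog (by linarith)
      have a2 : (1 / 2) * Real.log T ^ β ≤ ((1 - η) * Real.log T) ^ β := by
        rw [Real.mul_rpow (by linarith) hL.le]
        refine mul_le_mul_of_nonneg_right ?_ (by positivity)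
        calc (1 / 2 : ℝ) = (1 / 2 : ℝ) ^ (1 : ℝ) := (Real.rpow_one _).symm
          _ ≤ (1 / 2 : ℝ) ^ β :=
              Real.rpow_le_rpow_of_exponent_ge (by norm_num) (by norm_num) hβ
          _ ≤ (1 - η) ^ β := Real.rpow_le_rpow (by norm_num) (by linarith) (by linarith)
      have a3 : 0 < (1 / 2) * Real.log T ^ β := by positivity
      have a4 : Tj / Real.log Tj ^ β ≤ T / ((1 / 2) * Real.log T ^ β) := by
        apply div_le_div₀ hTp.le hTjT a3 (a2.trans a1)
      refine a4.trans ?_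
      have a5 : Real.log T ^ β = Real.log T ^ (β - α) * Real.log T ^ α := by
        rw [← Real.rpow_add hL]
        congr 1
        ring
      have a6 : T / ((1 / 2) * Real.log T ^ β) =
          (2 / Real.log T ^ (β - α)) * (T / Real.log T ^ α) := by
        rw [a5]
        field_simp
      rw [a6]
      have a7 : 2 / Real.log T ^ (β - α) ≤ δ := by
        rw [div_le_iff₀ (by positivity)]
        rwa [div_le_iff₀ hδ0, mul_comm] at e2
      exact mul_le_mul a7 hH (by positivity) hδ0.le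
    have h := hT0 Tj (e3.trans hTjη) (δ * H) hcond hTj1
    have e : U + ((j + 1 : ℕ) : ℝ) * (δ * H) = Tj + δ * H := by
      rw [hTj]
      push_cast
      ring
    rw [e]
    refine le_trans ?_ h
    refine mul_le_mul_of_nonneg_left ?_ (by positivity)
    exact pow_le_pow_left₀ hlog0.le hlog K
  have hsum := sum_le_sum hpiece
  rw [intervalIntegral.sum_integral_adjacent_intervals_Ico (a := fun j : ℕ => U + (j : ℝ) * (δ * H))
    (by omega) (fun j _ => hf.intervalIntegrable _ _)] at hsum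
  rw [sum_const, Nat.card_Ico, nsmul_eq_mul] at hsum
  have hend : U + ((n + 1 : ℕ) : ℝ) * (δ * H) = U + H := by
    have : ((n + 1 : ℕ) : ℝ) * δ = 1 := by
      rw [hδ]
      push_cast
      field_simp
    rw [← mul_assoc, this, one_mul]
  rw [hend] at hsum
  have hsub : ∫ t in (U + ((1 : ℕ) : ℝ) * (δ * H))..(U + H), f t ≤ ∫ t in U..(U + H), f t := by
    have h1 := intervalIntegral.integral_add_adjacent_intervals (a := U)
      (b := U + ((1 : ℕ) : ℝ) * (δ * H)) (c := U + H) (μ := volume)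
      (hf.intervalIntegrable _ _) (hf.intervalIntegrable _ _)
    have h2 : 0 ≤ ∫ t in U..(U + ((1 : ℕ) : ℝ) * (δ * H)), f t := by
      apply intervalIntegral.integral_nonneg
      · have : 0 ≤ ((1 : ℕ) : ℝ) * (δ * H) := by positivity
        linarith
      · intro t _
        exact hf0 t
    linarith
  refine le_trans ?_ (hsum.trans hsub)
  have hcast : ((n + 1 - 1 : ℕ) : ℝ) = n := by simp
  rw [hcast]
  calc C * H * Real.log T ^ K ≤ (c * (1 - η) ^ (K + 1)) * H * Real.log T ^ K := by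
        refine mul_le_mul_of_nonneg_right (mul_le_mul_of_nonneg_right hη.le hH0.le) (by positivity)
    _ = (1 - η) * (c * H * ((1 - η) * Real.log T) ^ K) := by
        rw [mul_pow, pow_succ]
        ring
    _ ≤ (1 - δ) * (c * H * ((1 - η) * Real.log T) ^ K) := by
        have h1 : 0 ≤ c * H * ((1 - η) * Real.log T) ^ K := by
          have : 0 ≤ (1 - η) * Real.log T := mul_nonneg (by linarith) hL.le
          positivity
        exact mul_le_mul_of_nonneg_right (by linarith) h1
    _ = (n * δ) * (c * H * ((1 - η) * Real.log T) ^ K) := by rw [hnδ]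
    _ = _ := by ring

end Pool.Agent.TH158.E8
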