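import Pool.Agent.H223.EM.FinalA
import Pool.Agent.H306R2.EvenConst
import Pool.Agent.H601R2.SMFrac
import Pool.Agent.H176RZ.Window
import Pool.Agent.TH158.E8.MS1
import Pool.Agent.TH158.E8.MS3
import Pool.Agent.TH158.E8.MS4
import Pool.Agent.TH158.E8.MS5
import Pool.Agent.TH158.E8.MB2
import Pool.Agent.TH158.E8.MB3
import Pool.Agent.TH158.E8.MH
import Pool.Agent.TH158.E8.MF1
import Pool.Agent.TH158.E8.MN1
import Pool.Agent.TH158.E8.MN2
import Pool.Agent.TH158.E8.MN3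
import Pool.Agent.TH158.E8.WinAll

set_option autoImplicit false

/-!
Eighth moment lower bound with a polynomial weight: assembly.
-/

namespace Pool.Agent.TH158.E8.Final

open Finset Filter Topology MeasureTheory Complex
open Pool.Agent.H306R2 Pool.Agent.H306R2.SM Pool.Agent.H223.EM

noncomputable section

/-- MS1 -/
theorem sum_c1_sq : MF1.S_MS1 := fun ε hε hε1 => MS1.sum_c1_sq_of w2_lim ε hε hε1

/-- MS2 -/
theorem sum_c2_sq : MF1.S_MS2 := fun ε hε hε1 => MS1.sum_c2_sq_of v2_lim ε hε hε1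

/-- MS3 -/
theorem sum_cross1 : MF1.S_MS3 := fun ε hε hε1 c hc => MS3.sum_cross1 w4_lim ε hε hε1 c hc

/-- MS4 -/
theorem sum_cross2 : MF1.S_MS4 := fun ε hε hε1 => MS4.sum_cross2_of v2_lim.1 v3_lim ε hε hε1

/-- MS5 -/
theorem A_fourth : MF1.S_MS5 := fun ε hε hε1 c hc => MS5.A_fourth_of wN_lim ε hε hε1 c hc

/-- MB2 -/
theorem cross2_eval : MF1.S_MB2 := fun ε hε hε1 =>
  MB2.cross2_eval (fun ε hε hε1 => Pool.Agent.H697.EM.MB1.B2_part ε hε hε1) ε hε hε1

/-- the smoothed moment -/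
theorem main_lower (ε : ℝ) (hε : 0 < ε) (hε1 : ε < 1 / 8) (w1c w2c w1n w2n n4 : ℝ)
    (h1 : 0 ≤ w1c + w2c) (hw1c : w1c < aF 4 * IW1c ε) (hw2c : w2c < aF 4 * IW2c ε)
    (hw1n : aF 4 * IW1n ε < w1n) (hw2n : aF 4 * IW2n ε < w2n) (hn : aF 4 * IN ε < n4) :
    ∀ᶠ T : ℝ in atTop, ∀ k : ℕ, kr' T k →
      (w1c + w2c) ^ 4 / (n4 * (w1n + w2n) ^ 2) * Real.log T ^ 16 ≤ M8 k T :=
  MF1.main_lower_of (fun ε h1 h2 => TW ε h1 h2) sum_c1_sq sum_c2_sq sum_cross1 sum_cross2 A_fourth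
    cross2_eval (MB3.B_norm_of sum_c1_sq sum_c2_sq) (fun ε T hT k hk => MH.holder8 ε T hT k hk)
    ε hε hε1 w1c w2c w1n w2n n4 h1 hw1c hw2c hw1n hw2n hn

/-- a Gamma window bound for the eighth moment with constant above `900` -/
theorem eighth_window : ∃ c1 : ℝ, 900 * aF 4 / (Nat.factorial 16 : ℝ) < c1 ∧
    ∀ᶠ T : ℝ in atTop, ∀ k : ℕ, kr' T k → c1 * Real.log T ^ 16 ≤ M8 k T := by
  have IW1_lim := MN1.IW1_lim
  have IW2_lim := MN2.IW2_lim
  have IN_lim := MN3.IN_lim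
  have ha : 0 < aF 4 := aF_pos (by norm_num)
  have hF : (0 : ℝ) < (Nat.factorial 16 : ℝ) := by exact_mod_cast Nat.factorial_pos 16
  set F : ℝ := (Nat.factorial 16 : ℝ) with hFdef
  set a : ℝ := aF 4 with hadef
  set η : ℝ := 1 / 100000 with hη
  have hη0 : 0 < η := by rw [hη]; norm_num
  have hη1 : η < 1 := by rw [hη]; norm_num
  have hW1 : (0 : ℝ) < 13655695949 / 408650711040 / F := by positivity
  have hW2 : (0 : ℝ) < 5579 / 589824 / F := by positivity
  have hN0 : (0 : ℝ) < 67531663 / 33126426869760 / F := by positivity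
  have e1 := IW1_lim.1.eventually_lt_const
    (show 13655695949 / 408650711040 / F < 13655695949 / 408650711040 / F * (1 + η) by nlinarith)
  have e2 := IW1_lim.2.eventually_const_lt
    (show 13655695949 / 408650711040 / F * (1 - η) < 13655695949 / 408650711040 / F by nlinarith)
  have e3 := IW2_lim.1.eventually_lt_const
    (show 5579 / 589824 / F < 5579 / 589824 / F * (1 + η) by nlinarith)
  have e4 := IW2_lim.2.eventually_const_lt
    (show 5579 / 589824 / F * (1 - η) < 5579 / 589824 / F by nlinarith)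
  have e5 := IN_lim.eventually_lt_const
    (show 67531663 / 33126426869760 / F < 67531663 / 33126426869760 / F * (1 + η) by nlinarith)
  have e6 : ∀ᶠ ε : ℝ in 𝓝[>] 0, ε ∈ Set.Ioo (0 : ℝ) (1 / 8) :=
    Ioo_mem_nhdsGT (by norm_num)
  obtain ⟨ε, h1, h2, h3, h4, h5, h6⟩ := (e1.and (e2.and (e3.and (e4.and (e5.and e6))))).exists
  have hm := main_lower ε h6.1 h6.2 (a * (13655695949 / 408650711040 / F * (1 - η)))
    (a * (5579 / 589824 / F * (1 - η))) (a * (13655695949 / 408650711040 / F * (1 + η)))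
    (a * (5579 / 589824 / F * (1 + η))) (a * (67531663 / 33126426869760 / F * (1 + η)))
    (by
      have h7 : 0 < 1 - η := by linarith
      positivity)
    (mul_lt_mul_of_pos_left h2 ha) (mul_lt_mul_of_pos_left h4 ha)
    (mul_lt_mul_of_pos_left h1 ha) (mul_lt_mul_of_pos_left h3 ha)
    (mul_lt_mul_of_pos_left h5 ha)
  set c1 : ℝ := (a * (13655695949 / 408650711040 / F * (1 - η)) + a * (5579 / 589824 / F * (1 - η))) ^ 4 /
    (a * (67531663 / 33126426869760 / F * (1 + η)) *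
      (a * (13655695949 / 408650711040 / F * (1 + η)) + a * (5579 / 589824 / F * (1 + η))) ^ 2) with hc1
  have hc1v : c1 = a / F * (((13655695949 / 408650711040 + 5579 / 589824) * (1 - η)) ^ 4 /
      ((67531663 / 33126426869760 * (1 + η)) * ((13655695949 / 408650711040 + 5579 / 589824) * (1 + η)) ^ 2)) := by
    rw [hc1]
    have h8 : (1 + η) ≠ 0 := by linarith
    field_simp
  have hnum : (900 : ℝ) < ((13655695949 / 408650711040 + 5579 / 589824) * (1 - η)) ^ 4 /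
      ((67531663 / 33126426869760 * (1 + η)) * ((13655695949 / 408650711040 + 5579 / 589824) * (1 + η)) ^ 2) := by
    rw [hη]
    norm_num
  refine ⟨c1, ?_, hm⟩
  rw [hc1v]
  have h9 : 0 < a / F := by positivity
  calc 900 * a / F = a / F * 900 := by ring
    _ < _ := mul_lt_mul_of_pos_left hnum h9

theorem eighth_frac (α : ℝ) (hα0 : 0 ≤ α) (hα1 : α < 1) : ∀ᶠ T : ℝ in atTop,
    900 * aF 4 / (Nat.factorial 16 : ℝ) * ((1 - α) * T) * Real.log T ^ 16 ≤
      ∫ t in (α * T)..T, ‖riemannZeta (1 / 2 + t * Complex.I)‖ ^ 8 := by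
  obtain ⟨c1, hc1, hm⟩ := eighth_window
  have ha : 0 < aF 4 := aF_pos (by norm_num)
  have hF : (0 : ℝ) < (Nat.factorial 16 : ℝ) := by exact_mod_cast Nat.factorial_pos 16
  have hc10 : 0 ≤ c1 := by
    refine le_trans ?_ hc1.le
    positivity
  have hcont : Continuous (fun t : ℝ => ‖riemannZeta (cl t)‖ ^ 8) :=
    (Pool.Agent.H56R2.EM_MF2.zeta_cont.norm).pow 8
  exact Pool.Agent.H601R2.SMFrac.window_frac (fun t : ℝ => ‖riemannZeta (cl t)‖ ^ 8) hcont
    (fun t => by positivity)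
    ⟨24 ^ 8, 16, fun t ht => by
      calc ‖riemannZeta (cl t)‖ ^ 8 ≤ (24 * (1 + t) ^ 2) ^ 8 :=
            pow_le_pow_left₀ (norm_nonneg _) (Pool.Agent.H56R2.EM_MF2.zeta_bound t ht) 8
        _ = _ := by ring⟩ c1 hc10 16 (by
      filter_upwards [hm] with T hT k hk1 hk2
      exact hT k ⟨hk1, hk2⟩) α hα0 hα1 _ hc1

/-- all intervals in `[0, T]` that are not too short -/
theorem eighth_all (α : ℝ) (hα0 : 0 ≤ α) (hα : α < 1 / 2) : ∀ᶠ T : ℝ in atTop,
    ∀ U H : ℝ, 0 ≤ U → U + H ≤ T → T / Real.log T ^ α ≤ H →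
    900 * aF 4 / (Nat.factorial 16 : ℝ) * H * Real.log T ^ 16 ≤
      ∫ t in U..(U + H), ‖riemannZeta (1 / 2 + t * Complex.I)‖ ^ 8 := by
  obtain ⟨c1, hc1, hm⟩ := eighth_window
  obtain ⟨c2, hc2, hc21⟩ := exists_between hc1
  have ha : 0 < aF 4 := aF_pos (by norm_num)
  have hF : (0 : ℝ) < (Nat.factorial 16 : ℝ) := by exact_mod_cast Nat.factorial_pos 16
  have hC0 : 0 ≤ 900 * aF 4 / (Nat.factorial 16 : ℝ) := by positivity
  have hc10 : 0 ≤ c1 := hC0.trans hc1.le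
  have hcont : Continuous (fun t : ℝ => ‖riemannZeta (cl t)‖ ^ 8) :=
    (Pool.Agent.H56R2.EM_MF2.zeta_cont.norm).pow 8
  obtain ⟨β, hβ1, hβ2⟩ := exists_between hα
  have hw := Pool.Agent.H176RZ.window_short (fun t : ℝ => ‖riemannZeta (cl t)‖ ^ 8) hcont
    (fun t => by positivity)
    ⟨24 ^ 8, 16, fun t ht => by
      calc ‖riemannZeta (cl t)‖ ^ 8 ≤ (24 * (1 + t) ^ 2) ^ 8 :=
            pow_le_pow_left₀ (norm_nonneg _) (Pool.Agent.H56R2.EM_MF2.zeta_bound t ht) 8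
        _ = _ := by ring⟩ c1 hc10 16 (by
      filter_upwards [hm] with T hT k hk1 hk2
      exact hT k ⟨hk1, hk2⟩) β (hα0.trans hβ1.le) hβ2 c2 hc21
  exact window_all (fun t : ℝ => ‖riemannZeta (cl t)‖ ^ 8) hcont (fun t => by positivity) 16 c2 _
    hC0 hc2 α β hα0 hβ1 (by linarith) hw

end

end Pool.Agent.TH158.E8.Final
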