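import Mathlib
import Pool.Agent.H306R2.Box
import Pool.Agent.TH158.E8.Defs
import Pool.Agent.TH158.E8.Poly

set_option autoImplicit false

/-!
Task MN3 of the eighth moment project: the norm integral.
-/

namespace Pool.Agent.TH158.E8.MN3

open Finset Filter Topology MeasureTheory
open Pool.Agent.H306R2 Pool.Agent.H306R2.SM Pool.Agent.H223.EM

noncomputable section

/-- Fubini, splitting off one coordinate -/
theorem split {n : ℕ} (i : Fin (n + 1)) (F : ℝ → (Fin n → ℝ) → ℝ)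
    (hF : Integrable (fun u : Fin (n + 1) → ℝ => F (u i) (fun j => u (i.succAbove j)))) :
    (∫ u : Fin (n + 1) → ℝ, F (u i) (fun j => u (i.succAbove j))) = ∫ a, ∫ v, F a v ∧
    ∀ᵐ a, Integrable (F a) := by
  have hp := volume_preserving_piFinSuccAbove (fun _ : Fin (n + 1) => ℝ) i
  let e := MeasurableEquiv.piFinSuccAbove (fun _ : Fin (n + 1) => ℝ) i
  have hcomp : (fun u : Fin (n + 1) → ℝ => F (u i) (fun j => u (i.succAbove j))) =
      (fun p : ℝ × (Fin n → ℝ) => F p.1 p.2) ∘ e := by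
    funext u
    rfl
  have hI : Integrable (fun p : ℝ × (Fin n → ℝ) => F p.1 p.2) := by
    rw [hcomp] at hF
    exact (hp.integrable_comp_emb e.measurableEmbedding).1 hF
  constructor
  · have h1 : (∫ u : Fin (n + 1) → ℝ, F (u i) (fun j => u (i.succAbove j))) =
        ∫ p : ℝ × (Fin n → ℝ), F p.1 p.2 :=
      hp.integral_comp e.measurableEmbedding (fun p : ℝ × (Fin n → ℝ) => F p.1 p.2)
    rw [h1]
    rw [Measure.volume_eq_prod] at hI ⊢
    exact integral_prod _ hI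
  · rw [Measure.volume_eq_prod] at hI
    exact hI.prod_right_ae

/-- an integral of a function supported in an interval -/
theorem hlp (f p : ℝ → ℝ) (A B : ℝ) (hAB : A ≤ B) (h1 : ∀ x ∈ Set.Ioo A B, f x = p x)
    (h0 : ∀ x ∉ Set.Ioo A B, f x = 0) : ∫ x, f x = ∫ x in A..B, p x := by
  rw [← setIntegral_eq_integral_of_forall_compl_eq_zero h0, intervalIntegral.integral_of_le hAB,
    integral_Ioc_eq_integral_Ioo]
  exact setIntegral_congr_fun measurableSet_Ioo h1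

/-- strict cutoff at `1/2` -/
def ind (x : ℝ) : ℝ := if x < 1 / 2 then 1 else 0

theorem ind_nonneg (x : ℝ) : 0 ≤ ind x := by unfold ind; split_ifs <;> norm_num

theorem ind_le_one (x : ℝ) : ind x ≤ 1 := by unfold ind; split_ifs <;> norm_num

theorem ind_meas : Measurable ind := by
  unfold ind
  exact Measurable.ite measurableSet_Iio measurable_const measurable_const

/-- weight with strict cutoff -/
def pI (x : ℝ) : ℝ := PP x * ind x

theorem pI_nonneg (x : ℝ) : 0 ≤ pI x := mul_nonneg (PP_nonneg x) (ind_nonneg x)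

theorem pI_le_one (x : ℝ) : pI x ≤ 1 := mul_le_one₀ (PP_le_one x) (ind_nonneg x) (ind_le_one x)

theorem pI_meas : Measurable pI := PP_cont.measurable.mul ind_meas

theorem pI_zero {x : ℝ} (h : 1 / 2 ≤ x) : pI x = 0 := by
  unfold pI ind
  rw [if_neg (not_lt.2 h), mul_zero]

theorem pI_eq {x : ℝ} (h0 : 0 ≤ x) (h1 : x < 1 / 2) : pI x = 1 - 9 / 2 * x + 16 / 3 * x ^ 2 := by
  unfold pI ind
  rw [if_pos h1, mul_one, PP_eq h0 h1.le]

theorem Gamma4 : Real.Gamma 4 = 6 := by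
  rw [show (4 : ℝ) = ((3 : ℕ) : ℝ) + 1 by norm_num, Real.Gamma_nat_eq_factorial 3]
  norm_num [Nat.factorial]

theorem gd4 (x : ℝ) : gd 4 x = if 0 < x then x ^ 3 / 6 else 0 := by
  unfold gd
  rw [Gamma4]
  split_ifs with h
  · congr 1
    have : (4 : ℝ) - 1 = ((3 : ℕ) : ℝ) := by norm_num
    rw [this, Real.rpow_natCast]
  · rfl

/-- the truncated density -/
def g4 (x : ℝ) : ℝ := gd 4 x * ct (1 / 2) x

theorem g4_int : Integrable g4 := gd_ct_integrable (by norm_num) _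

/-- the dominating function -/
def bd (u : Fin 4 → ℝ) : ℝ := ∏ i, g4 (u i)

theorem bd_int : Integrable bd :=
  Integrable.fintype_prod (ι := Fin 4) (f := fun _ => g4) (fun _ => g4_int)

theorem Gd_eq (u : Fin 4 → ℝ) : Gd ![4, 4, 4, 4] u = gd 4 (u 0) * gd 4 (u 1) * gd 4 (u 2) * gd 4 (u 3) := by
  unfold Gd
  rw [Fin.prod_univ_four]
  rfl

theorem gd4_nonneg (x : ℝ) : 0 ≤ gd 4 x := gd_nonneg (by norm_num) x

theorem gd4_zero {x : ℝ} (h : x ≤ 0) : gd 4 x = 0 := by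
  rw [gd4, if_neg (not_lt.2 h)]

/-- domination -/
theorem dom (u : Fin 4 → ℝ) (a b c d : ℝ) (ha : 0 ≤ a) (ha1 : a ≤ 1) (hb : 0 ≤ b) (hb1 : b ≤ 1)
    (hc : 0 ≤ c) (hc1 : c ≤ 1) (hd : 0 ≤ d) (hd1 : d ≤ 1) (ha0 : 1 / 2 ≤ u 0 + u 1 → a = 0)
    (hb0 : 1 / 2 ≤ u 2 + u 3 → b = 0) :
    ‖Gd ![4, 4, 4, 4] u * (a * b * c * d)‖ ≤ bd u := by
  rw [Gd_eq]
  have hprod : bd u = g4 (u 0) * g4 (u 1) * g4 (u 2) * g4 (u 3) := by
    unfold bd
    rw [Fin.prod_univ_four]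
  rw [hprod]
  have n0 := gd4_nonneg (u 0)
  have n1 := gd4_nonneg (u 1)
  have n2 := gd4_nonneg (u 2)
  have n3 := gd4_nonneg (u 3)
  have nn : 0 ≤ gd 4 (u 0) * gd 4 (u 1) * gd 4 (u 2) * gd 4 (u 3) := by positivity
  have nabcd : 0 ≤ a * b * c * d := by positivity
  rw [Real.norm_eq_abs, abs_of_nonneg (mul_nonneg nn nabcd)]
  by_cases hz : (a * b * c * d = 0 ∨ ∃ i, u i ≤ 0)
  · have h0 : gd 4 (u 0) * gd 4 (u 1) * gd 4 (u 2) * gd 4 (u 3) * (a * b * c * d) = 0 := by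
      rcases hz with hz | ⟨i, hi⟩
      · rw [hz, mul_zero]
      · have := gd4_zero hi
        fin_cases i
        · simp only [Fin.zero_eta] at this; rw [this]; ring
        · simp only [Fin.mk_one] at this; rw [this]; ring
        · simp only [Fin.reduceFinMk] at this; rw [this]; ring
        · simp only [Fin.reduceFinMk] at this; rw [this]; ring
    rw [h0]
    unfold g4
    have c0 := ct_nonneg (1 / 2) (u 0)
    have c1 := ct_nonneg (1 / 2) (u 1)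
    have c2 := ct_nonneg (1 / 2) (u 2)
    have c3 := ct_nonneg (1 / 2) (u 3)
    positivity
  · push Not at hz
    obtain ⟨hz1, hz2⟩ := hz
    have hane : a ≠ 0 := by
      rintro rfl
      apply hz1
      ring
    have hbne : b ≠ 0 := by
      rintro rfl
      apply hz1
      ring
    have s1 : u 0 + u 1 < 1 / 2 := by
      by_contra h
      exact hane (ha0 (not_lt.1 h))
    have s2 : u 2 + u 3 < 1 / 2 := by
      by_contra h
      exact hbne (hb0 (not_lt.1 h))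
    have p0 := hz2 0
    have p1 := hz2 1
    have p2 := hz2 2
    have p3 := hz2 3
    have e : ∀ x : ℝ, x ≤ 1 / 2 → g4 x = gd 4 x := by
      intro x hx
      unfold g4 ct
      rw [if_pos hx, mul_one]
    rw [e (u 0) (by linarith), e (u 1) (by linarith), e (u 2) (by linarith), e (u 3) (by linarith)]
    have hle : a * b * c * d ≤ 1 := by
      have q1 : a * b ≤ 1 := mul_le_one₀ ha1 hb hb1
      have q2 : a * b * c ≤ 1 := mul_le_one₀ q1 hc hc1
      exact mul_le_one₀ q2 hd hd1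
    calc _ ≤ gd 4 (u 0) * gd 4 (u 1) * gd 4 (u 2) * gd 4 (u 3) * 1 :=
          mul_le_mul_of_nonneg_left hle nn
      _ = _ := mul_one _

theorem Gd_meas : Measurable (fun u : Fin 4 → ℝ => Gd ![4, 4, 4, 4] u) := by
  have : (fun u : Fin 4 → ℝ => Gd ![4, 4, 4, 4] u) =
      fun u => gd 4 (u 0) * gd 4 (u 1) * gd 4 (u 2) * gd 4 (u 3) := by
    funext u
    exact Gd_eq u
  rw [this]
  have m := gd_meas 4
  exact (((m.comp (measurable_pi_apply 0)).mul (m.comp (measurable_pi_apply 1))).mul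
    (m.comp (measurable_pi_apply 2))).mul (m.comp (measurable_pi_apply 3))

/-- the limit integrand -/
def Gl (u : Fin 4 → ℝ) : ℝ :=
  Gd ![4, 4, 4, 4] u * (pI (u 0 + u 1) * pI (u 2 + u 3) * pI (u 0 + u 2) * pI (u 1 + u 3))

theorem Gl_int : Integrable Gl := by
  refine Integrable.mono' bd_int ?_ (Eventually.of_forall fun u => ?_)
  · apply Measurable.aestronglyMeasurable
    unfold Gl
    have m := pI_meas
    refine Gd_meas.mul ((((m.comp ?_).mul (m.comp ?_)).mul (m.comp ?_)).mul (m.comp ?_)) <;> fun_prop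
  · refine dom u _ _ _ _ (pI_nonneg _) (pI_le_one _) (pI_nonneg _) (pI_le_one _)
      (pI_nonneg _) (pI_le_one _) (pI_nonneg _) (pI_le_one _) ?_ ?_
    · intro h
      exact pI_zero h
    · intro h
      exact pI_zero h

theorem et_cont (ε : ℝ) : Continuous (et ε) := sc_cont _ _

theorem et_nonneg (ε x : ℝ) : 0 ≤ et ε x := sc_nonneg _ _ _

theorem et_le_one (ε x : ℝ) : et ε x ≤ 1 := sc_le_one _ _ _

theorem et_lim (x : ℝ) : Tendsto (fun ε => et ε x) (𝓝[>] 0) (𝓝 (ind x)) := by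
  unfold ind
  split_ifs with h
  · apply tendsto_const_nhds.congr'
    have h1 : ∀ᶠ ε : ℝ in 𝓝[>] 0, ε < (1 / 2 - x) / 2 := by
      apply eventually_nhdsWithin_of_eventually_nhds
      exact gt_mem_nhds (by linarith)
    filter_upwards [h1, self_mem_nhdsWithin] with ε h2 h3
    have h3' : (0 : ℝ) < ε := h3
    unfold et
    rw [sc_eq_one h3' (by linarith)]
  · apply tendsto_const_nhds.congr'
    filter_upwards [self_mem_nhdsWithin] with ε h3
    have h3' : (0 : ℝ) < ε := h3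
    unfold et
    rw [sc_eq_zero h3' (by linarith)]

theorem pt_lim (x : ℝ) : Tendsto (fun ε => pt ε x) (𝓝[>] 0) (𝓝 (pI x)) := by
  unfold pI pt
  exact (et_lim x).const_mul (PP x)

theorem IN_tendsto : Tendsto IN (𝓝[>] 0) (𝓝 (∫ u, Gl u)) := by
  unfold IN
  refine tendsto_integral_filter_of_dominated_convergence bd ?_ ?_ bd_int ?_
  · refine Eventually.of_forall fun ε => ?_
    apply Measurable.aestronglyMeasurable
    have m := (pt_cont ε).measurable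
    refine Gd_meas.mul ((((m.comp ?_).mul (m.comp ?_)).mul (m.comp ?_)).mul (m.comp ?_)) <;> fun_prop
  · filter_upwards [self_mem_nhdsWithin] with ε hε
    have hε' : (0 : ℝ) < ε := hε
    refine Eventually.of_forall fun u => ?_
    refine dom u _ _ _ _ (pt_nonneg _ _) (pt_le_one _ _) (pt_nonneg _ _) (pt_le_one _ _)
      (pt_nonneg _ _) (pt_le_one _ _) (pt_nonneg _ _) (pt_le_one _ _) ?_ ?_
    · intro h
      exact pt_zero hε' (by linarith)
    · intro h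
      exact pt_zero hε' (by linarith)
  · refine Eventually.of_forall fun u => ?_
    exact tendsto_const_nhds.mul ((((pt_lim _).mul (pt_lim _)).mul (pt_lim _)).mul (pt_lim _))

/-- the inner factor -/
def phi (a b x : ℝ) : ℝ := gd 4 x * (pI (a + x) * pI (x + b))

/-- its integral -/
def Ph (a b : ℝ) : ℝ := ∫ x, phi a b x

theorem Ph_symm (a b : ℝ) : Ph a b = Ph b a := by
  unfold Ph phi
  congr 1
  funext x
  rw [add_comm a x, add_comm x b]
  ring

theorem Ph_zero {a : ℝ} (b : ℝ) (ha : 1 / 2 ≤ a) : Ph a b = 0 := by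
  have h1 : ∀ x, phi a b x = 0 := by
    intro x
    unfold phi
    rcases le_or_gt x 0 with hx | hx
    · rw [gd4_zero hx, zero_mul]
    · rw [pI_zero (show 1 / 2 ≤ a + x by linarith)]
      ring
  unfold Ph
  simp [h1]

/-- coefficients of the polynomial `∫_0^(1/2-a) x³/6 P(a+x) P(b+x) dx` in `b` -/
def q0 (a : ℝ) : ℝ := (11 / 322560 : ℝ) + (-79 / 241920 : ℝ) * a + (173 / 103680 : ℝ) * a ^ 2 + (-5 / 864 : ℝ) * a ^ 3 + (25 / 1728 : ℝ) * a ^ 4 + (-191 / 6480 : ℝ) * a ^ 5 + (109 / 2160 : ℝ) * a ^ 6 + (-2 / 35 : ℝ) * a ^ 7 + (16 / 567 : ℝ) * a ^ 8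

def q1 (a : ℝ) : ℝ := (-11 / 60480 : ℝ) + (139 / 207360 : ℝ) * a + (1 / 320 : ℝ) * a ^ 2 + (-49 / 1728 : ℝ) * a ^ 3 + (125 / 1296 : ℝ) * a ^ 4 + (-269 / 1440 : ℝ) * a ^ 5 + (1 / 5 : ℝ) * a ^ 6 + (-256 / 2835 : ℝ) * a ^ 7

def q2 (a : ℝ) : ℝ := (1 / 810 : ℝ) + (-1 / 80 : ℝ) * a + (1 / 18 : ℝ) * a ^ 2 + (-23 / 162 : ℝ) * a ^ 3 + (2 / 9 : ℝ) * a ^ 4 + (-1 / 5 : ℝ) * a ^ 5 + (32 / 405 : ℝ) * a ^ 6

def gp (a b : ℝ) : ℝ := q0 a + q1 a * b + q2 a * b ^ 2

theorem Ph_eq {a b : ℝ} (hb : 0 ≤ b) (hab : b ≤ a) (ha : a < 1 / 2) : Ph a b = gp a b := by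
  unfold Ph
  have h1 := hlp (phi a b) (fun x => ev [0, 0, 0,
      (1 - 9 / 2 * a + 16 / 3 * a ^ 2) * (1 - 9 / 2 * b + 16 / 3 * b ^ 2) / 6,
      ((-9 / 2 + 32 / 3 * a) * (1 - 9 / 2 * b + 16 / 3 * b ^ 2) +
        (1 - 9 / 2 * a + 16 / 3 * a ^ 2) * (-9 / 2 + 32 / 3 * b)) / 6,
      (16 / 3 * (1 - 9 / 2 * b + 16 / 3 * b ^ 2) + (-9 / 2 + 32 / 3 * a) * (-9 / 2 + 32 / 3 * b) +
        16 / 3 * (1 - 9 / 2 * a + 16 / 3 * a ^ 2)) / 6,
      (16 / 3 * (-9 / 2 + 32 / 3 * b) + 16 / 3 * (-9 / 2 + 32 / 3 * a)) / 6,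
      256 / 54] x) 0 (1 / 2 - a) (by linarith)
    (by
      intro x hx
      unfold phi
      rw [pI_eq (show 0 ≤ a + x by linarith [hx.1]) (by linarith [hx.2]),
        pI_eq (show 0 ≤ x + b by linarith [hx.1]) (by linarith [hx.2]), gd4, if_pos hx.1]
      simp only [ev]
      ring)
    (by
      intro x hx
      unfold phi
      rw [Set.mem_Ioo, not_and_or] at hx
      rcases hx with hx | hx
      · rw [gd4_zero (not_lt.1 hx), zero_mul]
      · rw [pI_zero (show 1 / 2 ≤ a + x by linarith [not_lt.1 hx])]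
        ring)
  rw [h1, ev_int]
  simp only [iv]
  unfold gp q0 q1 q2
  ring

theorem int_two (a b : ℝ) :
    ∫ w : Fin 2 → ℝ, gd 4 a * gd 4 b * (phi a b (w 0) * phi a b (w 1)) =
      gd 4 a * (gd 4 b * Ph a b ^ 2) := by
  rw [integral_const_mul]
  have h1 : ∫ w : Fin 2 → ℝ, phi a b (w 0) * phi a b (w 1) = (∫ x, phi a b x) ^ 2 := by
    have h2 := integral_fintype_prod_volume_eq_pow (ι := Fin 2) (phi a b)
    simp only [Fin.prod_univ_two, Fintype.card_fin] at h2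
    exact h2
  rw [h1]
  unfold Ph
  ring

/-- the integral over `b` -/
def Rin (a : ℝ) : ℝ := ∫ b, gd 4 b * Ph a b ^ 2

/-- three variables -/
def H3 (a : ℝ) (v : Fin 3 → ℝ) : ℝ := gd 4 a * gd 4 (v 0) * gd 4 (v 1) * gd 4 (v 2) *
  (pI (a + v 0) * pI (v 1 + v 2) * pI (a + v 1) * pI (v 0 + v 2))

/-- two variables -/
def H2 (a b : ℝ) (w : Fin 2 → ℝ) : ℝ := gd 4 a * gd 4 b * (phi a b (w 0) * phi a b (w 1))

theorem Gl_iter : ∫ u, Gl u = ∫ a, gd 4 a * Rin a := by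
  have h1 : Gl = fun u : Fin 4 → ℝ => H3 (u 0) (fun j => u ((0 : Fin 4).succAbove j)) := by
    funext u
    unfold Gl
    rw [Gd_eq]
    rfl
  have hI := Gl_int
  rw [h1] at hI
  obtain ⟨e1, e2⟩ := split (0 : Fin 4) H3 hI
  rw [h1, e1]
  apply integral_congr_ae
  filter_upwards [e2] with a ha
  have h2 : H3 a = fun v : Fin 3 → ℝ => H2 a (v 2) (fun j => v ((2 : Fin 3).succAbove j)) := by
    funext v
    unfold H2 H3
    have s0 : ((2 : Fin 3).succAbove (0 : Fin 2)) = 0 := rfl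
    have s1 : ((2 : Fin 3).succAbove (1 : Fin 2)) = 1 := rfl
    simp only [s0, s1]
    unfold phi
    ring
  rw [h2] at ha
  obtain ⟨e3, _⟩ := split (2 : Fin 3) (H2 a) ha
  rw [h2, e3]
  unfold Rin
  rw [← integral_const_mul]
  congr 1
  funext b
  exact int_two a b

theorem Rin_zero {a : ℝ} (ha : 1 / 2 ≤ a) : Rin a = 0 := by
  unfold Rin
  have : ∀ b, gd 4 b * Ph a b ^ 2 = 0 := by
    intro b
    rw [Ph_zero b ha]
    ring
  simp [this]

theorem q_cont : Continuous q0 ∧ Continuous q1 ∧ Continuous q2 := by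
  refine ⟨?_, ?_, ?_⟩
  · unfold q0; fun_prop
  · unfold q1; fun_prop
  · unfold q2; fun_prop

/-- the part `b ≤ a` -/
def R1 (a : ℝ) : ℝ := q0 a ^ 2 * a ^ 4 / 24 + q0 a * q1 a * a ^ 5 / 15 +
  (q1 a ^ 2 + 2 * q0 a * q2 a) * a ^ 6 / 36 + q1 a * q2 a * a ^ 7 / 21 + q2 a ^ 2 * a ^ 8 / 48

/-- the part `a ≤ b` -/
def R2 (a : ℝ) : ℝ := (76324517 / 8968649962942365696000 : ℝ) + (-4018841 / 31141145704660992000 : ℝ) * a + (17439427 / 19668092023996416000 : ℝ) * a ^ 2 + (-103153 / 34145993097216000 : ℝ) * a ^ 3 + (-6293603 / 144618323705856000 : ℝ) * a ^ 4 + (737 / 585252864000 : ℝ) * a ^ 5 + (-197 / 11943936000 : ℝ) * a ^ 6 + (1480951 / 10534551552000 : ℝ) * a ^ 7 + (-54589849 / 63207309312000 : ℝ) * a ^ 8 + (95399891 / 23702740992000 : ℝ) * a ^ 9 + (-154325257 / 10534551552000 : ℝ) * a ^ 10 + (76671457 / 1810626048000 : ℝ) * a ^ 11 + (-354910861 / 3621252096000 : ℝ) * a ^ 12 + (458750471 / 2521943424000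 : ℝ) * a ^ 13 + (-12685353853 / 47076277248000 : ℝ) * a ^ 14 + (1853178599 / 5884534656000 : ℝ) * a ^ 15 + (-405792631 / 1426553856000 : ℝ) * a ^ 16 + (654382273 / 3410355312000 : ℝ) * a ^ 17 + (-17931023 / 196751268000 : ℝ) * a ^ 18 + (117802 / 4326706125 : ℝ) * a ^ 19 + (-4288 / 1112581575 : ℝ) * a ^ 20

theorem R1_eq (a : ℝ) : ∫ b in (0 : ℝ)..a, b ^ 3 / 6 * gp a b ^ 2 = R1 a := by
  have e : ∀ b : ℝ, b ^ 3 / 6 * gp a b ^ 2 = ev [0, 0, 0, q0 a ^ 2 / 6, 2 * q0 a * q1 a / 6,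
      (q1 a ^ 2 + 2 * q0 a * q2 a) / 6, 2 * q1 a * q2 a / 6, q2 a ^ 2 / 6] b := by
    intro b
    unfold gp
    simp only [ev]
    ring
  simp only [e]
  rw [ev_int]
  simp only [iv]
  unfold R1
  ring

theorem R2_eq (a : ℝ) : ∫ b in a..(1 / 2 : ℝ), b ^ 3 / 6 * gp b a ^ 2 = R2 a := by
  have e : ∀ b : ℝ, b ^ 3 / 6 * gp b a ^ 2 = ev [0, 0, 0, (121 / 624269721600 : ℝ) + (-121 / 58525286400 : ℝ) * a + (143 / 7315660800 : ℝ) * a ^ 2 + (-11 / 146966400 : ℝ) * a ^ 3 + (1 / 3936600 : ℝ) * a ^ 4, (-869 / 234101145600 : ℝ) + (4279 / 156067430400 : ℝ) * a + (-3977 / 12541132800 : ℝ) * a ^ 2 + (1823 / 1763596800 : ℝ) * a ^ 3 + (-1 / 194400 : ℝ) * a ^ 4, (2867 / 78033715200 : ℝ) + (-6953 / 50164531200 : ℝ) * a + (1543621 / 601974374400 : ℝ) * a ^ 2 + (-1019 / 209018880 : ℝ) * a ^ 3 + (1369 / 27993600 : ℝ) * a ^ 4, (-18617 / 75246796800 : ℝ) + (27623 / 451480780800 : ℝ) * a + (-109693 / 7524679680 : ℝ) * a ^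 2 + (-719 / 195955200 : ℝ) * a ^ 3 + (-913 / 3149280 : ℝ) * a ^ 4, (568153 / 451480780800 : ℝ) + (35281 / 9405849600 : ℝ) * a + (285899 / 4180377600 : ℝ) * a ^ 2 + (12029 / 70543872 : ℝ) * a ^ 3 + (419 / 349920 : ℝ) * a ^ 4, (-48239 / 9405849600 : ℝ) + (-61457 / 2090188800 : ℝ) * a + (-42053 / 149299200 : ℝ) * a ^ 2 + (-5933 / 5443200 : ℝ) * a ^ 3 + (-1591 / 437400 : ℝ) * a ^ 4, (54587 / 3135283200 : ℝ) + (1924129 / 14108774400 : ℝ) * a + (6347429 / 6270566400 : ℝ) * a ^ 2 + (408641 / 97977600 : ℝ) * a ^ 3 + (21889 / 2624400 : ℝ) * a ^ 4, (-2491001 / 49380710400 : ℝ) + (-5107783 / 10973491200 : ℝ) * a + (-1870919 / 609638400 : ℝ) * a ^ 2 + (-16439 / 1469664 : ℝ) * a ^ 3 + (-1591 / 109350 : ℝ) * a ^ 4, (2773039 / 21946982400 : ℝ) + (64177 / 50803200 : ℝ) * a + (1189037 / 156764160 : ℝ) * a ^ 2 + (29989 / 1360800 : ℝ) * a ^ 3 + (419 / 21870 : ℝ) * a ^ 4, (-752627 / 2743372800 : ℝ) + (-6618761 / 2351462400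 : ℝ) * a + (-2910827 / 195955200 : ℝ) * a ^ 2 + (-11813 / 367416 : ℝ) * a ^ 3 + (-1826 / 98415 : ℝ) * a ^ 4, (604423 / 1175731200 : ℝ) + (1012303 / 195955200 : ℝ) * a + (17565847 / 783820800 : ℝ) * a ^ 2 + (3756707 / 110224800 : ℝ) * a ^ 3 + (1369 / 109350 : ℝ) * a ^ 4, (-80911 / 97977600 : ℝ) + (-1498397 / 195955200 : ℝ) * a + (-920951 / 36741600 : ℝ) * a ^ 2 + (-3182 / 127575 : ℝ) * a ^ 3 + (-32 / 6075 : ℝ) * a ^ 4, (659549 / 587865600 : ℝ) + (240203 / 27556200 : ℝ) * a + (6403 / 328050 : ℝ) * a ^ 2 + (32 / 2835 : ℝ) * a ^ 3 + (512 / 492075 : ℝ) * a ^ 4, (-34127 / 27556200 : ℝ) + (-16271 / 2296350 : ℝ) * a + (-16 / 1701 : ℝ) * a ^ 2 + (-8192 / 3444525 : ℝ) * a ^ 3, (8189 / 8037225 : ℝ) + (1072 / 297675 : ℝ) * a + (5632 / 2679075 : ℝ) * a ^ 2, (-32 / 59535 : ℝ) + (-4096 / 4822335 : ℝ) * a, (128 / 964467 : ℝ)] b := by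
    intro b
    unfold gp q0 q1 q2
    simp only [ev]
    ring
  simp only [e]
  have hI : ∀ u v : ℝ, IntervalIntegrable (fun b => ev [0, 0, 0, (121 / 624269721600 : ℝ) + (-121 / 58525286400 : ℝ) * a + (143 / 7315660800 : ℝ) * a ^ 2 + (-11 / 146966400 : ℝ) * a ^ 3 + (1 / 3936600 : ℝ) * a ^ 4, (-869 / 234101145600 : ℝ) + (4279 / 156067430400 : ℝ) * a + (-3977 / 12541132800 : ℝ) * a ^ 2 + (1823 / 1763596800 : ℝ) * a ^ 3 + (-1 / 194400 : ℝ) * a ^ 4, (2867 / 78033715200 : ℝ) + (-6953 / 50164531200 : ℝ) * a + (1543621 / 601974374400 : ℝ) * a ^ 2 + (-1019 / 209018880 : ℝ) * a ^ 3 + (1369 / 27993600 : ℝ) * a ^ 4, (-18617 / 75246796800 : ℝ) + (27623 / 451480780800 : ℝ) * a + (-109693 / 7524679680 : ℝ) * a ^ 2 + (-719 / 195955200 : ℝ) * a ^ 3 + (-913 / 3149280 : ℝ) * a ^ 4, (568153 / 451480780800 : ℝ) + (35281 / 9405849600 : ℝ) * a + (285899 / 4180377600 : ℝ) * a ^ 2 + (12029 / 70543872 : ℝ) * a ^ 3 + (419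 / 349920 : ℝ) * a ^ 4, (-48239 / 9405849600 : ℝ) + (-61457 / 2090188800 : ℝ) * a + (-42053 / 149299200 : ℝ) * a ^ 2 + (-5933 / 5443200 : ℝ) * a ^ 3 + (-1591 / 437400 : ℝ) * a ^ 4, (54587 / 3135283200 : ℝ) + (1924129 / 14108774400 : ℝ) * a + (6347429 / 6270566400 : ℝ) * a ^ 2 + (408641 / 97977600 : ℝ) * a ^ 3 + (21889 / 2624400 : ℝ) * a ^ 4, (-2491001 / 49380710400 : ℝ) + (-5107783 / 10973491200 : ℝ) * a + (-1870919 / 609638400 : ℝ) * a ^ 2 + (-16439 / 1469664 : ℝ) * a ^ 3 + (-1591 / 109350 : ℝ) * a ^ 4, (2773039 / 21946982400 : ℝ) + (64177 / 50803200 : ℝ) * a + (1189037 / 156764160 : ℝ) * a ^ 2 + (29989 / 1360800 : ℝ) * a ^ 3 + (419 / 21870 : ℝ) * a ^ 4, (-752627 / 2743372800 : ℝ) + (-6618761 / 2351462400 : ℝ) * a + (-2910827 / 195955200 : ℝ) * a ^ 2 + (-11813 / 367416 : ℝ) * a ^ 3 + (-1826 / 98415 : ℝ) * a ^ 4, (604423 / 1175731200 : ℝ) + (1012303 / 195955200 : ℝ) * a + (17565847 / 783820800 : ℝ)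 * a ^ 2 + (3756707 / 110224800 : ℝ) * a ^ 3 + (1369 / 109350 : ℝ) * a ^ 4, (-80911 / 97977600 : ℝ) + (-1498397 / 195955200 : ℝ) * a + (-920951 / 36741600 : ℝ) * a ^ 2 + (-3182 / 127575 : ℝ) * a ^ 3 + (-32 / 6075 : ℝ) * a ^ 4, (659549 / 587865600 : ℝ) + (240203 / 27556200 : ℝ) * a + (6403 / 328050 : ℝ) * a ^ 2 + (32 / 2835 : ℝ) * a ^ 3 + (512 / 492075 : ℝ) * a ^ 4, (-34127 / 27556200 : ℝ) + (-16271 / 2296350 : ℝ) * a + (-16 / 1701 : ℝ) * a ^ 2 + (-8192 / 3444525 : ℝ) * a ^ 3, (8189 / 8037225 : ℝ) + (1072 / 297675 : ℝ) * a + (5632 / 2679075 : ℝ) * a ^ 2, (-32 / 59535 : ℝ) + (-4096 / 4822335 : ℝ) * a, (128 / 964467 : ℝ)] b) volume u v :=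
    fun u v => (ev_cont _).intervalIntegrable u v
  have h := intervalIntegral.integral_add_adjacent_intervals (hI 0 a) (hI a (1 / 2))
  rw [ev_int, ev_int] at h
  rw [← eq_sub_iff_add_eq'] at h
  rw [h]
  simp only [iv]
  unfold R2
  ring

theorem Rin_eq {a : ℝ} (ha : 0 < a) (ha1 : a < 1 / 2) : Rin a = R1 a + R2 a := by
  unfold Rin
  obtain ⟨c0, c1, c2⟩ := q_cont
  have h1 := hlp (fun b => gd 4 b * Ph a b ^ 2)
    (fun b => b ^ 3 / 6 * gp (max a b) (min a b) ^ 2) 0 (1 / 2) (by norm_num)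
    (by
      intro b hb
      rw [gd4, if_pos hb.1]
      congr 2
      rcases le_total b a with h | h
      · rw [max_eq_left h, min_eq_right h, Ph_eq hb.1.le h ha1]
      · rw [max_eq_right h, min_eq_left h, Ph_symm, Ph_eq ha.le h hb.2])
    (by
      intro b hb
      rw [Set.mem_Ioo, not_and_or] at hb
      rcases hb with hb | hb
      · rw [gd4_zero (not_lt.1 hb), zero_mul]
      · rw [Ph_symm, Ph_zero a (not_lt.1 hb)]
        ring)
  rw [h1]
  have hc : Continuous (fun b : ℝ => b ^ 3 / 6 * gp (max a b) (min a b) ^ 2) := by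
    unfold gp
    fun_prop
  rw [← intervalIntegral.integral_add_adjacent_intervals (a := 0) (b := a) (c := 1 / 2)
    (hc.intervalIntegrable _ _) (hc.intervalIntegrable _ _)]
  have e1 : ∫ b in (0 : ℝ)..a, b ^ 3 / 6 * gp (max a b) (min a b) ^ 2 = R1 a := by
    rw [← R1_eq]
    apply intervalIntegral.integral_congr
    intro b hb
    rw [Set.uIcc_of_le ha.le] at hb
    simp only
    rw [max_eq_left hb.2, min_eq_right hb.2]
  have e2 : ∫ b in a..(1 / 2 : ℝ), b ^ 3 / 6 * gp (max a b) (min a b) ^ 2 = R2 a := by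
    rw [← R2_eq]
    apply intervalIntegral.integral_congr
    intro b hb
    rw [Set.uIcc_of_le ha1.le] at hb
    simp only
    rw [max_eq_right hb.1, min_eq_left hb.1]
  rw [e1, e2]

theorem outer : ∫ a, gd 4 a * Rin a = 67531663 / 693097269136186020986880000 := by
  have h1 := hlp (fun a => gd 4 a * Rin a)
    (fun a => ev [0, 0, 0, (76324517 / 53811899777654194176000 : ℝ), (-4018841 / 186846874227965952000 : ℝ), (17439427 / 118008552143978496000 : ℝ), (-103153 / 204875958583296000 : ℝ), (797 / 968426274816000 : ℝ), (-11 / 802632499200 : ℝ), (23 / 96315899904 : ℝ), (-629 / 300987187200 : ℝ), (196583 / 16855282483200 : ℝ), (-81833 / 1777705574400 : ℝ), (1218941 / 9029615616000 : ℝ), (-13137203 / 43455025152000 : ℝ), (11449441 / 21727512576000 : ℝ), (-77124367 / 105921623808000 : ℝ), (230230543 / 282457663488000 : ℝ), (-8901421 / 11769069312000 : ℝ), (15167161 / 25677969408000 : ℝ), (-2657027 / 6820710624000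 : ℝ), (253231 / 1180507608000 : ℝ), (-1177 / 12980118375 : ℝ), (496 / 23364213075 : ℝ)] a) 0 (1 / 2) (by norm_num)
    (by
      intro a ha
      rw [Rin_eq ha.1 ha.2, gd4, if_pos ha.1]
      unfold R1 R2 q0 q1 q2
      simp only [ev]
      ring)
    (by
      intro a ha
      rw [Set.mem_Ioo, not_and_or] at ha
      rcases ha with ha | ha
      · rw [gd4_zero (not_lt.1 ha), zero_mul]
      · rw [Rin_zero (not_lt.1 ha), mul_zero])
  rw [h1, ev_int]
  simp only [iv]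
  norm_num

/-- MN3 -/
theorem IN_lim : Tendsto IN (𝓝[>] 0) (𝓝 (67531663 / 33126426869760 / (Nat.factorial 16 : ℝ))) := by
  have h := IN_tendsto
  rw [Gl_iter, outer] at h
  have e : (67531663 / 33126426869760 / (Nat.factorial 16 : ℝ)) = 67531663 / 693097269136186020986880000 := by
    norm_num [Nat.factorial]
  rw [e]
  exact h

end

end Pool.Agent.TH158.E8.MN3
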